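import Pool.Agent.H32.RB.Defs
import Pool.Agent.H32.BT.Mob
import Pool.Agent.H32.BT.Cj
import Pool.Agent.H32.BT.Conv

set_option autoImplicit false

open Filter Topology Polynomial OnePoint Metric Set

namespace Pool.Agent.H32.RB

open Pool.Agent.H44.Fatou Pool.Agent.H32.BT

/-
mult_cj: invariance of the multiplier of a fixed point b (not s) under conjugation by
phi z = 1/(z - s). Put y = (b - s)^-1, not 0, s + 1/y = b. For y' not 0: cj1 at y' =
y'^d B(s + 1/y'), cj2 at y' = y'^d (A - s B)(s + 1/y') (eval_reflect in H44/Fatou/Basic.lean). At the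
fixed point A b = b B b: cj2 at y = y^d (b - s) B b. Compute Wr (cj1) (cj2) at y either by wv_rev_aux /
wv_rev (H44/Fatou/Mob2.lean: Wronskian of reflected polynomials) applied to B.comp (X + C s) and
(A - s B).comp (X + C s) - note Wr B (A - sB) = - Wr A B - or by differentiating the identities
above (Polynomial.hasDerivAt). Result: Wr (cj1)(cj2) (y) = y^(2d-2) (Wr A B)(b), hence dividing by
(y^d (b-s) B b)^2 = y^(2d-2) (B b)^2 gives the claim.
reflect_lin: both sides are polynomials of degree at most 1: reflect 1 (X + C (s - b)) =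
1 + C (s - b) X = C (s - b) (X - C ((b - s)^-1)).
robust_smul: multiply or divide the pairs by the constant r (rat_mul_const in BT/Conv.lean).
-/

theorem mulcj_eval {R : Polynomial ℂ} {d : ℕ} (hR : R.natDegree ≤ d) {y : ℂ} (hy : y ≠ 0) :
    (reflect d R).eval y = y ^ d * R.eval y⁻¹ := by
  have h := eval_reflect hR (inv_ne_zero hy)
  rw [inv_inv] at h
  rw [h, inv_pow, mul_comm, mul_assoc, inv_mul_cancel₀ (pow_ne_zero d hy), mul_one]

theorem mulcj_deriv {R : Polynomial ℂ} {d : ℕ} (hR : R.natDegree ≤ d) {y : ℂ} (hy : y ≠ 0) :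
    y ^ 2 * (derivative (reflect d R)).eval y =
      y ^ d * (d * y * R.eval y⁻¹ - (derivative R).eval y⁻¹) := by
  have h1 : HasDerivAt (fun z : ℂ => (reflect d R).eval z)
      ((derivative (reflect d R)).eval y) y := (reflect d R).hasDerivAt y
  have h2 : HasDerivAt (fun z : ℂ => z ^ d * R.eval z⁻¹)
      (d * y ^ (d - 1) * R.eval y⁻¹ + y ^ d * ((derivative R).eval y⁻¹ * (-(y ^ 2)⁻¹))) y := by
    have h3 : HasDerivAt (fun z : ℂ => R.eval z⁻¹) ((derivative R).eval y⁻¹ * (-(y ^ 2)⁻¹)) y :=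
      (R.hasDerivAt y⁻¹).comp y (hasDerivAt_inv hy)
    exact (hasDerivAt_pow d y).mul h3
  have h3 : (fun z : ℂ => z ^ d * R.eval z⁻¹) =ᶠ[𝓝 y] (fun z : ℂ => (reflect d R).eval z) := by
    filter_upwards [isOpen_ne.mem_nhds hy] with z hz
    exact (mulcj_eval hR hz).symm
  have h4 := (h1.congr_of_eventuallyEq h3).unique h2
  rw [h4]
  rcases d with _ | d
  · simp only [pow_zero, Nat.cast_zero, zero_mul, zero_add, one_mul, zero_sub]
    field_simp
  · rw [Nat.add_sub_cancel]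
    field_simp
    ring

theorem mult_cj {A B : Polynomial ℂ} {d : ℕ} (hA : A.natDegree ≤ d) (hB : B.natDegree ≤ d)
    {s b : ℂ} (hbs : b ≠ s) (hfix : A.eval b = b * B.eval b) (hBb : B.eval b ≠ 0) :
    (cj2 s d A B).eval (b - s)⁻¹ ≠ 0 ∧
    (cj1 s d A B).eval (b - s)⁻¹ = (b - s)⁻¹ * (cj2 s d A B).eval (b - s)⁻¹ ∧
    (Wr (cj1 s d A B) (cj2 s d A B)).eval (b - s)⁻¹ / ((cj2 s d A B).eval (b - s)⁻¹) ^ 2 =
      (Wr A B).eval b / (B.eval b) ^ 2 := by
  have hc : b - s ≠ 0 := sub_ne_zero.2 hbs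
  have hy : (b - s)⁻¹ ≠ 0 := inv_ne_zero hc
  have d1 := mob_deg1 s hB
  have d2 := mob_deg1 s (mob_deg2 s hA hB)
  have e1 : (cj1 s d A B).eval (b - s)⁻¹ = (b - s)⁻¹ ^ d * B.eval b := by
    unfold cj1
    rw [mulcj_eval d1 hy, inv_inv]
    simp
  have e2 : (cj2 s d A B).eval (b - s)⁻¹ = (b - s)⁻¹ ^ d * ((b - s) * B.eval b) := by
    unfold cj2
    rw [mulcj_eval d2 hy, inv_inv]
    simp only [eval_comp, eval_add, eval_X, eval_C, eval_sub, eval_mul, sub_add_cancel]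
    rw [hfix]
    ring
  have f1 : (b - s)⁻¹ ^ 2 * (derivative (cj1 s d A B)).eval (b - s)⁻¹ =
      (b - s)⁻¹ ^ d * (d * (b - s)⁻¹ * B.eval b - (derivative B).eval b) := by
    unfold cj1
    rw [mulcj_deriv d1 hy, inv_inv]
    simp [derivative_comp]
  have f2 : (b - s)⁻¹ ^ 2 * (derivative (cj2 s d A B)).eval (b - s)⁻¹ =
      (b - s)⁻¹ ^ d * (d * (b - s)⁻¹ * ((b - s) * B.eval b) -
        ((derivative A).eval b - s * (derivative B).eval b)) := by
    unfold cj2
    rw [mulcj_deriv d2 hy, inv_inv]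
    simp only [derivative_comp, derivative_sub, derivative_mul, derivative_C, derivative_add,
      derivative_X, zero_mul, zero_add, add_zero, one_mul, eval_comp, eval_add, eval_X, eval_C,
      eval_sub, eval_mul, sub_add_cancel]
    rw [hfix]
    ring
  have hyd : (b - s)⁻¹ ^ d ≠ 0 := pow_ne_zero d hy
  have hne : (cj2 s d A B).eval (b - s)⁻¹ ≠ 0 := by
    rw [e2]
    exact mul_ne_zero hyd (mul_ne_zero hc hBb)
  refine ⟨hne, ?_, ?_⟩
  · rw [e1, e2]
    field_simp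
  · have hW : (b - s)⁻¹ ^ 2 * (Wr (cj1 s d A B) (cj2 s d A B)).eval (b - s)⁻¹ =
        ((b - s)⁻¹ ^ d) ^ 2 * (Wr A B).eval b := by
      unfold Wr
      simp only [eval_sub, eval_mul]
      rw [mul_sub, ← mul_assoc, f1, mul_left_comm ((b - s)⁻¹ ^ 2), f2, e1, e2, hfix]
      field_simp
      ring
    have hW' : (Wr (cj1 s d A B) (cj2 s d A B)).eval (b - s)⁻¹ =
        (b - s) ^ 2 * (((b - s)⁻¹ ^ d) ^ 2 * (Wr A B).eval b) := by
      rw [← hW, inv_pow, ← mul_assoc, mul_inv_cancel₀ (pow_ne_zero 2 hc), one_mul]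
    rw [hW', e2]
    field_simp

theorem reflect_lin {s b : ℂ} (hbs : b ≠ s) :
    reflect 1 ((X - C b : Polynomial ℂ).comp (X + C s)) = C (s - b) * (X - C (b - s)⁻¹) := by
  have h1 : (X - C b : Polynomial ℂ).comp (X + C s) = X + C (s - b) := by
    rw [sub_comp, X_comp, C_comp, C_sub]
    ring
  have h2 : (s - b) * (b - s)⁻¹ = -1 := by
    have hc : b - s ≠ 0 := sub_ne_zero.2 hbs
    rw [← neg_sub b s, neg_mul, mul_inv_cancel₀ hc]
  rw [h1, reflect_add, reflect_one_X, reflect_C, pow_one, mul_sub, ← C_mul, h2, C_neg, C_1]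
  ring

theorem robust_smul_aux {d : ℕ} {P Q : Polynomial ℂ} {r : ℂ} (hr : r ≠ 0)
    (h : Robust d P Q) : Robust d (P * C r) (Q * C r) := by
  obtain ⟨ρ, hρ, h1⟩ := h
  have hr' : 0 < ‖r‖ := norm_pos_iff.2 hr
  refine ⟨ρ * ‖r‖, mul_pos hρ hr', ?_⟩
  intro P' Q' hcop hdeg hnear
  have hri := inv_ne_zero hr
  have key : ∀ (R R' : Polynomial ℂ) (i : ℕ), ‖R'.coeff i - (R * C r).coeff i‖ < ρ * ‖r‖ →
      ‖(R' * C r⁻¹).coeff i - R.coeff i‖ < ρ := by
    intro R R' i hi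
    have e : (R' * C r⁻¹).coeff i - R.coeff i = (R'.coeff i - (R * C r).coeff i) * r⁻¹ := by
      rw [coeff_mul_C, coeff_mul_C, sub_mul, mul_assoc, mul_inv_cancel₀ hr, mul_one]
    rw [e, norm_mul, norm_inv, ← div_eq_mul_inv, div_lt_iff₀ hr']
    exact hi
  have h2 := h1 (P' * C r⁻¹) (Q' * C r⁻¹)
    ((isCoprime_mul_unit_right (isUnit_C.2 hri.isUnit) P' Q').2 hcop)
    (by rw [natDegree_mul_C hri, natDegree_mul_C hri]; exact hdeg)
    (fun i => ⟨key P P' i (hnear i).1, key Q Q' i (hnear i).2⟩)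
  rwa [rat_mul_const hri] at h2

theorem robust_smul {d : ℕ} {P Q : Polynomial ℂ} {r : ℂ} (hr : r ≠ 0) :
    Robust d (P * C r) (Q * C r) ↔ Robust d P Q := by
  constructor
  · intro h
    have h1 := robust_smul_aux (inv_ne_zero hr) h
    have e : ∀ R : Polynomial ℂ, R * C r * C r⁻¹ = R := by
      intro R
      rw [mul_assoc, ← C_mul, mul_inv_cancel₀ hr, C_1, mul_one]
    rwa [e, e] at h1
  · exact robust_smul_aux hr

end Pool.Agent.H32.RB
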