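import Pool.Agent.H32.RB.Defs
import Pool.Agent.H32.RB.MulCj

set_option autoImplicit false

open Filter Topology Polynomial OnePoint Metric Set

namespace Pool.Agent.H32.RB

open Pool.Agent.H44.Fatou Pool.Agent.H32.BT

/-- transport of robustness -/
theorem robust_transport {A B : Polynomial ℂ} {e : ℕ} (hA : A.natDegree ≤ e)
    (hB : B.natDegree ≤ e) (he1 : 1 ≤ e) (s : ℂ) (k : ℕ) (H : Polynomial ℂ)
    (hH : H.natDegree ≤ k) :
    Robust (e + k) (cj1 s e A B * reflect k (H.comp (X + C s)))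
        (cj2 s e A B * reflect k (H.comp (X + C s))) ↔
      Robust (e + k) (A * H) (B * H) := by
  obtain ⟨m1, m2⟩ := cj_mul s (k := k) hA hB hH
  rw [← m1, ← m2]
  exact robust_cj s (d := e + k) (by omega) (natDegree_mul_le.trans (by omega))
    (natDegree_mul_le.trans (by omega))

theorem natDegree_le_of_max {A B : Polynomial ℂ} {e : ℕ} (he : max A.natDegree B.natDegree = e) :
    A.natDegree ≤ e ∧ B.natDegree ≤ e := by
  have h1 := le_max_left A.natDegree B.natDegree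
  have h2 := le_max_right A.natDegree B.natDegree
  omega

/-- the chart at `s` -/
theorem chart_at {A B : Polynomial ℂ} {e : ℕ} (hcop : IsCoprime A B)
    (he : max A.natDegree B.natDegree = e) (he1 : 1 ≤ e) (s : ℂ) :
    ∃ φ : OnePoint ℂ ≃ₜ OnePoint ℂ, φ s = ∞ ∧
      (∀ z : ℂ, z ≠ s → φ (z : OnePoint ℂ) = (((z - s)⁻¹ : ℂ) : OnePoint ℂ)) ∧
      φ ∞ = ((0 : ℂ) : OnePoint ℂ) ∧
      IsCoprime (cj1 s e A B) (cj2 s e A B) ∧
      max (cj1 s e A B).natDegree (cj2 s e A B).natDegree = e ∧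
      (∀ x, rat (cj1 s e A B) (cj2 s e A B) (φ x) = φ (rat A B x)) ∧
      (rat A B s ≠ s → (cj2 s e A B).natDegree = e) := by
  obtain ⟨φ, hφ1, hφs, hφi, hφ⟩ := exists_mob s
  obtain ⟨hcop', hdeg', hconj⟩ := hφ e A B hcop he he1
  refine ⟨φ, hφs, hφ1, hφi, hcop', hdeg', hconj, fun hs => ?_⟩
  set g := rat (cj1 s e A B) (cj2 s e A B) with hg
  have hginf : g ∞ = φ (rat A B s) := by rw [← hφs, hconj]
  have hne : g ∞ ≠ ∞ := by
    rw [hginf]
    intro h
    rw [← hφs] at h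
    exact hs (φ.injective h)
  have hcoef : (cj2 s e A B).coeff e ≠ 0 := by
    intro h
    apply hne
    rw [hg, rat_infty]
    have : dg (cj1 s e A B) (cj2 s e A B) = e := hdeg'
    rw [this, pt, if_pos h]
  exact le_antisymm (natDegree_le_of_max hdeg').2 (le_natDegree_of_ne_zero hcoef)

theorem exists_generic_s {A B : Polynomial ℂ} (hcop : IsCoprime A B)
    (hd : 2 ≤ max A.natDegree B.natDegree) {S : Set (OnePoint ℂ)} (hS : S.Countable) :
    ∃ s : ℂ, (s : OnePoint ℂ) ∉ S ∧ rat A B s ≠ s := by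
  have hbad : ({b : ℂ | (b : OnePoint ℂ) ∈ S} ∪
      {b : ℂ | rat A B (b : OnePoint ℂ) = (b : OnePoint ℂ)}).Countable :=
    (countable_coe hS).union (fixed_finite hcop hd).countable
  obtain ⟨s, hs⟩ := (hbad.dense_compl ℂ).nonempty
  simp only [mem_compl_iff, mem_union, not_or] at hs
  exact ⟨s, hs.1, hs.2⟩

/-- transport for one hole -/
theorem transport_one {A B : Polynomial ℂ} {e : ℕ} (hA : A.natDegree ≤ e)
    (hB : B.natDegree ≤ e) (he1 : 1 ≤ e) {s b : ℂ} (hb : b ≠ s) :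
    Robust (e + 1) (cj1 s e A B * (X - C (b - s)⁻¹)) (cj2 s e A B * (X - C (b - s)⁻¹)) ↔
      Robust (e + 1) (A * (X - C b)) (B * (X - C b)) := by
  rw [← robust_transport hA hB he1 s 1 (X - C b) (natDegree_X_sub_C b).le, reflect_lin hb,
    ← robust_smul (P := cj1 s e A B * (X - C (b - s)⁻¹)) (r := s - b)
      (sub_ne_zero.2 hb.symm)]
  rw [mul_assoc, mul_assoc, mul_comm (X - C (b - s)⁻¹) (C (s - b))]

/-- transport for two holes -/
theorem transport_two {A B : Polynomial ℂ} {e : ℕ} (hA : A.natDegree ≤ e)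
    (hB : B.natDegree ≤ e) (he1 : 1 ≤ e) {s b b' : ℂ} (hb : b ≠ s) (hb' : b' ≠ s) :
    Robust (e + 2) (cj1 s e A B * ((X - C (b - s)⁻¹) * (X - C (b' - s)⁻¹)))
        (cj2 s e A B * ((X - C (b - s)⁻¹) * (X - C (b' - s)⁻¹))) ↔
      Robust (e + 2) (A * ((X - C b) * (X - C b'))) (B * ((X - C b) * (X - C b'))) := by
  have hdeg : ((X - C b) * (X - C b') : Polynomial ℂ).natDegree ≤ 2 := by
    refine natDegree_mul_le.trans ?_
    rw [natDegree_X_sub_C, natDegree_X_sub_C]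
  have hlin : ∀ b : ℂ, ((X - C b : Polynomial ℂ).comp (X + C s)).natDegree ≤ 1 := by
    intro b
    rw [natDegree_comp, natDegree_X_add_C, natDegree_X_sub_C]
  have href : reflect 2 (((X - C b) * (X - C b') : Polynomial ℂ).comp (X + C s)) =
      ((X - C (b - s)⁻¹) * (X - C (b' - s)⁻¹)) * C ((s - b) * (s - b')) := by
    rw [mul_comp]
    have h2 := reflect_mul ((X - C b : Polynomial ℂ).comp (X + C s))
      ((X - C b' : Polynomial ℂ).comp (X + C s)) (hlin b) (hlin b')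
    rw [show (2 : ℕ) = 1 + 1 from rfl, h2, reflect_lin hb, reflect_lin hb', C_mul]
    ring
  rw [← robust_transport hA hB he1 s 2 _ hdeg, href,
    ← robust_smul (P := cj1 s e A B * ((X - C (b - s)⁻¹) * (X - C (b' - s)⁻¹)))
      (r := (s - b) * (s - b')) (mul_ne_zero (sub_ne_zero.2 hb.symm) (sub_ne_zero.2 hb'.symm)),
    mul_assoc (cj1 s e A B), mul_assoc (cj2 s e A B)]

/-- a finite orbit in the plane -/
theorem orbit_steps {A B : Polynomial ℂ} (x : ℕ → ℂ)
    (hx : ∀ j, (rat A B)^[j] (x 0 : OnePoint ℂ) = (x j : OnePoint ℂ)) (j : ℕ) :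
    B.eval (x j) ≠ 0 ∧ A.eval (x j) / B.eval (x j) = x (j + 1) := by
  have h2 := hx (j + 1)
  rw [Function.iterate_succ_apply', hx j] at h2
  have hB : B.eval (x j) ≠ 0 := by
    intro h0
    rw [rat_coe] at h2
    unfold pt at h2
    rw [if_pos h0] at h2
    exact infty_ne_coe _ h2
  refine ⟨hB, ?_⟩
  rw [rat_coe_of_ne hB] at h2
  exact OnePoint.coe_injective h2

/-- reduction of the number of holes -/
theorem robust_reduce {d i : ℕ} (hd : 2 ≤ d) {P0 Q0 H1 : Polynomial ℂ} (hH0 : H1 ≠ 0)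
    (hH : H1.natDegree ≤ i) (hrob : Robust (d + i) (P0 * H1) (Q0 * H1)) : Robust d P0 Q0 := by
  obtain ⟨ρ1, hρ1, hnear1⟩ := hrob.near
  obtain ⟨r, hr, hmul⟩ := mul_near2 H1 hρ1
  exact ⟨r, hr, fun P Q hPQ hdeg hn =>
    hyp_of_robust i hPQ hdeg hd hH0 hH (hnear1 _ _ (hmul _ _ _ _ hn))⟩

/-- closeness of products with a linear factor -/
theorem lin_near (P0 Q0 : Polynomial ℂ) (x0 : ℂ) {η : ℝ} (hη : 0 < η) :
    ∃ ε : ℝ, 0 < ε ∧ ∀ (P Q : Polynomial ℂ) (b : ℂ), Near ε P Q P0 Q0 → ‖b - x0‖ < ε →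
      Near η (P * (X - C b)) (Q * (X - C b)) (P0 * (X - C x0)) (Q0 * (X - C x0)) := by
  -- bound for the coefficients
  have hbd : ∀ R : Polynomial ℂ, ∃ M : ℝ, 0 ≤ M ∧ ∀ i, ‖R.coeff i‖ ≤ M := by
    intro R
    refine ⟨∑ j ∈ R.support, ‖R.coeff j‖, Finset.sum_nonneg (fun _ _ => norm_nonneg _), fun i => ?_⟩
    by_cases hi : i ∈ R.support
    · exact Finset.single_le_sum (f := fun j => ‖R.coeff j‖) (fun _ _ => norm_nonneg _) hi
    · rw [notMem_support_iff.1 hi, norm_zero]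
      exact Finset.sum_nonneg (fun _ _ => norm_nonneg _)
  obtain ⟨M1, hM1, h1⟩ := hbd P0
  obtain ⟨M2, hM2, h2⟩ := hbd Q0
  set K : ℝ := ‖x0‖ + 3 + M1 + M2 with hK
  have hK0 : 0 < K := by positivity
  refine ⟨min 1 (η / (2 * K)), lt_min one_pos (by positivity), fun P Q b hn hb => ?_⟩
  have hb1 : ‖b‖ ≤ ‖x0‖ + 1 := by
    have := norm_sub_norm_le b x0
    have := hb.trans_le (min_le_left _ _)
    linarith
  set ε : ℝ := min 1 (η / (2 * K)) with hε
  have hε0 : 0 < ε := lt_min one_pos (by positivity)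
  have hεK : ε * K < η := by
    have : ε ≤ η / (2 * K) := min_le_right _ _
    calc ε * K ≤ η / (2 * K) * K := mul_le_mul_of_nonneg_right this hK0.le
      _ = η / 2 := by field_simp
      _ < η := by linarith
  have key : ∀ (R R0 : Polynomial ℂ) (M : ℝ), M ≤ M1 + M2 → (∀ i, ‖R0.coeff i‖ ≤ M) →
      (∀ i, ‖R.coeff i - R0.coeff i‖ < ε) →
      ∀ i, ‖(R * (X - C b)).coeff i - (R0 * (X - C x0)).coeff i‖ < η := by
    intro R R0 M hM hR0 hR i
    have e1 : (R * (X - C b)).coeff i - (R0 * (X - C x0)).coeff i =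
        ((R * X).coeff i - (R0 * X).coeff i) - b * (R.coeff i - R0.coeff i) -
          (b - x0) * R0.coeff i := by
      rw [mul_sub, mul_sub, coeff_sub, coeff_sub, coeff_mul_C, coeff_mul_C]
      ring
    have e2 : ‖(R * X).coeff i - (R0 * X).coeff i‖ ≤ ε := by
      rcases i with _ | i
      · simp [hε0.le]
      · rw [coeff_mul_X, coeff_mul_X]
        exact (hR i).le
    have e3 : ‖b * (R.coeff i - R0.coeff i)‖ ≤ (‖x0‖ + 1) * ε := by
      rw [norm_mul]
      exact mul_le_mul hb1 (hR i).le (norm_nonneg _) (by positivity)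
    have e4 : ‖(b - x0) * R0.coeff i‖ ≤ ε * (M1 + M2) := by
      rw [norm_mul]
      exact mul_le_mul hb.le ((hR0 i).trans hM) (norm_nonneg _) hε0.le
    rw [e1]
    calc _ ≤ ‖(R * X).coeff i - (R0 * X).coeff i - b * (R.coeff i - R0.coeff i)‖ +
          ‖(b - x0) * R0.coeff i‖ := norm_sub_le _ _
      _ ≤ (‖(R * X).coeff i - (R0 * X).coeff i‖ + ‖b * (R.coeff i - R0.coeff i)‖) +
          ‖(b - x0) * R0.coeff i‖ := by gcongr; exact norm_sub_le _ _
      _ ≤ (ε + (‖x0‖ + 1) * ε) + ε * (M1 + M2) := by gcongr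
      _ ≤ ε * K := by rw [hK]; nlinarith
      _ < η := hεK
  exact fun i => ⟨key P P0 M1 (by linarith) h1 (fun j => (hn j).1) i,
    key Q Q0 M2 (by linarith) h2 (fun j => (hn j).2) i⟩

end Pool.Agent.H32.RB
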