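import Pool.Agent.H32.RB.Final

set_option autoImplicit false

open Filter Topology Polynomial OnePoint Metric Set

namespace Pool.Agent.H32.RB

open Pool.Agent.H44.Fatou Pool.Agent.H32.BT

/-- `f` is a continuous extension of `P/Q` to the sphere -/
def IsExt (f : OnePoint ℂ → OnePoint ℂ) (P Q : Polynomial ℂ) : Prop :=
  Continuous f ∧ ∀ z : ℂ, Q.eval z ≠ 0 → f (OnePoint.some z) = OnePoint.some (P.eval z / Q.eval z)

/-- attracted to an attracting cycle, frozen wording -/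
def AttF (f : OnePoint ℂ → OnePoint ℂ) (x : OnePoint ℂ) : Prop :=
  ∃ z : OnePoint ℂ, ∃ n : ℕ, 0 < n ∧ f^[n] z = z ∧
    (∃ U ∈ nhds z, ∀ w ∈ U, Filter.Tendsto (fun k : ℕ => f^[n * k] w) Filter.atTop (nhds z)) ∧
    Filter.Tendsto (fun k : ℕ => f^[n * k] x) Filter.atTop (nhds z)

theorem attF_iff (f : OnePoint ℂ → OnePoint ℂ) (x : OnePoint ℂ) : AttF f x ↔ Att f x := by
  constructor
  · rintro ⟨z, n, h1, h2, h3, h4⟩
    exact ⟨z, n, ⟨h1, h2, h3⟩, h4⟩
  · rintro ⟨z, n, ⟨h1, h2, h3⟩, h4⟩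
    exact ⟨z, n, h1, h2, h3, h4⟩

theorem ext_eq {P Q : Polynomial ℂ} (h : IsCoprime P Q) (hQ : Q ≠ 0)
    {f : OnePoint ℂ → OnePoint ℂ} (hf : IsExt f P Q) : f = rat P Q := by
  obtain ⟨hfc, hfe⟩ := hf
  have hfin : {z : ℂ | Q.eval z = 0}.Finite := by
    refine (Q.roots.toFinset.finite_toSet).subset ?_
    intro z hz
    rw [Finset.mem_coe, Multiset.mem_toFinset, mem_roots hQ]
    exact hz
  have hdense : Dense {z : ℂ | Q.eval z = 0}ᶜ := hfin.countable.dense_compl ℂ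
  have hdense2 : Dense ((fun z : ℂ => (z : OnePoint ℂ)) '' {z : ℂ | Q.eval z = 0}ᶜ) :=
    denseRange_coe.dense_image continuous_coe hdense
  refine Continuous.ext_on hdense2 hfc (rat_continuous h) ?_
  rintro _ ⟨z, hz, rfl⟩
  exact (hfe z hz).trans (rat_coe_of_ne hz).symm

theorem isExt_rat {P Q : Polynomial ℂ} (h : IsCoprime P Q) : IsExt (rat P Q) P Q :=
  ⟨rat_continuous h, fun _ hz => rat_coe_of_ne hz⟩

/-- `Good` in the frozen words -/
theorem good_iff {A B H : Polynomial ℂ} {k : ℕ} (hcop : IsCoprime A B)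
    (hd : 1 ≤ max A.natDegree B.natDegree) :
    Good k A B H ↔ ∃ f : OnePoint ℂ → OnePoint ℂ, IsExt f A B ∧ (∀ c, IsCrit f c → AttF f c) ∧
      ((∀ h : ℂ, H.eval h = 0 → (derivative H).eval h ≠ 0) ∧ k ≤ H.natDegree + 1) ∧
      (∀ x, Hole k H x → AttF f x) ∧
      ∀ (x y : OnePoint ℂ) (n : ℕ), (IsCrit f x ∨ Hole k H x) → Hole k H y → f^[n + 1] x ≠ y := by
  have hB : B ≠ 0 := by
    rintro rfl
    rw [isCoprime_zero_right] at hcop
    have h0 : A.natDegree = 0 := natDegree_eq_zero_of_isUnit hcop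
    rw [h0, natDegree_zero] at hd
    simp at hd
  constructor
  · rintro ⟨h1, h2, h3, h4⟩
    exact ⟨rat A B, isExt_rat hcop, fun c hc => (attF_iff _ _).2 (h1 c hc), h2,
      fun x hx => (attF_iff _ _).2 (h3 x hx), h4⟩
  · rintro ⟨f, hf, h1, h2, h3, h4⟩
    have hfr := ext_eq hcop hB hf
    subst hfr
    exact ⟨fun c hc => (attF_iff _ _).1 (h1 c hc), h2,
      fun x hx => (attF_iff _ _).1 (h3 x hx), h4⟩

/-- **exact characterisation**, frozen words -/
theorem robustH_iff_good {d e : ℕ} (he : 2 ≤ e) (hed : e ≤ d) {A B H : Polynomial ℂ}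
    (hcop : IsCoprime A B) (hdeg : max A.natDegree B.natDegree = e) (hH0 : H ≠ 0)
    (hH : H.natDegree ≤ d - e) :
    RobustH d (A * H) (B * H) ↔
      ∃ f : OnePoint ℂ → OnePoint ℂ, IsExt f A B ∧ (∀ c, IsCrit f c → AttF f c) ∧
      ((∀ h : ℂ, H.eval h = 0 → (derivative H).eval h ≠ 0) ∧ d - e ≤ H.natDegree + 1) ∧
      (∀ x, Hole (d - e) H x → AttF f x) ∧
      ∀ (x y : OnePoint ℂ) (n : ℕ), (IsCrit f x ∨ Hole (d - e) H x) → Hole (d - e) H y →
        f^[n + 1] x ≠ y := by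
  rw [robustH_iff (by omega), ← good_iff hcop (by omega), ← robust_iff_good hcop hdeg he hH0 hH,
    Nat.add_sub_cancel' hed]

end Pool.Agent.H32.RB
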