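import Pool.Agent.H32.RB.Defs

set_option autoImplicit false

open Filter Topology Polynomial OnePoint Metric Set

namespace Pool.Agent.H32.RB

open Pool.Agent.H44.Fatou Pool.Agent.H32.BT

/-
A repelling fixed point is not attracted. Write f = rat P Q, F z = P z / Q z near b (Q b not 0);
F b = b and F has derivative lam = (Wr P Q) b / (Q b)^2 at b, |lam| > 1; so there are r > 0, q > 1
with |F z - b| >= q |z - b| and Q z not 0 for z in ball b r. Suppose Att f b: sink (z, n). Since
f b = b, the sequence f^[n k] b is constant, so z = b and b is a sink: U neighbourhood of b with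
f^[n k] w -> b for w in U. For such w also f^[j] w -> b as j -> infinity (f^[n k + i] w ->
f^[i] b = b for each i < n, by continuity). So from some J on all f^[j] w are (finite and) in
ball b r, and |f^[J+i] w - b| >= q^i |f^[J] w - b| forces f^[J] w = b. Hence U is contained in the
countable set of all w with f^[J] w = b for some J (rat_fiber_finite in BT/Crit.lean, induction),
but U contains the image of a ball of the plane, which is not countable. Alternatively use
sink_mult (BT/Mult.lean) after a chart; or H91 Generic countable_fib.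
-/

/-- near a repelling fixed point the map is expanding -/
theorem rep_expand {P Q : Polynomial ℂ} {b : ℂ} (hfix : P.eval b = b * Q.eval b)
    (hQ : Q.eval b ≠ 0) (hmul : 1 < ‖(Wr P Q).eval b / (Q.eval b) ^ 2‖) :
    ∃ r > 0, ∃ q : ℝ, 1 < q ∧ ∀ z ∈ ball b r, Q.eval z ≠ 0 ∧
      q * ‖z - b‖ ≤ ‖P.eval z / Q.eval z - b‖ := by
  have hd : HasDerivAt (fun z : ℂ => P.eval z / Q.eval z) ((Wr P Q).eval b / (Q.eval b) ^ 2) b := by
    have h1 := (P.hasDerivAt b).div (Q.hasDerivAt b) hQ
    have h2 : (Wr P Q).eval b = (derivative P).eval b * Q.eval b - P.eval b * (derivative Q).eval b := by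
      unfold Wr
      rw [eval_sub, eval_mul, eval_mul]
    rw [h2]
    exact h1
  set lam := (Wr P Q).eval b / (Q.eval b) ^ 2 with hlam
  obtain ⟨q, hq1, hq2⟩ := exists_between hmul
  have hF : P.eval b / Q.eval b = b := by
    rw [hfix, mul_div_assoc, div_self hQ, mul_one]
  have ho := hd.isLittleO.def (sub_pos.2 hq2)
  have hQ' : ∀ᶠ z in 𝓝 b, Q.eval z ≠ 0 := Q.continuous.continuousAt.eventually_ne hQ
  obtain ⟨r, hr, hball⟩ := Metric.mem_nhds_iff.1 (ho.and hQ')
  refine ⟨r, hr, q, hq1, fun z hz => ?_⟩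
  obtain ⟨h1, h2⟩ := hball hz
  refine ⟨h2, ?_⟩
  rw [hF] at h1
  simp only [smul_eq_mul] at h1
  have h3 : ‖lam * (z - b)‖ ≤ ‖P.eval z / Q.eval z - b‖ +
      ‖P.eval z / Q.eval z - b - (z - b) * lam‖ := by
    have : lam * (z - b) = (P.eval z / Q.eval z - b) - (P.eval z / Q.eval z - b - (z - b) * lam) := by
      ring
    rw [this]
    exact norm_sub_le _ _
  rw [norm_mul] at h3
  nlinarith [norm_nonneg (z - b)]

/-- all iterates converge to the fixed point -/
theorem rep_tendsto {f : OnePoint ℂ → OnePoint ℂ} (hf : Continuous f) {z w : OnePoint ℂ}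
    (hz : f z = z) {n : ℕ} (hn : 0 < n)
    (h : Tendsto (fun k : ℕ => f^[n * k] w) atTop (𝓝 z)) {V : Set (OnePoint ℂ)} (hV : V ∈ 𝓝 z) :
    ∃ J, ∀ j ≥ J, f^[j] w ∈ V := by
  have h1 : ∀ i ∈ Finset.range n, ∀ᶠ k : ℕ in atTop, f^[n * k + i] w ∈ V := by
    intro i _
    have h2 : Tendsto (fun k : ℕ => f^[i] (f^[n * k] w)) atTop (𝓝 (f^[i] z)) :=
      ((hf.iterate i).tendsto z).comp h
    rw [Function.iterate_fixed hz] at h2
    filter_upwards [h2 hV] with k hk
    rw [add_comm, Function.iterate_add_apply]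
    exact hk
  have h3 : ∀ᶠ k : ℕ in atTop, ∀ i ∈ Finset.range n, f^[n * k + i] w ∈ V :=
    (Finset.eventually_all _).2 h1
  obtain ⟨K, hK⟩ := eventually_atTop.1 h3
  refine ⟨n * K, fun j hj => ?_⟩
  have h4 : K ≤ j / n := by
    rw [Nat.le_div_iff_mul_le hn, mul_comm]
    exact hj
  have h5 := hK (j / n) h4 (j % n) (Finset.mem_range.2 (Nat.mod_lt _ hn))
  rwa [Nat.div_add_mod] at h5

theorem repelling_not_att {P Q : Polynomial ℂ} (h : IsCoprime P Q)
    (hd : 1 ≤ max P.natDegree Q.natDegree) {b : ℂ} (hfix : P.eval b = b * Q.eval b)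
    (hQ : Q.eval b ≠ 0) (hmul : 1 < ‖(Wr P Q).eval b / (Q.eval b) ^ 2‖) :
    ¬ Att (rat P Q) (b : OnePoint ℂ) := by
  have hcont := rat_continuous h
  have hfb : rat P Q (b : OnePoint ℂ) = (b : OnePoint ℂ) := by
    rw [rat_coe_of_ne hQ, hfix, mul_div_assoc, div_self hQ, mul_one]
  rintro ⟨z, n, ⟨hn, _, U, hU, hUw⟩, ht⟩
  have hzb : z = (b : OnePoint ℂ) := by
    have h1 : Tendsto (fun k : ℕ => (rat P Q)^[n * k] (b : OnePoint ℂ)) atTop
        (𝓝 (b : OnePoint ℂ)) := by
      have : (fun k : ℕ => (rat P Q)^[n * k] (b : OnePoint ℂ)) = fun _ => (b : OnePoint ℂ) := by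
        funext k
        exact Function.iterate_fixed hfb _
      rw [this]
      exact tendsto_const_nhds
    exact tendsto_nhds_unique ht h1
  subst hzb
  obtain ⟨r, hr, q, hq, hexp⟩ := rep_expand hfix hQ hmul
  have hV : ((↑) : ℂ → OnePoint ℂ) '' ball b r ∈ 𝓝 (b : OnePoint ℂ) :=
    OnePoint.isOpenEmbedding_coe.image_mem_nhds.2 (ball_mem_nhds b hr)
  have hsub : U ⊆ ⋃ J : ℕ, {w | (rat P Q)^[J] w = (b : OnePoint ℂ)} := by
    intro w hw
    obtain ⟨J, hJ⟩ := rep_tendsto hcont hfb hn (hUw w hw) hV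
    rw [Set.mem_iUnion]
    refine ⟨J, ?_⟩
    choose x hx hx2 using fun i : ℕ => hJ (J + i) (Nat.le_add_right _ _)
    have hstep : ∀ i, x (i + 1) = P.eval (x i) / Q.eval (x i) := by
      intro i
      have h1 : ((x (i + 1) : ℂ) : OnePoint ℂ) = rat P Q (x i : OnePoint ℂ) := by
        rw [hx2, hx2, ← Function.iterate_succ_apply' (rat P Q)]
        rfl
      rw [rat_coe_of_ne (hexp (x i) (hx i)).1] at h1
      exact OnePoint.coe_injective h1
    have hgrow : ∀ i, q ^ i * ‖x 0 - b‖ ≤ ‖x i - b‖ := by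
      intro i
      induction i with
      | zero => simp
      | succ i ih =>
        have h2 := (hexp (x i) (hx i)).2
        rw [← hstep i] at h2
        calc q ^ (i + 1) * ‖x 0 - b‖ = q * (q ^ i * ‖x 0 - b‖) := by ring
          _ ≤ q * ‖x i - b‖ := mul_le_mul_of_nonneg_left ih (by linarith)
          _ ≤ ‖x (i + 1) - b‖ := h2
    have h0 : x 0 = b := by
      by_contra hne
      have hpos : 0 < ‖x 0 - b‖ := norm_pos_iff.2 (sub_ne_zero.2 hne)
      obtain ⟨i, hi⟩ := pow_unbounded_of_one_lt (r / ‖x 0 - b‖) hq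
      rw [div_lt_iff₀ hpos] at hi
      have h3 := hgrow i
      have h4 := hx i
      rw [mem_ball, dist_eq_norm] at h4
      linarith
    have h5 := hx2 0
    rw [h0] at h5
    exact h5.symm
  have hcount : U.Countable :=
    (Set.countable_iUnion fun J => H91.Fatou.countable_fib h (by unfold dg; omega) J _).mono hsub
  have hU' : ((↑) : ℂ → OnePoint ℂ) ⁻¹' U ∈ 𝓝 b := continuous_coe.continuousAt hU
  obtain ⟨ρ, hρ, hball⟩ := Metric.mem_nhds_iff.1 hU'
  have hbc : (ball b ρ).Countable :=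
    ((hcount.preimage OnePoint.coe_injective)).mono hball
  exact (Metric.measure_ball_pos MeasureTheory.volume b hρ).ne' (hbc.measure_zero _)

end Pool.Agent.H32.RB
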