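import Pool.Agent.H32.RB.HG
import Pool.Agent.H32.BT.Contr

set_option autoImplicit false

open Filter Topology Polynomial OnePoint Metric Set

namespace Pool.Agent.H32.RB

open Pool.Agent.H44.Fatou Pool.Agent.H32.BT

/-
Same as local_contr in Pool/Agent/H32/BT/Contr.lean, for the general family: replace
Pt A B w0 t by P t, B by Q t, hh A B w0 by hg P Q v, e + 1 by D, w0 by v t, and the hypotheses
hspec, hdiff by hg_spec F. (cf D (P t), cf D (Q t)) is continuous at t0: coefficients are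
differentiable on the ball (F.holP, F.holQ).
-/

private theorem contrg_cont {D : ℕ} {P Q : ℂ → Polynomial ℂ} {v : ℂ → ℂ} {δ : ℝ}
    (F : GFam D P Q v δ) {t0 : ℂ} (ht0 : ‖t0‖ < δ) :
    ContinuousAt (fun t : ℂ => (cf D (P t), cf D (Q t))) t0 := by
  have hb : ball (0 : ℂ) δ ∈ 𝓝 t0 := isOpen_ball.mem_nhds (by rwa [mem_ball_zero_iff])
  refine ContinuousAt.prodMk ?_ ?_
  · exact continuousAt_pi.2 fun i => ((F.holP i).differentiableAt hb).continuousAt
  · exact continuousAt_pi.2 fun i => ((F.holQ i).differentiableAt hb).continuousAt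

private theorem contrg_it {D : ℕ} {P Q : ℂ → Polynomial ℂ} {v : ℂ → ℂ} {t : ℂ}
    (hP : (P t).natDegree ≤ D) (hQ : (Q t).natDegree ≤ D) (a : ℕ) :
    ∀ j : ℕ, hg P Q v (a + j) t = it (cf D (P t), cf D (Q t)) j (hg P Q v a t)
  | 0 => rfl
  | j + 1 => by
    have ih := contrg_it (v := v) hP hQ a j
    rw [← Nat.add_assoc]
    simp only [hg, it]
    rw [← ih, ev_cf hP, ev_cf hQ]

theorem contr_gen {D : ℕ} {P Q : ℂ → Polynomial ℂ} {v : ℂ → ℂ} {δ : ℝ} (F : GFam D P Q v δ)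
    (t0 : ℂ) (ht0 : t0 ≠ 0) (ht0' : ‖t0‖ < δ) :
    ∃ (p m : ℕ) (q C η : ℝ), 0 < p ∧ 0 ≤ q ∧ q < 1 ∧ 0 < η ∧ ∀ t ∈ ball t0 η,
      (∀ n, ‖hg P Q v n t‖ ≤ C) ∧
      ∀ i k : ℕ, ‖hg P Q v (m + i + p * (k + 1)) t - hg P Q v (m + i + p * k) t‖ ≤ C * q ^ k := by
  have hspec := (hg_spec F).1
  have hdiff := (hg_spec F).2
  have hD1 : 1 ≤ D := by
    have h0 : ‖(0 : ℂ)‖ < δ := by rw [norm_zero]; exact F.hδ
    exact F.one_le.trans (max_le (F.degP 0 h0) (F.degQ 0 h0))
  have hc0 := F.cop t0 ht0'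
  have hd0 := F.max_eq t0 ht0 ht0'
  have hinf := F.inf t0 ht0 ht0'
  obtain ⟨z, n0, hsink, htend⟩ := F.att t0 ht0 ht0'
  -- the sink is finite
  obtain ⟨z', rfl⟩ : ∃ z' : ℂ, z = (z' : OnePoint ℂ) := by
    induction z using OnePoint.rec with
    | infty => exact absurd (att_sink hsink) hinf
    | coe z' => exact ⟨z', rfl⟩
  obtain ⟨x, hx0, hxj, hQx, hPx, hxn, hmul⟩ := sink_mult hc0 (by omega) hinf hsink
  have hPd : (P t0).natDegree ≤ D := by
    rw [← hd0]
    exact le_max_left _ _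
  have hBd : (Q t0).natDegree ≤ D := by
    rw [← hd0]
    exact le_max_right _ _
  have hn0 : 0 < n0 := hsink.1
  obtain ⟨r, q, L, hr, hq0, hq1, hL, -, hev⟩ :=
    trap_per (cf D (P t0), cf D (Q t0)) x n0 hn0 hxn
      (fun j _ => by
        show ev (cf D (Q t0)) (x j) ≠ 0
        rw [ev_cf hBd]
        exact hQx j)
      (fun j _ => by
        show ev (cf D (P t0)) (x j) / ev (cf D (Q t0)) (x j) = x (j + 1)
        rw [ev_cf hBd, ev_cf hPd]
        exact hPx j)
      (by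
        have h1 : ∏ j ∈ Finset.range n0, wv (cf D (P t0), cf D (Q t0)) (x j) /
            ev (cf D (P t0), cf D (Q t0)).2 (x j) ^ 2 =
            ∏ j ∈ Finset.range n0, (Wr (P t0) (Q t0)).eval (x j) / ((Q t0).eval (x j)) ^ 2 := by
          refine Finset.prod_congr rfl fun j _ => ?_
          rw [wv_cf hPd hBd]
          show _ / ev (cf D (Q t0)) (x j) ^ 2 = _
          rw [ev_cf hBd]
        rw [h1]
        exact hmul)
      Set.univ Filter.univ_mem
  rw [hx0] at hev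
  have hev2 := (contrg_cont F ht0').eventually hev
  -- entry into the trap
  have hball : (fun z : ℂ => (z : OnePoint ℂ)) '' ball z' r ∈ 𝓝 (z' : OnePoint ℂ) :=
    (OnePoint.isOpenEmbedding_coe.isOpenMap _ isOpen_ball).mem_nhds ⟨z', mem_ball_self hr, rfl⟩
  obtain ⟨K, hK⟩ := (htend.eventually hball).exists
  set m := n0 * K with hm
  have hmt0 : hg P Q v m t0 ∈ ball z' r := by
    obtain ⟨y, hy, hy2⟩ := hK
    rw [(hspec t0 ht0' m).2] at hy2
    have h3 : y = hg P Q v m t0 := OnePoint.coe_injective hy2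
    rw [← h3]
    exact hy
  have ht0b : ball (0 : ℂ) δ ∈ 𝓝 t0 := isOpen_ball.mem_nhds (by rwa [mem_ball_zero_iff])
  have hcont : ∀ n, ContinuousAt (hg P Q v n) t0 := fun n =>
    ((hdiff n).differentiableAt ht0b).continuousAt
  have hev3 : ∀ᶠ t in 𝓝 t0, hg P Q v m t ∈ ball z' r :=
    (hcont m).eventually (isOpen_ball.mem_nhds hmt0)
  have hev4 : ∀ᶠ t in 𝓝 t0, ∀ n ∈ Finset.range m, ‖hg P Q v n t‖ < ‖hg P Q v n t0‖ + 1 := by
    rw [Filter.eventually_all_finset]
    intro n _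
    exact (hcont n).norm.eventually (gt_mem_nhds (lt_add_one _))
  have hev5 : ∀ᶠ t in 𝓝 t0, t ≠ 0 := eventually_ne_nhds ht0
  have hev6 : ∀ᶠ t in 𝓝 t0, t ∈ ball (0 : ℂ) δ := ht0b
  obtain ⟨η, hη, hηball⟩ := Metric.eventually_nhds_iff_ball.1
    (hev2.and (hev3.and (hev4.and (hev5.and hev6))))
  set S : ℝ := ∑ n ∈ Finset.range m, (‖hg P Q v n t0‖ + 1) with hS
  have hS0 : 0 ≤ S := by positivity
  have hLr0 : 0 ≤ L * (2 * r) := by positivity
  have hC1 : L * (2 * r) ≤ L + L * (2 * r) + S := by linarith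
  have hC2 : L ≤ L + L * (2 * r) + S := by linarith
  have hC3 : S ≤ L + L * (2 * r) + S := by linarith
  refine ⟨n0, m, q, L + L * (2 * r) + S, η, hn0, hq0, hq1, hη, ?_⟩
  intro t ht
  obtain ⟨g1, g2, g3, g4, g5⟩ := hηball t ht
  rw [mem_ball_zero_iff] at g5
  have hPd1 : (P t).natDegree ≤ D := F.degP t g5
  have hBd1 : (Q t).natDegree ≤ D := F.degQ t g5
  have hit := contrg_it (v := v) hPd1 hBd1
  have hin : ∀ k : ℕ, hg P Q v (m + n0 * k) t ∈ closedBall z' r := by
    intro k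
    induction k with
    | zero =>
      rw [Nat.mul_zero, Nat.add_zero]
      exact ball_subset_closedBall g2
    | succ k ih =>
      rw [Nat.mul_succ, ← Nat.add_assoc, hit]
      exact ball_subset_closedBall (g1 _ ih).2.1
  have hD : ∀ k : ℕ, ‖hg P Q v (m + n0 * (k + 1)) t - hg P Q v (m + n0 * k) t‖ ≤
      q ^ k * (2 * r) := by
    intro k
    induction k with
    | zero =>
      have h1 := hin 1
      have h2 := hin 0
      rw [mem_closedBall, dist_eq_norm] at h1 h2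
      rw [pow_zero, one_mul]
      calc ‖hg P Q v (m + n0 * (0 + 1)) t - hg P Q v (m + n0 * 0) t‖
          = ‖(hg P Q v (m + n0 * 1) t - z') - (hg P Q v (m + n0 * 0) t - z')‖ := by
            rw [sub_sub_sub_cancel_right]
        _ ≤ ‖hg P Q v (m + n0 * 1) t - z'‖ + ‖hg P Q v (m + n0 * 0) t - z'‖ := norm_sub_le _ _
        _ ≤ 2 * r := by linarith
    | succ k ih =>
      have e1 : hg P Q v (m + n0 * (k + 1 + 1)) t =
          it (cf D (P t), cf D (Q t)) n0 (hg P Q v (m + n0 * (k + 1)) t) := by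
        rw [Nat.mul_succ n0 (k + 1), ← Nat.add_assoc, hit]
      have e2 : hg P Q v (m + n0 * (k + 1)) t =
          it (cf D (P t), cf D (Q t)) n0 (hg P Q v (m + n0 * k) t) := by
        rw [Nat.mul_succ n0 k, ← Nat.add_assoc, hit]
      calc ‖hg P Q v (m + n0 * (k + 1 + 1)) t - hg P Q v (m + n0 * (k + 1)) t‖
          = ‖it (cf D (P t), cf D (Q t)) n0 (hg P Q v (m + n0 * (k + 1)) t) -
              it (cf D (P t), cf D (Q t)) n0 (hg P Q v (m + n0 * k) t)‖ := by
            rw [e1, ← e2]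
        _ ≤ q * ‖hg P Q v (m + n0 * (k + 1)) t - hg P Q v (m + n0 * k) t‖ :=
            ((g1 _ (hin (k + 1))).2.2.2 _ (hin k)).1
        _ ≤ q * (q ^ k * (2 * r)) := mul_le_mul_of_nonneg_left ih hq0
        _ = q ^ (k + 1) * (2 * r) := by ring
  refine ⟨?_, ?_⟩
  · intro n
    rcases lt_or_ge n m with hnm | hnm
    · have h1 := g3 n (Finset.mem_range.2 hnm)
      have h2 : ‖hg P Q v n t0‖ + 1 ≤ S :=
        Finset.single_le_sum (f := fun n => ‖hg P Q v n t0‖ + 1) (fun i _ => by positivity)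
          (Finset.mem_range.2 hnm)
      exact ((h1.le.trans h2).trans hC3)
    · have h1 : n = m + n0 * ((n - m) / n0) + (n - m) % n0 := by
        have := Nat.div_add_mod (n - m) n0
        omega
      have h2 : (n - m) % n0 ≤ n0 := (Nat.mod_lt _ hn0).le
      rw [h1, hit]
      have h3 := (g1 _ (hin ((n - m) / n0))).2.2.1 _ h2
      exact h3.trans hC2
  · intro i k
    have h2 : i % n0 ≤ n0 := (Nat.mod_lt _ hn0).le
    have hi := Nat.div_add_mod i n0
    have e1 : m + i + n0 * (k + 1) = m + n0 * (i / n0 + k + 1) + i % n0 := by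
      have : n0 * (i / n0 + k + 1) = n0 * (i / n0) + n0 * (k + 1) := by ring
      omega
    have e2 : m + i + n0 * k = m + n0 * (i / n0 + k) + i % n0 := by
      have : n0 * (i / n0 + k) = n0 * (i / n0) + n0 * k := by ring
      omega
    rw [e1, e2, hit (m + n0 * (i / n0 + k + 1)) (i % n0), hit (m + n0 * (i / n0 + k)) (i % n0)]
    have h3 := ((g1 _ (hin (i / n0 + k + 1))).2.2.2 _ (hin (i / n0 + k))).2 _ h2
    have h4 : q ^ (i / n0 + k) ≤ q ^ k := pow_le_pow_of_le_one hq0 hq1.le (Nat.le_add_left _ _)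
    calc _ ≤ L * ‖hg P Q v (m + n0 * (i / n0 + k + 1)) t - hg P Q v (m + n0 * (i / n0 + k)) t‖ := h3
      _ ≤ L * (q ^ (i / n0 + k) * (2 * r)) := mul_le_mul_of_nonneg_left (hD _) hL
      _ ≤ L * (q ^ k * (2 * r)) := by
          refine mul_le_mul_of_nonneg_left ?_ hL
          exact mul_le_mul_of_nonneg_right h4 (by positivity)
      _ = L * (2 * r) * q ^ k := by ring
      _ ≤ (L + L * (2 * r) + S) * q ^ k := mul_le_mul_of_nonneg_right hC1 (pow_nonneg hq0 k)

end Pool.Agent.H32.RB
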