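import Pool.Agent.H32.BT.Bdry

set_option autoImplicit false

open Filter Topology Polynomial OnePoint Metric Set

namespace Pool.Agent.H32.RB

open Pool.Agent.H44.Fatou Pool.Agent.H32.BT

/-- the orbit of `v t` under `P t / Q t` in the finite chart, as a function of the parameter -/
noncomputable def hg (P Q : ℂ → Polynomial ℂ) (v : ℂ → ℂ) : ℕ → ℂ → ℂ
  | 0, t => v t
  | n + 1, t => (P t).eval (hg P Q v n t) / (Q t).eval (hg P Q v n t)

/-- A holomorphic family `P t / Q t` of rational maps, of degree `D` for `t ≠ 0` (the degree may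
drop at `t = 0`), with a marked point `v t` attracted for `t ≠ 0`, infinity not attracted for
`t ≠ 0`, and the orbit of `v 0` finite for `t = 0`. -/
structure GFam (D : ℕ) (P Q : ℂ → Polynomial ℂ) (v : ℂ → ℂ) (δ : ℝ) : Prop where
  hδ : 0 < δ
  cop : ∀ t : ℂ, ‖t‖ < δ → IsCoprime (P t) (Q t)
  degP : ∀ t : ℂ, ‖t‖ < δ → (P t).natDegree ≤ D
  degQ : ∀ t : ℂ, ‖t‖ < δ → (Q t).natDegree ≤ D
  holP : ∀ i : ℕ, DifferentiableOn ℂ (fun t => (P t).coeff i) (ball 0 δ)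
  holQ : ∀ i : ℕ, DifferentiableOn ℂ (fun t => (Q t).coeff i) (ball 0 δ)
  holv : DifferentiableOn ℂ v (ball 0 δ)
  max_eq : ∀ t : ℂ, t ≠ 0 → ‖t‖ < δ → max (P t).natDegree (Q t).natDegree = D
  inf : ∀ t : ℂ, t ≠ 0 → ‖t‖ < δ → ¬ Att (rat (P t) (Q t)) ∞
  att : ∀ t : ℂ, t ≠ 0 → ‖t‖ < δ → Att (rat (P t) (Q t)) (v t : OnePoint ℂ)
  fin : ∀ n : ℕ, ∃ y : ℂ, (rat (P 0) (Q 0))^[n] (v 0 : OnePoint ℂ) = (y : OnePoint ℂ)
  one_le : 1 ≤ max (P 0).natDegree (Q 0).natDegree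

theorem GFam.mono {D : ℕ} {P Q : ℂ → Polynomial ℂ} {v : ℂ → ℂ} {δ δ' : ℝ} (F : GFam D P Q v δ)
    (h0 : 0 < δ') (h : δ' ≤ δ) : GFam D P Q v δ' where
  hδ := h0
  cop t ht := F.cop t (ht.trans_le h)
  degP t ht := F.degP t (ht.trans_le h)
  degQ t ht := F.degQ t (ht.trans_le h)
  holP i := (F.holP i).mono (ball_subset_ball h)
  holQ i := (F.holQ i).mono (ball_subset_ball h)
  holv := F.holv.mono (ball_subset_ball h)
  max_eq t h0 ht := F.max_eq t h0 (ht.trans_le h)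
  inf t h0 ht := F.inf t h0 (ht.trans_le h)
  att t h0 ht := F.att t h0 (ht.trans_le h)
  fin := F.fin
  one_le := F.one_le

/-- `x` is a hole of the degenerate pair `(A H, B H)`: a root of `H`, or infinity if the degree of
`H` is less than `k`. -/
def Hole (k : ℕ) (H : Polynomial ℂ) (x : OnePoint ℂ) : Prop :=
  (∃ h : ℂ, x = (h : OnePoint ℂ) ∧ H.eval h = 0) ∨ (x = ∞ ∧ H.natDegree < k)

/-- the conditions which characterise robustness of `(A H, B H)` -/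
def Good (k : ℕ) (A B H : Polynomial ℂ) : Prop :=
  HypMap (rat A B) ∧
  ((∀ h : ℂ, H.eval h = 0 → (derivative H).eval h ≠ 0) ∧ k ≤ H.natDegree + 1) ∧
  (∀ x, Hole k H x → Att (rat A B) x) ∧
  ∀ (x y : OnePoint ℂ) (n : ℕ), (IsCrit (rat A B) x ∨ Hole k H x) → Hole k H y →
    (rat A B)^[n + 1] x ≠ y

end Pool.Agent.H32.RB
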