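import Pool.Agent.H32.RB.Defs

set_option autoImplicit false

open Filter Topology Polynomial OnePoint Metric Set

namespace Pool.Agent.H32.RB

open Pool.Agent.H44.Fatou Pool.Agent.H32.BT

/-
Put G = reflect k (H.comp (X + C s)) and K = H.comp (X + C s), K.natDegree = H.natDegree <= k.
Facts: for y not 0, G y = y^k * H (s + 1/y) (eval_reflect in H44/Fatou/Basic.lean, see reflect_root in BT/Fwd.lean);
G.coeff j = K.coeff (k - j) for j <= k (coeff_reflect, revAt_le); G 0 = K.coeff k, and this is 0 iff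
H.natDegree < k; G.coeff k = K 0 = H s; G.coeff (k-1) = K.coeff 1 = (derivative H) s;
(derivative G) 0 = G.coeff 1 = K.coeff (k-1). G.natDegree <= k (natDegree_reflect_le').
-/

theorem reflect_ne_zero {H : Polynomial ℂ} (hH0 : H ≠ 0) (k : ℕ) (s : ℂ) :
    reflect k (H.comp (X + C s)) ≠ 0 := by
  intro h
  apply hH0
  have h1 : H.comp (X + C s) = 0 := by
    have h2 := congrArg (reflect k) h
    rw [reflect_reflect, reflect_zero] at h2
    exact h2
  rw [← comp_shift_pos s H, h1, zero_comp]

private theorem hole_coe {k : ℕ} {H : Polynomial ℂ} {z : ℂ} :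
    Hole k H (z : OnePoint ℂ) ↔ H.eval z = 0 := by
  constructor
  · rintro (⟨h, h1, h2⟩ | ⟨h1, -⟩)
    · rw [OnePoint.coe_injective h1]
      exact h2
    · exact absurd h1 (OnePoint.coe_ne_infty z)
  · intro h
    exact Or.inl ⟨z, rfl, h⟩

private theorem hole_inf {k : ℕ} {H : Polynomial ℂ} :
    Hole k H ∞ ↔ H.natDegree < k := by
  constructor
  · rintro (⟨h, h1, h2⟩ | ⟨-, h1⟩)
    · exact absurd h1.symm (OnePoint.coe_ne_infty h)
    · exact h1
  · intro h
    exact Or.inr ⟨rfl, h⟩

private theorem deg_lt_iff {P : Polynomial ℂ} {k : ℕ} (hP0 : P ≠ 0) (hP : P.natDegree ≤ k) :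
    P.natDegree < k ↔ P.coeff k = 0 := by
  constructor
  · exact coeff_eq_zero_of_natDegree_lt
  · intro h
    rcases hP.lt_or_eq with h1 | h1
    · exact h1
    · exfalso
      rw [← h1] at h
      exact hP0 (leadingCoeff_eq_zero.1 h)

theorem hole_cj {H : Polynomial ℂ} {k : ℕ} (hH0 : H ≠ 0) (hH : H.natDegree ≤ k) {s : ℂ}
    (φ : OnePoint ℂ ≃ₜ OnePoint ℂ) (hφs : φ s = ∞)
    (hφ : ∀ z : ℂ, z ≠ s → φ (z : OnePoint ℂ) = (((z - s)⁻¹ : ℂ) : OnePoint ℂ))
    (hφi : φ ∞ = ((0 : ℂ) : OnePoint ℂ)) (x : OnePoint ℂ) :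
    Hole k (reflect k (H.comp (X + C s))) (φ x) ↔ Hole k H x := by
  induction x using OnePoint.rec with
  | infty =>
    rw [hφi, hole_coe, hole_inf, eval_reflect_zero, mob_coeff_comp s hH, deg_lt_iff hH0 hH]
  | coe z =>
    by_cases hz : z = s
    · subst hz
      rw [hφs, hole_coe, hole_inf,
        deg_lt_iff (reflect_ne_zero hH0 k z) (natDegree_reflect_le' (mob_deg1 z hH)),
        mob_coeff_top]
    · rw [hφ z hz, hole_coe, hole_coe, mob_eval s hH hz]
      have h1 : (z - s) ^ k ≠ 0 := pow_ne_zero k (sub_ne_zero.2 hz)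
      constructor
      · intro h
        rw [h, zero_mul]
      · intro h
        exact (mul_eq_zero.1 h).resolve_right h1

private theorem refl_double {P : Polynomial ℂ} {k : ℕ} (hP : P.natDegree ≤ k) {z : ℂ} (hz : z ≠ 0)
    (h1 : (reflect k P).eval z⁻¹ = 0) (h2 : (derivative (reflect k P)).eval z⁻¹ = 0) :
    P.eval z = 0 ∧ (derivative P).eval z = 0 := by
  have e0 : P.eval z = (reflect k P).eval z⁻¹ * z ^ k := eval_reflect hP hz
  constructor
  · rw [e0, h1, zero_mul]
  · have h3 : ∀ᶠ u in 𝓝 z, P.eval u = (reflect k P).eval (u⁻¹) * u ^ k := by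
      have : ∀ᶠ u in 𝓝 z, u ≠ 0 := isOpen_ne.mem_nhds hz
      filter_upwards [this] with u hu
      exact eval_reflect hP hu
    have d1 : HasDerivAt (fun u => P.eval u) ((derivative P).eval z) z := P.hasDerivAt z
    have d2 : HasDerivAt (fun u : ℂ => u⁻¹) (-1 / z ^ 2) z := by
      have := (hasDerivAt_id z).inv hz
      exact this
    have d3 : HasDerivAt (fun u => (reflect k P).eval (u⁻¹))
        ((derivative (reflect k P)).eval (z⁻¹) * (-1 / z ^ 2)) z := by
      have := ((reflect k P).hasDerivAt (z⁻¹)).comp z d2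
      exact this
    have d4 : HasDerivAt (fun u : ℂ => u ^ k) (k * z ^ (k - 1)) z := hasDerivAt_pow k z
    have d5 := d3.mul d4
    have d6 : HasDerivAt (fun u => P.eval u) _ z := d5.congr_of_eventuallyEq h3
    have := d1.unique d6
    rw [this, h1, h2]
    simp

private theorem simple_one {K : Polynomial ℂ} {k : ℕ} (hK0 : K ≠ 0) (hK : K.natDegree ≤ k)
    (h : (∀ h : ℂ, K.eval h = 0 → (derivative K).eval h ≠ 0) ∧ k ≤ K.natDegree + 1) :
    (∀ h : ℂ, (reflect k K).eval h = 0 → (derivative (reflect k K)).eval h ≠ 0) ∧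
      k ≤ (reflect k K).natDegree + 1 := by
  obtain ⟨hs, hk⟩ := h
  constructor
  · intro y hy
    by_cases hy0 : y = 0
    · subst hy0
      rw [eval_reflect_zero] at hy
      have h1 : K.natDegree < k := (deg_lt_iff hK0 hK).2 hy
      have h2 : K.natDegree = k - 1 := by omega
      rw [← coeff_zero_eq_eval_zero, coeff_derivative, coeff_reflect, zero_add,
        revAt_le (by omega : 1 ≤ k), ← h2]
      have h3 : K.coeff K.natDegree ≠ 0 := leadingCoeff_ne_zero.2 hK0
      simpa using h3
    · intro hd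
      have h1 : (reflect k K).eval (y⁻¹)⁻¹ = 0 := by rw [inv_inv]; exact hy
      have h2 : (derivative (reflect k K)).eval (y⁻¹)⁻¹ = 0 := by rw [inv_inv]; exact hd
      obtain ⟨h3, h4⟩ := refl_double hK (inv_ne_zero hy0) h1 h2
      exact hs _ h3 h4
  · by_cases h0 : K.eval 0 = 0
    · have h1 := hs 0 h0
      rw [← coeff_zero_eq_eval_zero, coeff_derivative, zero_add] at h1
      have h2 : K.coeff 1 ≠ 0 := by
        intro h3
        rw [h3] at h1
        simp at h1
      have h3 : 1 ≤ k := (le_natDegree_of_ne_zero h2).trans hK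
      have h4 : (reflect k K).coeff (k - 1) ≠ 0 := by
        rw [coeff_reflect, revAt_le (by omega : k - 1 ≤ k)]
        have : k - (k - 1) = 1 := by omega
        rw [this]
        exact h2
      have h5 := le_natDegree_of_ne_zero h4
      omega
    · have h4 : (reflect k K).coeff k ≠ 0 := by
        rw [coeff_reflect, revAt_le le_rfl, Nat.sub_self, coeff_zero_eq_eval_zero]
        exact h0
      have h5 := le_natDegree_of_ne_zero h4
      omega

theorem simple_cj {H : Polynomial ℂ} {k : ℕ} (hH0 : H ≠ 0) (hH : H.natDegree ≤ k) (s : ℂ) :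
    ((∀ h : ℂ, (reflect k (H.comp (X + C s))).eval h = 0 →
        (derivative (reflect k (H.comp (X + C s)))).eval h ≠ 0) ∧
      k ≤ (reflect k (H.comp (X + C s))).natDegree + 1) ↔
    ((∀ h : ℂ, H.eval h = 0 → (derivative H).eval h ≠ 0) ∧ k ≤ H.natDegree + 1) := by
  have hK : (H.comp (X + C s)).natDegree ≤ k := mob_deg1 s hH
  have hK0 : H.comp (X + C s) ≠ 0 := by
    intro h
    apply hH0
    rw [← comp_shift_pos s H, h, zero_comp]
  have hGle : (reflect k (H.comp (X + C s))).natDegree ≤ k := natDegree_reflect_le' hK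
  have key : ((∀ h : ℂ, (H.comp (X + C s)).eval h = 0 →
        (derivative (H.comp (X + C s))).eval h ≠ 0) ∧
      k ≤ (H.comp (X + C s)).natDegree + 1) ↔
    ((∀ h : ℂ, H.eval h = 0 → (derivative H).eval h ≠ 0) ∧ k ≤ H.natDegree + 1) := by
    rw [natDegree_comp, natDegree_X_add_C, mul_one]
    have e1 : ∀ u : ℂ, (H.comp (X + C s)).eval u = H.eval (u + s) := by
      intro u
      simp
    have e2 : ∀ u : ℂ, (derivative (H.comp (X + C s))).eval u = (derivative H).eval (u + s) := by
      intro u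
      simp [derivative_comp]
    refine and_congr_left fun _ => ?_
    constructor
    · intro h z hz
      have h1 := h (z - s)
      rw [e1, e2, sub_add_cancel] at h1
      exact h1 hz
    · intro h u hu
      rw [e1] at hu
      rw [e2]
      exact h _ hu
  rw [← key]
  constructor
  · intro h
    have h1 := simple_one (reflect_ne_zero hH0 k s) hGle h
    rw [reflect_reflect] at h1
    exact h1
  · intro h
    exact simple_one hK0 hK h

end Pool.Agent.H32.RB
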