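import Pool.Agent.H32.RB.Wrap
import Pool.Agent.H32.RB.HoleCj
import Pool.Agent.H32.RB.SuffChart
import Pool.Agent.H32.BT.NotAtt
import Pool.Agent.H32.BT.Main

set_option autoImplicit false

open Filter Topology Polynomial OnePoint Metric Set

namespace Pool.Agent.H32.RB

open Pool.Agent.H44.Fatou Pool.Agent.H32.BT

/-- `Good` is invariant under the chart -/
theorem good_cj {A B H : Polynomial ℂ} {e k : ℕ} (hcop : IsCoprime A B)
    (he : max A.natDegree B.natDegree = e) (he1 : 1 ≤ e) (hH0 : H ≠ 0) (hH : H.natDegree ≤ k)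
    (s : ℂ) :
    Good k (cj1 s e A B) (cj2 s e A B) (reflect k (H.comp (X + C s))) ↔ Good k A B H := by
  obtain ⟨φ, hφs, hφ1, hφi, hcop', hdeg', hconj, -⟩ := chart_at hcop he he1 s
  have hhole := hole_cj hH0 hH φ hφs hφ1 hφi
  unfold Good
  rw [hypMap_conj φ hconj, simple_cj hH0 hH s]
  refine and_congr_right fun _ => and_congr_right fun _ => and_congr ?_ ?_
  · constructor
    · intro h x hx
      exact (att_conj φ hconj x).1 (h _ ((hhole x).2 hx))
    · intro h y hy
      obtain ⟨x, rfl⟩ := φ.surjective y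
      exact (att_conj φ hconj x).2 (h x ((hhole x).1 hy))
  · constructor
    · intro h x y n hx hy hxy
      refine h (φ x) (φ y) n ?_ ((hhole y).2 hy) ?_
      · rcases hx with hx | hx
        · exact Or.inl ((isCrit_conj φ hconj x).2 hx)
        · exact Or.inr ((hhole x).2 hx)
      · rw [iter_conj φ hconj, hxy]
    · intro h x' y' n hx hy hxy
      obtain ⟨x, rfl⟩ := φ.surjective x'
      obtain ⟨y, rfl⟩ := φ.surjective y'
      refine h x y n ?_ ((hhole y).1 hy) ?_
      · rcases hx with hx | hx
        · exact Or.inl ((isCrit_conj φ hconj x).1 hx)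
        · exact Or.inr ((hhole x).1 hx)
      · rw [iter_conj φ hconj] at hxy
        exact φ.injective hxy

/-- sufficiency -/
theorem robust_of_good' {A B H : Polynomial ℂ} {e k : ℕ} (hcop : IsCoprime A B)
    (he : max A.natDegree B.natDegree = e) (he1 : 1 ≤ e) (hex : ∃ y, ¬ Att (rat A B) y)
    (hH0 : H ≠ 0) (hH : H.natDegree ≤ k)
    (hg : Good k A B H) : Robust (e + k) (A * H) (B * H) := by
  -- the case where infinity is not attracted
  have key : ∀ A B H : Polynomial ℂ, IsCoprime A B → max A.natDegree B.natDegree = e → H ≠ 0 →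
      H.natDegree ≤ k → Good k A B H → ¬ Att (rat A B) ∞ → Robust (e + k) (A * H) (B * H) := by
    intro A B H hcop he hH0 hH hg hinf
    obtain ⟨h1, ⟨h2, -⟩, h3, h4⟩ := hg
    have hHk : H.natDegree = k := by
      by_contra h
      exact hinf (h3 ∞ (Or.inr ⟨rfl, by omega⟩))
    refine robust_chart' hcop he (by omega) hH0 hHk h2 hinf h1 ?_ ?_ ?_
    · intro h hh
      exact h3 _ (Or.inl ⟨h, rfl, hh⟩)
    · intro c n h hc hh
      exact h4 c h n (Or.inl hc) (Or.inl ⟨h, rfl, hh⟩)
    · intro h h' n hh hh'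
      exact h4 h h' n (Or.inr (Or.inl ⟨h, rfl, hh⟩)) (Or.inl ⟨h', rfl, hh'⟩)
  obtain ⟨y, hy⟩ := hex
  induction y using OnePoint.rec with
  | infty => exact key A B H hcop he hH0 hH hg hy
  | coe s =>
    obtain ⟨hA, hB⟩ := natDegree_le_of_max he
    obtain ⟨φ, hφs, hφ1, hφi, hcop', hdeg', hconj, -⟩ := chart_at hcop he (by omega) s
    rw [← robust_transport hA hB (by omega) s k H hH]
    refine key _ _ _ hcop' hdeg' (reflect_ne_zero hH0 k s) (natDegree_reflect_le' ?_)
      ((good_cj hcop he (by omega) hH0 hH s).2 hg) ?_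
    · rw [natDegree_comp, natDegree_X_add_C, mul_one]
      exact hH
    · rw [← hφs, att_conj φ hconj]
      exact hy

theorem robust_of_good {A B H : Polynomial ℂ} {e k : ℕ} (hcop : IsCoprime A B)
    (he : max A.natDegree B.natDegree = e) (he2 : 2 ≤ e) (hH0 : H ≠ 0) (hH : H.natDegree ≤ k)
    (hg : Good k A B H) : Robust (e + k) (A * H) (B * H) :=
  robust_of_good' hcop he (by omega) (exists_not_att hcop (by omega)) hH0 hH hg

/-- necessity -/
theorem good_of_robust {A B H : Polynomial ℂ} {e k : ℕ} (hcop : IsCoprime A B)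
    (he : max A.natDegree B.natDegree = e) (he2 : 2 ≤ e) (hH0 : H ≠ 0) (hH : H.natDegree ≤ k)
    (hrob : Robust (e + k) (A * H) (B * H)) : Good k A B H := by
  -- the case where infinity is not a hole
  have key : ∀ A B H : Polynomial ℂ, IsCoprime A B → max A.natDegree B.natDegree = e → H ≠ 0 →
      H.natDegree = k → Robust (e + k) (A * H) (B * H) → Good k A B H := by
    intro A B H hcop he hH0 hHk hrob
    have h1 := hyp_of_robust k hcop he he2 hH0 hHk.le hrob
    -- one hole
    have one : ∀ b : ℂ, H.eval b = 0 → Robust (e + 1) (A * (X - C b)) (B * (X - C b)) := by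
      intro b hb
      obtain ⟨H1, rfl⟩ := dvd_iff_isRoot.2 hb
      have hH1 : H1 ≠ 0 := right_ne_zero_of_mul hH0
      have hd : H1.natDegree + 1 = k := by
        rw [natDegree_mul (X_sub_C_ne_zero b) hH1, natDegree_X_sub_C] at hHk
        omega
      apply robust_reduce (i := H1.natDegree) (by omega) hH1 le_rfl
      rw [mul_assoc, mul_assoc, show e + 1 + H1.natDegree = e + k by omega]
      exact hrob
    -- two holes
    have two : ∀ (b b' : ℂ) (H2 : Polynomial ℂ), H = (X - C b) * ((X - C b') * H2) →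
        ∀ n : ℕ, (rat A B)^[n] (b : OnePoint ℂ) ≠ b' := by
      intro b b' H2 hH2
      have hH20 : H2 ≠ 0 := by
        rintro rfl
        rw [mul_zero, mul_zero] at hH2
        exact hH0 hH2
      have hd : H2.natDegree + 2 = k := by
        rw [hH2, natDegree_mul (X_sub_C_ne_zero b) (mul_ne_zero (X_sub_C_ne_zero b') hH20),
          natDegree_mul (X_sub_C_ne_zero b') hH20, natDegree_X_sub_C, natDegree_X_sub_C] at hHk
        omega
      apply two_of_robust hcop he he2
      apply robust_reduce (i := H2.natDegree) (by omega) hH20 le_rfl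
      have e1 : A * ((X - C b) * (X - C b')) * H2 = A * H := by rw [hH2]; ring
      have e2 : B * ((X - C b) * (X - C b')) * H2 = B * H := by rw [hH2]; ring
      rw [e1, e2, show e + 2 + H2.natDegree = e + k by omega]
      exact hrob
    have hfinite : ∀ x, Hole k H x → ∃ h : ℂ, x = (h : OnePoint ℂ) ∧ H.eval h = 0 := by
      rintro x (hx | ⟨-, hx⟩)
      · exact hx
      · omega
    refine ⟨h1, ⟨?_, by omega⟩, ?_, ?_⟩
    · intro h hh hder
      obtain ⟨H1, hH1⟩ := dvd_iff_isRoot.2 hh
      have hH1h : H1.eval h = 0 := by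
        rw [hH1, derivative_mul] at hder
        simpa using hder
      obtain ⟨H2, hH2⟩ := dvd_iff_isRoot.2 hH1h
      exact two h h H2 (by rw [hH1, hH2]) 0 rfl
    · intro x hx
      obtain ⟨h, rfl, hh⟩ := hfinite x hx
      exact att_of_robust hcop he he2 (one h hh)
    · intro x y n hx hy
      obtain ⟨h', rfl, hh'⟩ := hfinite y hy
      rcases hx with hx | hx
      · exact crit_of_robust hcop he he2 (one h' hh') hx n
      · obtain ⟨h, rfl, hh⟩ := hfinite x hx
        by_cases hne : h = h'
        · subst hne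
          exact per_of_robust hcop he he2 (one h hh) n
        · obtain ⟨H1, hH1⟩ := dvd_iff_isRoot.2 hh
          have hH1h : H1.eval h' = 0 := by
            rw [hH1, eval_mul, eval_sub, eval_X, eval_C, mul_eq_zero] at hh'
            rcases hh' with h0 | h0
            · exact absurd (sub_eq_zero.1 h0).symm hne
            · exact h0
          obtain ⟨H2, hH2⟩ := dvd_iff_isRoot.2 hH1h
          exact two h h' H2 (by rw [hH1, hH2]) (n + 1)
  obtain ⟨s, hs⟩ : ∃ s : ℂ, H.eval s ≠ 0 := by
    by_contra hcon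
    push Not at hcon
    exact hH0 (Polynomial.funext (by simpa using hcon))
  obtain ⟨hA, hB⟩ := natDegree_le_of_max he
  obtain ⟨φ, hφs, hφ1, hφi, hcop', hdeg', hconj, -⟩ := chart_at hcop he (by omega) s
  rw [← robust_transport hA hB (by omega) s k H hH] at hrob
  rw [← good_cj hcop he (by omega) hH0 hH s]
  have hGk : (reflect k (H.comp (X + C s))).coeff k ≠ 0 := by
    rw [coeff_reflect, revAt_le le_rfl, Nat.sub_self, coeff_zero_eq_eval_zero, eval_comp,
      eval_add, eval_X, eval_C, zero_add]
    exact hs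
  have hGle : (reflect k (H.comp (X + C s))).natDegree ≤ k := by
    apply natDegree_reflect_le'
    rw [natDegree_comp, natDegree_X_add_C, mul_one]
    exact hH
  exact key _ _ _ hcop' hdeg' (reflect_ne_zero hH0 k s)
    (le_antisymm hGle (le_natDegree_of_ne_zero hGk)) hrob

/-- **the exact characterisation** -/
theorem robust_iff_good {A B H : Polynomial ℂ} {e k : ℕ} (hcop : IsCoprime A B)
    (he : max A.natDegree B.natDegree = e) (he2 : 2 ≤ e) (hH0 : H ≠ 0) (hH : H.natDegree ≤ k) :
    Robust (e + k) (A * H) (B * H) ↔ Good k A B H :=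
  ⟨good_of_robust hcop he he2 hH0 hH, robust_of_good hcop he he2 hH0 hH⟩

end Pool.Agent.H32.RB
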