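import Pool.Agent.H32.RB.Defs

set_option autoImplicit false

open Filter Topology Polynomial OnePoint Metric Set

namespace Pool.Agent.H32.RB

open Pool.Agent.H44.Fatou Pool.Agent.H32.BT

/-
Same as Pool/Agent/H32/BT/HH.lean for the general family of Defs.lean (structure GFam).
eval_hol: (R t).eval (a t) = sum over i in range (D+1) of (R t).coeff i * (a t)^i
(eval_eq_sum_range'), so it is differentiable on the ball.
der_hol: coefficients of the derivative: coeff_derivative.
hg_spec: for every t in the ball the orbit of v t is finite: t = 0 by F.fin; t not 0: F.att is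
preserved (att_iter) and infinity is not attracted (F.inf). Induction on n: rat (P t) (Q t) at the
finite point y = hg n t is finite, so (Q t) y is not 0 (otherwise pt gives infinity), and the value is
P y / Q y. Differentiability by induction from eval_hol.
-/

theorem eval_hol {D : ℕ} {R : ℂ → Polynomial ℂ} {a : ℂ → ℂ} {δ : ℝ}
    (hdeg : ∀ t : ℂ, ‖t‖ < δ → (R t).natDegree ≤ D)
    (hol : ∀ i : ℕ, DifferentiableOn ℂ (fun t => (R t).coeff i) (ball 0 δ))
    (ha : DifferentiableOn ℂ a (ball 0 δ)) :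
    DifferentiableOn ℂ (fun t => (R t).eval (a t)) (ball 0 δ) := by
  have h1 : DifferentiableOn ℂ
      (fun t => ∑ i ∈ Finset.range (D + 1), (R t).coeff i * (a t) ^ i) (ball 0 δ) :=
    DifferentiableOn.fun_sum fun i _ => (hol i).mul (ha.pow i)
  refine h1.congr fun t ht => ?_
  rw [mem_ball_zero_iff] at ht
  exact eval_eq_sum_range' (Nat.lt_succ_of_le (hdeg t ht)) (a t)

theorem der_hol {R : ℂ → Polynomial ℂ} {δ : ℝ}
    (hol : ∀ i : ℕ, DifferentiableOn ℂ (fun t => (R t).coeff i) (ball 0 δ)) :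
    ∀ i : ℕ, DifferentiableOn ℂ (fun t => (derivative (R t)).coeff i) (ball 0 δ) := by
  intro i
  simp only [coeff_derivative]
  exact (hol (i + 1)).mul_const _

private theorem hg_ne_zero_of_fin {P Q : Polynomial ℂ} {z y : ℂ}
    (h : rat P Q (z : OnePoint ℂ) = (y : OnePoint ℂ)) : Q.eval z ≠ 0 := by
  intro h0
  rw [rat_coe, h0, pt, if_pos rfl] at h
  exact OnePoint.infty_ne_coe y h

theorem hg_spec {D : ℕ} {P Q : ℂ → Polynomial ℂ} {v : ℂ → ℂ} {δ : ℝ} (F : GFam D P Q v δ) :
    (∀ t : ℂ, ‖t‖ < δ → ∀ n : ℕ, (Q t).eval (hg P Q v n t) ≠ 0 ∧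
      (rat (P t) (Q t))^[n] (v t : OnePoint ℂ) = (hg P Q v n t : OnePoint ℂ)) ∧
    ∀ n : ℕ, DifferentiableOn ℂ (hg P Q v n) (ball 0 δ) := by
  have hfin : ∀ t : ℂ, ‖t‖ < δ → ∀ n : ℕ,
      ∃ y : ℂ, (rat (P t) (Q t))^[n] (v t : OnePoint ℂ) = (y : OnePoint ℂ) := by
    intro t ht n
    by_cases h : t = 0
    · subst h
      exact F.fin n
    · have h4 : (rat (P t) (Q t))^[n] (v t : OnePoint ℂ) ≠ ∞ := by
        intro h5
        apply F.inf t h ht
        rw [← h5]
        exact (att_iter (rat_continuous (F.cop t ht)) _ n).2 (F.att t h ht)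
      obtain ⟨y, hy⟩ := OnePoint.ne_infty_iff_exists.1 h4
      exact ⟨y, hy.symm⟩
  have hB : ∀ t : ℂ, ‖t‖ < δ → ∀ n : ℕ,
      (rat (P t) (Q t))^[n] (v t : OnePoint ℂ) = (hg P Q v n t : OnePoint ℂ) →
        (Q t).eval (hg P Q v n t) ≠ 0 := by
    intro t ht n hn
    obtain ⟨y, hy⟩ := hfin t ht (n + 1)
    rw [Function.iterate_succ_apply', hn] at hy
    exact hg_ne_zero_of_fin hy
  have key : ∀ t : ℂ, ‖t‖ < δ → ∀ n : ℕ,
      (rat (P t) (Q t))^[n] (v t : OnePoint ℂ) = (hg P Q v n t : OnePoint ℂ) := by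
    intro t ht n
    induction n with
    | zero => rfl
    | succ n ih =>
      have hb := hB t ht n ih
      rw [Function.iterate_succ_apply', ih, rat_coe_of_ne hb]
      rfl
  refine ⟨fun t ht n => ⟨hB t ht n (key t ht n), key t ht n⟩, ?_⟩
  intro n
  induction n with
  | zero => exact F.holv
  | succ n ih =>
    have h1 : DifferentiableOn ℂ (fun t => (P t).eval (hg P Q v n t)) (ball 0 δ) :=
      eval_hol F.degP F.holP ih
    have h2 : DifferentiableOn ℂ (fun t => (Q t).eval (hg P Q v n t)) (ball 0 δ) :=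
      eval_hol F.degQ F.holQ ih
    refine h1.div h2 (fun t ht => ?_)
    rw [mem_ball_zero_iff] at ht
    exact hB t ht n (key t ht n)

end Pool.Agent.H32.RB
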