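import Mathlib

set_option autoImplicit false

open Filter Topology Metric Set

namespace Pool.Agent.H32.RB

/-
Persistence of zeros (Hurwitz). F is analytic on a neighbourhood of (z0, 0) (isOpen_analyticAt).
Choose r > 0 with closedBall z0 r inside N, F analytic at every point of
closedBall z0 r x closedBall 0 r, and F (z, 0) not 0 for 0 < |z - z0| <= r. Let mu > 0 be the minimum
of |F (z, 0)| on the sphere |z - z0| = r (compact). By compactness and continuity, for t near 0:
|F (z, t)| >= mu / 2 for all z on the sphere, and |F (z0, t)| < mu / 2. If F (., t) had no zero in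
closedBall z0 r, then z -> 1 / F (z, t) would be differentiable on the closed ball and the maximum
principle (Complex.norm_le_of_forall_mem_frontier_norm_le) gives |1 / F (z0, t)| <= 2 / mu, that is
|F (z0, t)| >= mu / 2: contradiction.
-/

theorem zero_persists {F : ℂ × ℂ → ℂ} {z0 : ℂ} (hF : AnalyticAt ℂ F (z0, 0))
    (h0 : F (z0, 0) = 0) (hiso : ∀ᶠ z in 𝓝[≠] z0, F (z, 0) ≠ 0) {N : Set ℂ} (hN : N ∈ 𝓝 z0) :
    ∀ᶠ t in 𝓝 (0 : ℂ), ∃ z ∈ N, F (z, t) = 0 := by
  obtain ⟨r1, hr1, hb1⟩ := Metric.eventually_nhds_iff_ball.1 hF.eventually_analyticAt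
  obtain ⟨r2, hr2, hb2⟩ := Metric.eventually_nhds_iff_ball.1 (eventually_nhdsWithin_iff.1 hiso)
  obtain ⟨r3, hr3, hb3⟩ := Metric.mem_nhds_iff.1 hN
  set r : ℝ := min r1 (min r2 r3) / 2 with hr
  have hmin : 0 < min r1 (min r2 r3) := lt_min hr1 (lt_min hr2 hr3)
  have hr0 : 0 < r := by positivity
  have hrr1 : r < r1 := by
    have := min_le_left r1 (min r2 r3)
    rw [hr]; linarith
  have hrr2 : r < r2 := by
    have := (min_le_right r1 (min r2 r3)).trans (min_le_left r2 r3)
    rw [hr]; linarith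
  have hrr3 : r < r3 := by
    have := (min_le_right r1 (min r2 r3)).trans (min_le_right r2 r3)
    rw [hr]; linarith
  have han : ∀ z ∈ closedBall z0 r, ∀ t : ℂ, ‖t‖ < r1 → AnalyticAt ℂ F (z, t) := by
    intro z hz t ht
    refine hb1 (z, t) ?_
    rw [mem_ball, Prod.dist_eq]
    refine max_lt ?_ ?_
    · exact lt_of_le_of_lt (mem_closedBall.1 hz) hrr1
    · rw [dist_zero_right]; exact ht
  have hsph : (sphere z0 r).Nonempty := (NormedSpace.sphere_nonempty (x := z0)).2 hr0.le
  have hcont0 : ContinuousOn (fun z => ‖F (z, 0)‖) (sphere z0 r) := by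
    intro z hz
    have h1 : ContinuousAt F (z, 0) :=
      (han z (sphere_subset_closedBall hz) 0 (by rw [norm_zero]; exact hr1)).continuousAt
    have h2 : ContinuousAt (fun z : ℂ => (z, (0 : ℂ))) z := by fun_prop
    exact ((ContinuousAt.comp (f := fun z : ℂ => (z, (0 : ℂ))) h1 h2).norm).continuousWithinAt
  obtain ⟨zm, hzm, hmn⟩ := (isCompact_sphere z0 r).exists_isMinOn hsph hcont0
  set μ : ℝ := ‖F (zm, 0)‖ with hμ
  have hμ0 : 0 < μ := by
    rw [hμ, norm_pos_iff]
    refine hb2 zm ?_ ?_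
    · rw [mem_ball, mem_sphere.1 hzm]; exact hrr2
    · intro h
      have h1 := mem_sphere.1 hzm
      rw [mem_singleton_iff] at h
      rw [h, dist_self] at h1
      exact hr0.ne h1
  have hev1 : ∀ᶠ t in 𝓝 (0 : ℂ), ∀ z ∈ sphere z0 r, μ / 2 < ‖F (z, t)‖ := by
    refine IsCompact.eventually_forall_of_forall_eventually (isCompact_sphere z0 r) ?_
    intro z hz
    have h1 : ContinuousAt F (z, 0) :=
      (han z (sphere_subset_closedBall hz) 0 (by rw [norm_zero]; exact hr1)).continuousAt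
    have h2 : ContinuousAt (fun p : ℂ × ℂ => F (p.2, p.1)) ((0 : ℂ), z) :=
      ContinuousAt.comp (f := fun p : ℂ × ℂ => (p.2, p.1)) (x := ((0 : ℂ), z)) h1 (by fun_prop)
    have h3 : μ / 2 < ‖F (z, 0)‖ := by
      have := hmn hz
      simp only [mem_ofPred_eq] at this
      have h4 : μ ≤ ‖F (z, 0)‖ := this
      linarith
    exact h2.norm.eventually (lt_mem_nhds h3)
  have hev2 : ∀ᶠ t in 𝓝 (0 : ℂ), ‖F (z0, t)‖ < μ / 2 := by
    have h1 : ContinuousAt F (z0, 0) := hF.continuousAt
    have h2 : ContinuousAt (fun t : ℂ => F (z0, t)) 0 :=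
      ContinuousAt.comp (f := fun t : ℂ => (z0, t)) (x := (0 : ℂ)) h1 (by fun_prop)
    have h3 : ‖F (z0, 0)‖ < μ / 2 := by
      rw [h0, norm_zero]; positivity
    exact h2.norm.eventually (gt_mem_nhds h3)
  have hev3 : ∀ᶠ t in 𝓝 (0 : ℂ), ‖t‖ < r1 := by
    have : Tendsto (fun t : ℂ => ‖t‖) (𝓝 0) (𝓝 0) := by
      simpa using (continuous_norm.tendsto (0 : ℂ))
    exact this.eventually (gt_mem_nhds hr1)
  filter_upwards [hev1, hev2, hev3] with t ht1 ht2 ht3
  by_contra hcon
  push Not at hcon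
  have hne : ∀ z ∈ closedBall z0 r, F (z, t) ≠ 0 := by
    intro z hz
    refine hcon z (hb3 ?_)
    exact lt_of_le_of_lt (mem_closedBall.1 hz) hrr3
  have hd : DiffContOnCl ℂ (fun z => (F (z, t))⁻¹) (ball z0 r) := by
    refine DifferentiableOn.diffContOnCl ?_
    rw [closure_ball z0 hr0.ne']
    intro z hz
    have h1 : DifferentiableAt ℂ F (z, t) := (han z hz t ht3).differentiableAt
    have h2 : DifferentiableAt ℂ (fun z => F (z, t)) z :=
      DifferentiableAt.comp (f := fun z : ℂ => (z, t)) z h1 (by fun_prop)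
    exact (h2.inv (hne z hz)).differentiableWithinAt
  have h1 := Complex.norm_le_of_forall_mem_frontier_norm_le (C := 2 / μ) isBounded_ball hd (by
    intro z hz
    rw [frontier_ball z0 hr0.ne'] at hz
    have h2 := ht1 z hz
    rw [norm_inv, inv_le_comm₀ (by linarith) (by positivity), inv_div]
    exact h2.le) (subset_closure (mem_ball_self hr0))
  have h3 : 0 < ‖F (z0, t)‖ := norm_pos_iff.2 (hne z0 (mem_closedBall_self hr0.le))
  rw [norm_inv, inv_le_comm₀ h3 (by positivity), inv_div] at h1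
  linarith

end Pool.Agent.H32.RB
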