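import Pool.Agent.H32.RB.Rep
import Pool.Agent.H32.RB.Hur

set_option autoImplicit false

open Filter Topology Polynomial OnePoint Metric Set

namespace Pool.Agent.H32.RB

open Pool.Agent.H44.Fatou Pool.Agent.H32.BT

/-
The hole h = x n is on the orbit of the critical point c = x 0: then (A (X-h), B (X-h)) is not
robust. For (b, t) near (h, 0) put
  P = A (X - b) + t b (X - c)^2,   Q = B (X - b) + t (X - c)^2.
(i) P - b Q = (A - b B)(X - b); P(b) = b Q(b), Q(b) = t (b - c)^2, not 0 for t not 0, b near h.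
(ii) coprime: for t not 0. IsCoprime (X - b) Q since Q(b) not 0; IsCoprime (A - b B) Q for (b,t) near
(h,0) by open_inR (BT/Bdry.lean) applied to (A - h B, B (X - h)), a coprime pair with max degree e + 1
(natDegree (B (X-h)) = e+1; A - hB and B coprime; (A - hB)(h) not 0 by hgh). So IsCoprime (P - bQ) Q,
hence IsCoprime P Q. (iii) natDegree Q = e + 1 (coefficient e + 1 is that of B X, as e >= 2), natDegree P
<= e + 1. (iv) coefficients of P, Q are close to those of A (X - h), B (X - h): so HypMap (rat P Q)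
if Robust. (v) multiplier at the fixed point b: Wr P Q = Wr (P - bQ) Q, value at b is
(A - bB)(b) Q(b), so Wr/Q^2 at b is (A - bB)(b) / (t (b-c)^2), of modulus > 1 for small t: b is not
attracted (repelling_not_att). (vi) c is critical for rat P Q: let w0 = x 1 = A c / B c; P - w0 Q =
(A - w0 B)(X - b) + t (b - w0)(X - c)^2 and A - w0 B vanishes doubly at c (Wr A B (c) = 0, B c not 0),
so Wr P Q = Wr (P - w0 Q) Q vanishes at c: crit_of_wr. Q c = B c (c - b) not 0, and the value of c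
is w0 = x 1.
(vii) orbit: y 1 (b,t) = x 1, y (j+1) = P(y j) / Q(y j) for 1 <= j < n. Each y j is analytic at
(h, 0) with value x j (the denominator at (h,0) is B(x j)(x j - h), not 0). For t = 0 and b near h:
y j (b, 0) = x j (cancel x j - b). F(b,t) = y n (b,t) - b is analytic at (h,0), F(b,0) = h - b.
zero_persists: for all small t there is b near h with F = 0: then for t not 0, rat P Q maps c to b in n
steps, so c is not attracted (att_iter): contradiction with HypMap (n = 1: F = h - b, take b = h).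
-/

/-- the polynomial `A (X - b) + s (X - c)^2` -/
private noncomputable def lcp (A : Polynomial ℂ) (c b s : ℂ) : Polynomial ℂ :=
  A * (X - C b) + C s * (X - C c) ^ 2

private theorem lcp_eval (A : Polynomial ℂ) (c b s z : ℂ) :
    (lcp A c b s).eval z = A.eval z * (z - b) + s * (z - c) ^ 2 := by
  unfold lcp
  simp

private theorem lcp_coeff (A : Polynomial ℂ) (c b s h : ℂ) (i : ℕ) :
    (lcp A c b s).coeff i - (A * (X - C h)).coeff i =
      (h - b) * A.coeff i + s * ((X - C c : Polynomial ℂ) ^ 2).coeff i := by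
  have e : lcp A c b s = A * (X - C h) + (C (h - b) * A + C s * (X - C c) ^ 2) := by
    unfold lcp
    rw [C_sub]
    ring
  rw [e, coeff_add, coeff_add, coeff_C_mul, coeff_C_mul]
  ring

private theorem lcp_sq_deg (c s : ℂ) : (C s * (X - C c : Polynomial ℂ) ^ 2).natDegree ≤ 2 := by
  refine (natDegree_C_mul_le _ _).trans ?_
  refine natDegree_pow_le.trans ?_
  rw [natDegree_X_sub_C]

private theorem lcp_deg_le {A : Polynomial ℂ} {e : ℕ} (hA : A.natDegree ≤ e) (he : 2 ≤ e)
    (c b s : ℂ) : (lcp A c b s).natDegree ≤ e + 1 := by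
  unfold lcp
  refine (natDegree_add_le _ _).trans (max_le ?_ ?_)
  · refine natDegree_mul_le.trans ?_
    rw [natDegree_X_sub_C]
    omega
  · exact (lcp_sq_deg c s).trans (by omega)

private theorem lcp_deg_eq {B : Polynomial ℂ} {e : ℕ} (hB : B.natDegree = e) (he : 2 ≤ e)
    (c b s : ℂ) : (lcp B c b s).natDegree = e + 1 := by
  have hB0 : B ≠ 0 := by
    rintro rfl
    rw [natDegree_zero] at hB
    omega
  have h1 : (B * (X - C b)).natDegree = e + 1 := by
    rw [natDegree_mul hB0 (X_sub_C_ne_zero b), hB, natDegree_X_sub_C]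
  unfold lcp
  rw [natDegree_add_eq_left_of_natDegree_lt, h1]
  rw [h1]
  exact (lcp_sq_deg c s).trans_lt (by omega)

private theorem lcp_bound (p : Polynomial ℂ) : ∃ M : ℝ, 0 ≤ M ∧ ∀ i, ‖p.coeff i‖ ≤ M := by
  refine ⟨∑ i ∈ Finset.range (p.natDegree + 1), ‖p.coeff i‖, Finset.sum_nonneg fun _ _ => norm_nonneg _,
    fun i => ?_⟩
  by_cases hi : i < p.natDegree + 1
  · exact Finset.single_le_sum (f := fun i => ‖p.coeff i‖) (fun _ _ => norm_nonneg _)
      (Finset.mem_range.2 hi)
  · rw [coeff_eq_zero_of_natDegree_lt (by omega), norm_zero]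
    exact Finset.sum_nonneg fun _ _ => norm_nonneg _

private theorem lcp_small (R S : Polynomial ℂ) {ρ : ℝ} (hρ : 0 < ρ) {g k : ℂ × ℂ → ℂ} {u0 : ℂ × ℂ}
    (hg : ContinuousAt g u0) (hk : ContinuousAt k u0) (hg0 : g u0 = 0) (hk0 : k u0 = 0) :
    ∀ᶠ u in 𝓝 u0, ∀ i, ‖g u * R.coeff i + k u * S.coeff i‖ < ρ := by
  obtain ⟨M, hM, hMi⟩ := lcp_bound R
  obtain ⟨M', hM', hMi'⟩ := lcp_bound S
  have h1 : ContinuousAt (fun u => ‖g u‖ * M + ‖k u‖ * M') u0 :=
    (hg.norm.mul continuousAt_const).add (hk.norm.mul continuousAt_const)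
  have h2 : ∀ᶠ u in 𝓝 u0, ‖g u‖ * M + ‖k u‖ * M' < ρ := by
    refine h1.eventually (p := fun y : ℝ => y < ρ) ?_
    apply Iio_mem_nhds
    simp only [hg0, hk0, norm_zero, zero_mul, add_zero]
    exact hρ
  filter_upwards [h2] with u hu i
  refine lt_of_le_of_lt ?_ hu
  refine (norm_add_le _ _).trans ?_
  rw [norm_mul, norm_mul]
  gcongr
  · exact hMi i
  · exact hMi' i

/-- the orbit of `c` in the family -/
private noncomputable def lcy (A B : Polynomial ℂ) (c : ℂ) : ℕ → ℂ × ℂ → ℂ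
  | 0, _ => c
  | j + 1, u => (A.eval (lcy A B c j u) * (lcy A B c j u - u.1) + u.2 * u.1 * (lcy A B c j u - c) ^ 2) /
      (B.eval (lcy A B c j u) * (lcy A B c j u - u.1) + u.2 * (lcy A B c j u - c) ^ 2)

private theorem lcy_anal {A B : Polynomial ℂ} (x : ℕ → ℂ) (n : ℕ) (hne : ∀ j < n, x j ≠ x n)
    (hden : ∀ j < n, B.eval (x j) ≠ 0)
    (hstep : ∀ j < n, A.eval (x j) / B.eval (x j) = x (j + 1)) :
    ∀ j ≤ n, AnalyticAt ℂ (lcy A B (x 0) j) (x n, 0) ∧ lcy A B (x 0) j (x n, 0) = x j := by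
  intro j
  induction j with
  | zero =>
    intro _
    exact ⟨analyticAt_const, rfl⟩
  | succ j ih =>
    intro hj
    obtain ⟨h1, h2⟩ := ih (by omega)
    have hB0 := hden j (by omega)
    have hx0 : x j - x n ≠ 0 := sub_ne_zero.2 (hne j (by omega))
    have hEA : AnalyticAt ℂ (fun u => A.eval (lcy A B (x 0) j u)) (x n, 0) :=
      ((AnalyticOnNhd.eval_polynomial A) _ trivial).comp h1
    have hEB : AnalyticAt ℂ (fun u => B.eval (lcy A B (x 0) j u)) (x n, 0) :=
      ((AnalyticOnNhd.eval_polynomial B) _ trivial).comp h1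
    have hsub : AnalyticAt ℂ (fun u : ℂ × ℂ => lcy A B (x 0) j u - u.1) (x n, 0) :=
      h1.sub analyticAt_fst
    have hsq : AnalyticAt ℂ (fun u : ℂ × ℂ => (lcy A B (x 0) j u - x 0) ^ 2) (x n, 0) :=
      (h1.sub analyticAt_const).pow 2
    have hden2 : AnalyticAt ℂ (fun u : ℂ × ℂ => B.eval (lcy A B (x 0) j u) *
        (lcy A B (x 0) j u - u.1) + u.2 * (lcy A B (x 0) j u - x 0) ^ 2) (x n, 0) :=
      (hEB.mul hsub).add (analyticAt_snd.mul hsq)
    have hnum : AnalyticAt ℂ (fun u : ℂ × ℂ => A.eval (lcy A B (x 0) j u) *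
        (lcy A B (x 0) j u - u.1) + u.2 * u.1 * (lcy A B (x 0) j u - x 0) ^ 2) (x n, 0) :=
      (hEA.mul hsub).add ((analyticAt_snd.mul analyticAt_fst).mul hsq)
    refine ⟨hnum.div hden2 ?_, ?_⟩
    · simp only [h2, zero_mul, add_zero]
      exact mul_ne_zero hB0 hx0
    · show (A.eval (lcy A B (x 0) j (x n, 0)) * (lcy A B (x 0) j (x n, 0) - x n) +
        0 * x n * (lcy A B (x 0) j (x n, 0) - x 0) ^ 2) /
        (B.eval (lcy A B (x 0) j (x n, 0)) * (lcy A B (x 0) j (x n, 0) - x n) +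
          0 * (lcy A B (x 0) j (x n, 0) - x 0) ^ 2) = x (j + 1)
      simp only [h2, zero_mul, add_zero]
      rw [mul_div_mul_right _ _ hx0]
      exact hstep j (by omega)

/-- the orbit for `t = 0` -/
private theorem lcy_zero {A B : Polynomial ℂ} (x : ℕ → ℂ) (n : ℕ)
    (hden : ∀ j < n, B.eval (x j) ≠ 0)
    (hstep : ∀ j < n, A.eval (x j) / B.eval (x j) = x (j + 1)) {b : ℂ} (hb : ∀ j < n, x j ≠ b) :
    ∀ j ≤ n, lcy A B (x 0) j (b, 0) = x j := by
  intro j
  induction j with
  | zero => intro _; rfl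
  | succ j ih =>
    intro hj
    have h2 := ih (by omega)
    have hx0 : x j - b ≠ 0 := sub_ne_zero.2 (hb j (by omega))
    show (A.eval (lcy A B (x 0) j (b, 0)) * (lcy A B (x 0) j (b, 0) - b) +
        0 * b * (lcy A B (x 0) j (b, 0) - x 0) ^ 2) /
        (B.eval (lcy A B (x 0) j (b, 0)) * (lcy A B (x 0) j (b, 0) - b) +
          0 * (lcy A B (x 0) j (b, 0) - x 0) ^ 2) = x (j + 1)
    simp only [h2, zero_mul, add_zero]
    rw [mul_div_mul_right _ _ hx0]
    exact hstep j (by omega)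

private theorem lcy_orbit {A B : Polynomial ℂ} (c : ℂ) (n : ℕ) (b t : ℂ)
    (hQ : ∀ j < n, (lcp B c b t).eval (lcy A B c j (b, t)) ≠ 0) :
    ∀ j ≤ n, (rat (lcp A c b (t * b)) (lcp B c b t))^[j] (c : OnePoint ℂ) =
      (lcy A B c j (b, t) : OnePoint ℂ) := by
  intro j
  induction j with
  | zero => intro _; rfl
  | succ j ih =>
    intro hj
    have h1 := hQ j (by omega)
    rw [Function.iterate_succ_apply', ih (by omega), rat_coe]
    unfold pt
    rw [if_neg h1, lcp_eval, lcp_eval]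
    rfl

private theorem lcp_wr_c (A B : Polynomial ℂ) (c b t : ℂ) (h : (Wr A B).eval c = 0) :
    (Wr (lcp A c b (t * b)) (lcp B c b t)).eval c = 0 := by
  unfold Wr lcp at *
  simp only [eval_sub, eval_mul, derivative_add, derivative_mul, derivative_sub, derivative_X,
    derivative_C, derivative_pow, eval_add, eval_C, eval_X, eval_pow, sub_self, eval_zero,
    eval_one] at *
  linear_combination (c - b) ^ 2 * h

private theorem lcp_wr_b (A B : Polynomial ℂ) (c b t : ℂ) :
    (Wr (lcp A c b (t * b)) (lcp B c b t)).eval b =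
      (A.eval b - b * B.eval b) * (lcp B c b t).eval b := by
  unfold Wr lcp
  simp only [eval_sub, eval_mul, derivative_add, derivative_mul, derivative_sub, derivative_X,
    derivative_C, derivative_pow, eval_add, eval_C, eval_X, eval_pow, sub_self, eval_zero,
    eval_one]
  ring

theorem not_robust_crit {A B : Polynomial ℂ} {e : ℕ} (hcop : IsCoprime A B)
    (hB : B.natDegree = e) (hA : A.natDegree ≤ e) (he : 2 ≤ e) (x : ℕ → ℂ) (n : ℕ) (hn : 1 ≤ n)
    (hgh : A.eval (x n) ≠ x n * B.eval (x n)) (hne : ∀ j < n, x j ≠ x n)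
    (hden : ∀ j < n, B.eval (x j) ≠ 0)
    (hstep : ∀ j < n, A.eval (x j) / B.eval (x j) = x (j + 1))
    (hcrit : (Wr A B).eval (x 0) = 0) :
    ¬ Robust (e + 1) (A * (X - C (x n))) (B * (X - C (x n))) := by
  rintro ⟨ρ, hρ, hrob⟩
  set h := x n with hh
  set c := x 0 with hc
  have hch : c ≠ h := hne 0 (by omega)
  have hB0 : B ≠ 0 := by
    rintro rfl
    rw [natDegree_zero] at hB
    omega
  have hcf : Continuous (fun u : ℂ × ℂ => h - u.1) := by fun_prop
  have hcs : Continuous (fun u : ℂ × ℂ => u.2 * u.1) := by fun_prop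
  have hcs' : Continuous (fun u : ℂ × ℂ => u.2) := continuous_snd
  -- nearness
  have hN1 : ∀ᶠ u : ℂ × ℂ in 𝓝 (h, 0), ∀ i,
      ‖(h - u.1) * A.coeff i + u.2 * u.1 * ((X - C c : Polynomial ℂ) ^ 2).coeff i‖ < ρ :=
    lcp_small A _ hρ hcf.continuousAt hcs.continuousAt (by simp) (by simp)
  have hN2 : ∀ᶠ u : ℂ × ℂ in 𝓝 (h, 0), ∀ i,
      ‖(h - u.1) * B.coeff i + u.2 * ((X - C c : Polynomial ℂ) ^ 2).coeff i‖ < ρ :=
    lcp_small B _ hρ hcf.continuousAt hcs'.continuousAt (by simp) (by simp)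
  -- coprimality
  have hcop0 : IsCoprime (A - C h * B) (B * (X - C h)) := by
    apply IsCoprime.mul_right
    · have := hcop.add_mul_left_left (-C h)
      have e1 : A + B * (-C h) = A - C h * B := by ring
      rwa [e1] at this
    · apply isCoprime_of_roots
      intro z
      by_cases hz : z = h
      · left
        rw [hz, eval_sub, eval_mul, eval_C]
        exact sub_ne_zero.2 hgh
      · right
        rw [eval_sub, eval_X, eval_C]
        exact sub_ne_zero.2 hz
  have hdegB : (B * (X - C h)).natDegree = e + 1 := by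
    rw [natDegree_mul hB0 (X_sub_C_ne_zero h), hB, natDegree_X_sub_C]
  have hdegAB : ∀ b : ℂ, (A - C b * B).natDegree ≤ e := by
    intro b
    refine (natDegree_sub_le _ _).trans (max_le hA ?_)
    exact (natDegree_C_mul_le _ _).trans hB.le
  obtain ⟨η, hη, hop⟩ := open_inR hcop0 (e := e + 1) (by
    rw [hdegB]
    exact max_eq_right ((hdegAB h).trans (Nat.le_succ e)))
  have hN3 : ∀ᶠ u : ℂ × ℂ in 𝓝 (h, 0), ∀ i,
      ‖(h - u.1) * B.coeff i + 0 * (0 : Polynomial ℂ).coeff i‖ < η :=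
    lcp_small B 0 hη hcf.continuousAt continuousAt_const (by simp) rfl
  have hN4 : ∀ᶠ u : ℂ × ℂ in 𝓝 (h, 0), ∀ i,
      ‖(h - u.1) * B.coeff i + u.2 * ((X - C c : Polynomial ℂ) ^ 2).coeff i‖ < η :=
    lcp_small B _ hη hcf.continuousAt hcs'.continuousAt (by simp) (by simp)
  -- multiplier
  have hN5 : ∀ᶠ u : ℂ × ℂ in 𝓝 (h, 0), ‖u.2 * (u.1 - c) ^ 2‖ < ‖A.eval u.1 - u.1 * B.eval u.1‖ := by
    have h1 : ContinuousAt (fun u : ℂ × ℂ => ‖A.eval u.1 - u.1 * B.eval u.1‖ - ‖u.2 * (u.1 - c) ^ 2‖)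
        (h, 0) := by
      have hcA : Continuous (fun u : ℂ × ℂ => A.eval u.1) := A.continuous.comp continuous_fst
      have hcB : Continuous (fun u : ℂ × ℂ => B.eval u.1) := B.continuous.comp continuous_fst
      exact ((hcA.sub (continuous_fst.mul hcB)).norm.sub
        (continuous_snd.mul ((continuous_fst.sub continuous_const).pow 2)).norm).continuousAt
    have h2 : ∀ᶠ u : ℂ × ℂ in 𝓝 (h, 0),
        0 < ‖A.eval u.1 - u.1 * B.eval u.1‖ - ‖u.2 * (u.1 - c) ^ 2‖ := by
      apply h1.eventually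
      apply Ioi_mem_nhds
      simp only [zero_mul, norm_zero, sub_zero]
      exact norm_pos_iff.2 (sub_ne_zero.2 hgh)
    filter_upwards [h2] with u hu
    linarith
  have hN6 : ∀ᶠ u : ℂ × ℂ in 𝓝 (h, 0), u.1 ≠ c :=
    continuous_fst.continuousAt.eventually_ne hch.symm
  -- orbit
  have hY := lcy_anal (A := A) (B := B) x n hne hden hstep
  have hN7 : ∀ᶠ u : ℂ × ℂ in 𝓝 (h, 0), ∀ j ∈ Finset.range n,
      (lcp B c u.1 u.2).eval (lcy A B c j u) ≠ 0 := by
    rw [Filter.eventually_all_finset]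
    intro j hj
    rw [Finset.mem_range] at hj
    obtain ⟨h1, h2⟩ := hY j hj.le
    have h3 : ContinuousAt (fun u : ℂ × ℂ => B.eval (lcy A B c j u) * (lcy A B c j u - u.1) +
        u.2 * (lcy A B c j u - c) ^ 2) (h, 0) := by
      have hy := h1.continuousAt
      exact ((B.continuous.continuousAt.comp hy).mul (hy.sub continuousAt_fst)).add
        (continuousAt_snd.mul ((hy.sub continuousAt_const).pow 2))
    have h4 : ∀ᶠ u : ℂ × ℂ in 𝓝 (h, 0), B.eval (lcy A B c j u) * (lcy A B c j u - u.1) +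
        u.2 * (lcy A B c j u - c) ^ 2 ≠ 0 := by
      apply h3.eventually_ne
      simp only [zero_mul, add_zero]
      rw [h2]
      exact mul_ne_zero (hden j hj) (sub_ne_zero.2 (hne j hj))
    filter_upwards [h4] with u hu
    rw [lcp_eval]
    exact hu
  have hall := hN1.and (hN2.and (hN3.and (hN4.and (hN5.and (hN6.and hN7)))))
  rw [nhds_prod_eq, eventually_prod_iff] at hall
  obtain ⟨p, hp, q, hq, hpq⟩ := hall
  -- zeros
  have hFa : AnalyticAt ℂ (fun u : ℂ × ℂ => lcy A B c n u - u.1) (h, 0) :=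
    (hY n le_rfl).1.sub analyticAt_fst
  have hF0 : lcy A B c n (h, 0) - h = 0 := by
    rw [(hY n le_rfl).2, sub_self]
  have hiso : ∀ᶠ z in 𝓝[≠] h, lcy A B c n (z, 0) - z ≠ 0 := by
    have h1 : ∀ᶠ z in 𝓝 h, ∀ j ∈ Finset.range n, x j ≠ z := by
      rw [Filter.eventually_all_finset]
      intro j hj
      rw [Finset.mem_range] at hj
      exact (eventually_ne_nhds (hne j hj).symm).mono fun z hz => hz.symm
    filter_upwards [mem_nhdsWithin_of_mem_nhds h1, self_mem_nhdsWithin] with z hz1 hz2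
    rw [lcy_zero x n hden hstep (fun j hj => hz1 j (Finset.mem_range.2 hj)) n le_rfl]
    exact sub_ne_zero.2 (fun hcon => hz2 hcon.symm)
  have hz := zero_persists hFa hF0 hiso (N := {z | p z}) hp
  obtain ⟨t, ⟨ht1, ht2⟩, ht0⟩ : ∃ t : ℂ, ((∃ z ∈ {z | p z}, lcy A B c n (z, t) - z = 0) ∧ q t) ∧ t ≠ 0 := by
    have h5 : ∀ᶠ t in 𝓝[≠] (0 : ℂ), (∃ z ∈ {z | p z}, lcy A B c n (z, t) - z = 0) ∧ q t :=
      mem_nhdsWithin_of_mem_nhds (hz.and hq)
    have h6 : ∀ᶠ t in 𝓝[≠] (0 : ℂ), t ≠ 0 := self_mem_nhdsWithin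
    exact (h5.and h6).exists
  obtain ⟨b, hb, hbt⟩ := ht1
  obtain ⟨g1, g2, g3, g4, g5, g6, g7⟩ := hpq hb ht2
  have hQb : (lcp B c b t).eval b = t * (b - c) ^ 2 := by
    rw [lcp_eval]; ring
  have hQb0 : (lcp B c b t).eval b ≠ 0 := by
    rw [hQb]
    exact mul_ne_zero ht0 (pow_ne_zero 2 (sub_ne_zero.2 g6))
  have hPb : (lcp A c b (t * b)).eval b = b * (lcp B c b t).eval b := by
    rw [lcp_eval, lcp_eval]; ring
  have hco1 : IsCoprime (A - C b * B) (lcp B c b t) := by
    refine (hop (A - C b * B) (lcp B c b t) ((hdegAB b).trans (Nat.le_succ e))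
      (lcp_deg_le hB.le he c b t) ?_).1
    intro i
    constructor
    · have := g3 i
      have e1 : (A - C b * B).coeff i - (A - C h * B).coeff i =
          (h - b) * B.coeff i + 0 * (0 : Polynomial ℂ).coeff i := by
        rw [coeff_sub, coeff_sub, coeff_C_mul, coeff_C_mul]
        ring
      rw [e1]
      exact this
    · rw [lcp_coeff]
      exact g4 i
  have hco : IsCoprime (lcp A c b (t * b)) (lcp B c b t) := by
    apply isCoprime_of_roots
    intro z
    by_contra hcon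
    push Not at hcon
    obtain ⟨hz1, hz2⟩ := hcon
    have h1 : (A - C b * B).eval z * (z - b) = 0 := by
      rw [lcp_eval] at hz1 hz2
      rw [eval_sub, eval_mul, eval_C]
      linear_combination hz1 - b * hz2
    rcases mul_eq_zero.1 h1 with h2 | h2
    · rcases coprime_eval hco1 z with h3 | h3
      · exact h3 h2
      · exact h3 hz2
    · rw [sub_eq_zero.1 h2] at hz2
      exact hQb0 hz2
  have hmax : max (lcp A c b (t * b)).natDegree (lcp B c b t).natDegree = e + 1 := by
    rw [lcp_deg_eq hB he]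
    exact max_eq_right (lcp_deg_le hA he _ _ _)
  have hyp : HypMap (rat (lcp A c b (t * b)) (lcp B c b t)) := by
    refine hrob _ _ hco hmax ?_
    intro i
    rw [lcp_coeff, lcp_coeff]
    exact ⟨g1 i, g2 i⟩
  have hcr : IsCrit (rat (lcp A c b (t * b)) (lcp B c b t)) (c : OnePoint ℂ) :=
    crit_of_wr hco (by omega) (lcp_wr_c A B c b t hcrit)
  have hatt := hyp _ hcr
  have horb := lcy_orbit (A := A) (B := B) c n b t
    (fun j hj => g7 j (Finset.mem_range.2 hj)) n le_rfl
  have hyb : lcy A B c n (b, t) = b := sub_eq_zero.1 hbt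
  rw [hyb] at horb
  have hattb : Att (rat (lcp A c b (t * b)) (lcp B c b t)) (b : OnePoint ℂ) := by
    rw [← horb]
    exact (att_iter (rat_continuous hco) _ n).2 hatt
  refine repelling_not_att hco (by omega) hPb hQb0 ?_ hattb
  rw [lcp_wr_b, pow_two, mul_div_mul_right _ _ hQb0, norm_div, hQb, one_lt_div]
  · exact g5
  · rw [← hQb]
    exact norm_pos_iff.2 hQb0

end Pool.Agent.H32.RB
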