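import Pool.Agent.H32.RB.Rep
import Pool.Agent.H32.RB.Hur

set_option autoImplicit false

open Filter Topology Polynomial OnePoint Metric Set

namespace Pool.Agent.H32.RB

open Pool.Agent.H44.Fatou Pool.Agent.H32.BT

/-
The hole h is an attracting, not superattracting fixed point of A/B, A = (X-h) A1 + h B, and
infinity is another preimage of h (A1 has degree <= e - 2). lam = A1 h / B h is the multiplier,
0 < |lam| < 1. Then (A (X-h), B (X-h)) is not robust.
Choose s with s^2 = lam and |2 s - 1| > 1 (one of the two roots works: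
|2s-1|^2 + |-2s-1|^2 = 2 + 8 |s|^2 > 2). w0 = 1 - 1/s; w0 is not 0 (s is not 1), not 1, and
(w0 - 1)^2 = 1/lam. q(z) = A1 z / B z, q' its derivative, taken at h + beta w below.
  S(w, beta) = 1 - (q + beta w (w-1) q') / ((w-1)^2 q^2)
is analytic at (w0, 0); S(w, 0) = 1 - 1/(lam (w-1)^2) vanishes at w0 and nowhere else near w0.
zero_persists: for all small beta there is w near w0 with S(w, beta) = 0. Take beta not 0 small, put
  al = w + w/((w-1) q(h + beta w)),  b = h + beta,  a = h + beta al,  c = h + beta w,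
  P = b B (X - h) + (X - b)(X - a) A1,   Q = B (X - h).
As beta -> 0, al -> w0 + w0/((w0-1) lam) = w0^2, not 0.
(i) P - h Q = beta B (X - h) + (X - b)(X - a) A1, at h + beta w' equal to beta^2 B Phi(w') with
Phi(w') = w' + (w'-1)(w'-al) q. Phi(w) = 0 by the choice of al. The derivative of Phi at w is
  1 + (w-al) q + (w-1) q + (w-1)(w-al) beta q' = -1/(w-1) + (w-1) q - beta w q'/q = (w-1) q S = 0
(use (w-al) q = -w/(w-1)). So P - hQ vanishes doubly at c, hence Wr P Q = Wr (P - hQ) Q vanishes at c;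
Q c = B(c) beta w is not 0; so c is critical (crit_of_wr) with value h.
(ii) value at h: Q h = 0 so rat P Q h = infinity. Value at infinity: natDegree Q = e + 1 and P.coeff (e+1) =
b * B.coeff e ((X-b)(X-a)A1 has degree <= e), so it is b. b is fixed: P b = b Q b, Q b = B(b) beta
not 0. (iii) coprime: Q = B (X - h). P h = (h-b)(h-a) A1 h = beta^2 al A1 h not 0. At a root z of B:
A1 z is not 0 (A z = (z - h) A1 z is not 0), z is not h, and z is not a, b for small beta (finitely
many roots, B h not 0). (isCoprime_of_roots in BT/Bdry.lean.) max degree = e + 1.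
(iv) multiplier at b: Wr P Q (b) / Q(b)^2 = (b - a) A1(b) / (B(b) (b - h)) = (1 - al) q(b), which
tends to (1 - w0^2) lam = 2 s - 1 as beta -> 0: modulus > 1 for small beta, so b is not attracted
(repelling_not_att). (v) c -> h -> infinity -> b, so c is not attracted (att_iter): rat P Q is not
HypMap. (vi) the coefficients of P, Q tend to those of ((X-h) A1 + h B)(X-h), B (X-h) as beta -> 0 (al stays
bounded): contradiction with Robust.
-/

/-- the numerator of the family -/
private noncomputable def fxP (A1 B : Polynomial ℂ) (h a b : ℂ) : Polynomial ℂ :=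
  C b * (B * (X - C h)) + (X - C b) * (X - C a) * A1

private theorem fx_alg {A1 B : Polynomial ℂ} {h β w al : ℂ} (hw1 : w - 1 ≠ 0)
    (hA1 : A1.eval (h + β * w) ≠ 0) (hB : B.eval (h + β * w) ≠ 0)
    (hal : al = w + w / ((w - 1) * (A1.eval (h + β * w) / B.eval (h + β * w))))
    (hS : 1 - (A1.eval (h + β * w) / B.eval (h + β * w) + β * w * (w - 1) *
      ((Wr A1 B).eval (h + β * w) / (B.eval (h + β * w)) ^ 2)) /
      ((w - 1) ^ 2 * (A1.eval (h + β * w) / B.eval (h + β * w)) ^ 2) = 0) :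
    (Wr (fxP A1 B h (h + β * al) (h + β)) (B * (X - C h))).eval (h + β * w) = 0 ∧
    (fxP A1 B h (h + β * al) (h + β)).eval (h + β * w) =
      h * (B * (X - C h)).eval (h + β * w) := by
  have hwr : (Wr A1 B).eval (h + β * w) = (derivative A1).eval (h + β * w) * B.eval (h + β * w) -
      A1.eval (h + β * w) * (derivative B).eval (h + β * w) := by
    simp [Wr]
  have hPe : (fxP A1 B h (h + β * al) (h + β)).eval (h + β * w) =
      (h + β) * (B.eval (h + β * w) * (β * w)) + β ^ 2 * (w - 1) * (w - al) *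
      A1.eval (h + β * w) := by
    simp only [fxP, eval_add, eval_mul, eval_sub, eval_X, eval_C]
    ring
  have hQe : (B * (X - C h)).eval (h + β * w) = B.eval (h + β * w) * (β * w) := by
    simp only [eval_mul, eval_sub, eval_X, eval_C]
    ring
  have hPd : (derivative (fxP A1 B h (h + β * al) (h + β))).eval (h + β * w) =
      (h + β) * ((derivative B).eval (h + β * w) * (β * w) + B.eval (h + β * w)) +
      β * ((w - al) + (w - 1)) * A1.eval (h + β * w) +
      β ^ 2 * (w - 1) * (w - al) * (derivative A1).eval (h + β * w) := by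
    simp only [fxP, derivative_add, derivative_mul, derivative_sub, derivative_X, derivative_C,
      eval_add, eval_mul, eval_sub, eval_X, eval_C, eval_one, eval_zero]
    ring
  have hQd : (derivative (B * (X - C h))).eval (h + β * w) =
      (derivative B).eval (h + β * w) * (β * w) + B.eval (h + β * w) := by
    simp only [derivative_mul, derivative_sub, derivative_X, derivative_C,
      eval_add, eval_mul, eval_sub, eval_X, eval_C, eval_one, eval_zero]
    ring
  have hWe : (Wr (fxP A1 B h (h + β * al) (h + β)) (B * (X - C h))).eval (h + β * w) =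
      (derivative (fxP A1 B h (h + β * al) (h + β))).eval (h + β * w) *
        (B * (X - C h)).eval (h + β * w) -
      (fxP A1 B h (h + β * al) (h + β)).eval (h + β * w) *
        (derivative (B * (X - C h))).eval (h + β * w) := by
    rw [Wr, eval_sub, eval_mul (p := derivative _), eval_mul (q := derivative _)]
  rw [hwr] at hS
  generalize A1.eval (h + β * w) = Ac at *
  generalize B.eval (h + β * w) = Bc at *
  generalize (derivative A1).eval (h + β * w) = Ad at *
  generalize (derivative B).eval (h + β * w) = Bd at *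
  have E1 : (w - 1) ^ 2 * Ac ^ 2 = Ac * Bc + β * w * (w - 1) * (Ad * Bc - Ac * Bd) := by
    field_simp at hS
    linear_combination hS
  have E2 : (al - w) * (w - 1) * Ac = w * Bc := by
    rw [hal]
    field_simp
    ring
  have R0 : Bc * w + (w - 1) * (w - al) * Ac = 0 := by
    linear_combination -E2
  have T0 : β * w * Bd + Bc + ((w - al) + (w - 1)) * Ac + β * (w - 1) * (w - al) * Ad = 0 := by
    have : (w - 1) * Ac ≠ 0 := mul_ne_zero hw1 hA1
    apply mul_left_cancel₀ this
    linear_combination E1 - (Ac + β * (w - 1) * Ad) * E2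
  constructor
  · rw [hWe, hPd, hQd, hPe, hQe]
    linear_combination (β ^ 2 * w * Bc) * T0 - β ^ 2 * (Bd * (β * w) + Bc) * R0
  · rw [hPe, hQe]
    linear_combination β ^ 2 * R0

private theorem fx_near {A1 B : Polynomial ℂ} {h : ℂ} {ρ : ℝ} (hρ : 0 < ρ) (e : ℕ)
    (hB : B.natDegree ≤ e) (hA1 : A1.natDegree + 2 ≤ e) :
    ∀ᶠ p : ℂ × ℂ in 𝓝 (h, h),
      ∀ i, ‖(fxP A1 B h p.1 p.2).coeff i - (((X - C h) * A1 + C h * B) * (X - C h)).coeff i‖ < ρ := by
  have hc : ∀ i, Continuous (fun p : ℂ × ℂ => (fxP A1 B h p.1 p.2).coeff i) := by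
    intro i
    have : (fun p : ℂ × ℂ => (fxP A1 B h p.1 p.2).coeff i) = fun p : ℂ × ℂ =>
        p.2 * (B * (X - C h)).coeff i + ((X * X * A1).coeff i - (p.1 + p.2) * (X * A1).coeff i +
          p.1 * p.2 * A1.coeff i) := by
      funext p
      have : fxP A1 B h p.1 p.2 = C p.2 * (B * (X - C h)) + (X * X * A1 - C (p.1 + p.2) * (X * A1) +
          C (p.1 * p.2) * A1) := by
        rw [fxP, C_add, C_mul]
        ring
      rw [this, coeff_add, coeff_C_mul, coeff_add, coeff_sub, coeff_C_mul, coeff_C_mul]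
    rw [this]
    fun_prop
  have h0 : fxP A1 B h h h = ((X - C h) * A1 + C h * B) * (X - C h) := by
    rw [fxP]; ring
  have hdeg : ∀ a b : ℂ, (fxP A1 B h a b).natDegree ≤ e + 1 := by
    intro a b
    unfold fxP
    compute_degree
    omega
  have h1 : ∀ᶠ p : ℂ × ℂ in 𝓝 (h, h), ∀ i ∈ Finset.range (e + 2),
      ‖(fxP A1 B h p.1 p.2).coeff i - (fxP A1 B h h h).coeff i‖ < ρ := by
    rw [Filter.eventually_all_finset]
    intro i _
    have := (hc i).tendsto (h, h)
    have := this.eventually (ball_mem_nhds _ hρ)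
    filter_upwards [this] with p hp
    rw [← dist_eq_norm]
    exact hp
  filter_upwards [h1] with p hp i
  rw [← h0]
  by_cases hi : i ∈ Finset.range (e + 2)
  · exact hp i hi
  · have hi' : e + 1 < i := by
      rw [Finset.mem_range] at hi
      omega
    rw [coeff_eq_zero_of_natDegree_lt ((hdeg _ _).trans_lt hi'),
      coeff_eq_zero_of_natDegree_lt ((hdeg _ _).trans_lt hi'), sub_zero, norm_zero]
    exact hρ

private theorem exists_s {l : ℂ} (hl : l ≠ 0) : ∃ s : ℂ, s ^ 2 = l ∧ 1 < ‖2 * s - 1‖ := by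
  obtain ⟨s, hs⟩ := IsAlgClosed.exists_pow_nat_eq l (n := 2) (by norm_num)
  by_cases h1 : 1 < ‖2 * s - 1‖
  · exact ⟨s, hs, h1⟩
  by_cases h2 : 1 < ‖2 * (-s) - 1‖
  · exact ⟨-s, by rw [neg_sq, hs], h2⟩
  exfalso
  push Not at h1 h2
  have e1 : ‖2 * s - 1‖ ^ 2 ≤ 1 := by nlinarith [norm_nonneg (2 * s - 1)]
  have e2 : ‖2 * (-s) - 1‖ ^ 2 ≤ 1 := by nlinarith [norm_nonneg (2 * (-s) - 1)]
  rw [Complex.sq_norm, Complex.normSq_apply] at e1 e2
  simp at e1 e2
  have r1 : s.re = 0 := by nlinarith [sq_nonneg s.re, sq_nonneg s.im]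
  have r2 : s.im = 0 := by nlinarith [sq_nonneg s.re, sq_nonneg s.im]
  have : s = 0 := Complex.ext r1 r2
  rw [this] at hs
  exact hl (by rw [← hs]; norm_num)

private theorem an_poly (R : Polynomial ℂ) {f : ℂ × ℂ → ℂ} {x : ℂ × ℂ} (hf : AnalyticAt ℂ f x) :
    AnalyticAt ℂ (fun p => R.eval (f p)) x := by
  simpa using hf.aeval_polynomial R

theorem not_robust_fix {A1 B : Polynomial ℂ} {e : ℕ} {h : ℂ}
    (hcop : IsCoprime ((X - C h) * A1 + C h * B) B) (hB : B.natDegree = e)
    (hA1 : A1.natDegree + 2 ≤ e) (hBh : B.eval h ≠ 0) (hA1h : A1.eval h ≠ 0)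
    (hlt : ‖A1.eval h / B.eval h‖ < 1) :
    ¬ Robust (e + 1) (((X - C h) * A1 + C h * B) * (X - C h)) (B * (X - C h)) := by
  rintro ⟨ρ, hρ, hrob⟩
  have hl0 : A1.eval h / B.eval h ≠ 0 := div_ne_zero hA1h hBh
  obtain ⟨s, hs, hs1⟩ := exists_s hl0
  have hs0 : s ≠ 0 := by
    rintro rfl
    exact hl0 (by rw [← hs]; norm_num)
  have hsn1 : s ≠ 1 := by
    rintro rfl
    norm_num at hs1
  obtain ⟨w0, hw0⟩ : ∃ w0 : ℂ, w0 = 1 - 1 / s := ⟨_, rfl⟩
  have hw01 : w0 - 1 ≠ 0 := by
    have : w0 - 1 = - (1 / s) := by rw [hw0]; ring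
    rw [this]
    exact neg_ne_zero.2 (one_div_ne_zero hs0)
  have hw00 : w0 ≠ 0 := by
    intro h0
    apply hsn1
    rw [hw0] at h0
    field_simp at h0
    linear_combination h0
  let q : ℂ × ℂ → ℂ := fun p => A1.eval (h + p.2 * p.1) / B.eval (h + p.2 * p.1)
  let al : ℂ × ℂ → ℂ := fun p => p.1 + p.1 / ((p.1 - 1) * q p)
  let S : ℂ × ℂ → ℂ := fun p => 1 - (q p + p.2 * p.1 * (p.1 - 1) *
    ((Wr A1 B).eval (h + p.2 * p.1) / (B.eval (h + p.2 * p.1)) ^ 2)) /
    ((p.1 - 1) ^ 2 * (q p) ^ 2)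
  have hz : h + ((w0, (0 : ℂ)) : ℂ × ℂ).2 * ((w0, (0 : ℂ)) : ℂ × ℂ).1 = h := by simp
  have a1 : AnalyticAt ℂ (fun p : ℂ × ℂ => p.1) (w0, 0) := analyticAt_fst
  have a2 : AnalyticAt ℂ (fun p : ℂ × ℂ => p.2) (w0, 0) := analyticAt_snd
  have ac : AnalyticAt ℂ (fun p : ℂ × ℂ => h + p.2 * p.1) (w0, 0) :=
    analyticAt_const.add (a2.mul a1)
  have aq : AnalyticAt ℂ q (w0, 0) := by
    refine (an_poly A1 ac).div (an_poly B ac) ?_
    rw [hz]; exact hBh
  have hq0 : q (w0, 0) = s ^ 2 := by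
    show A1.eval (h + 0 * w0) / B.eval (h + 0 * w0) = s ^ 2
    rw [zero_mul, add_zero, hs]
  have hqn : q (w0, 0) ≠ 0 := by rw [hq0]; exact pow_ne_zero _ hs0
  have aal : AnalyticAt ℂ al (w0, 0) := by
    refine a1.add (a1.div ((a1.sub analyticAt_const).mul aq) ?_)
    exact mul_ne_zero hw01 hqn
  have hal0 : al (w0, 0) = w0 ^ 2 := by
    show w0 + w0 / ((w0 - 1) * q (w0, 0)) = w0 ^ 2
    rw [hq0]
    have : w0 - 1 = - (1 / s) := by rw [hw0]; ring
    rw [this, hw0]
    field_simp
    ring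
  have aS : AnalyticAt ℂ S (w0, 0) := by
    refine analyticAt_const.sub ((aq.add (((a2.mul a1).mul (a1.sub analyticAt_const)).mul
      ((an_poly (Wr A1 B) ac).div ((an_poly B ac).pow 2) ?_))).div
      (((a1.sub analyticAt_const).pow 2).mul (aq.pow 2)) ?_)
    · rw [Pi.pow_apply, hz]
      exact pow_ne_zero _ hBh
    · exact mul_ne_zero (pow_ne_zero _ hw01) (pow_ne_zero _ hqn)
  have hSw : ∀ w : ℂ, S (w, 0) = 1 - s ^ 2 / ((w - 1) ^ 2 * (s ^ 2) ^ 2) := by
    intro w
    show 1 - (A1.eval (h + 0 * w) / B.eval (h + 0 * w) + 0 * w * (w - 1) *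
      ((Wr A1 B).eval (h + 0 * w) / (B.eval (h + 0 * w)) ^ 2)) /
      ((w - 1) ^ 2 * (A1.eval (h + 0 * w) / B.eval (h + 0 * w)) ^ 2) = _
    rw [zero_mul, add_zero, zero_mul, zero_mul, add_zero, hs]
  have hS0 : S (w0, 0) = 0 := by
    rw [hSw]
    have : w0 - 1 = - (1 / s) := by rw [hw0]; ring
    rw [this]
    field_simp
    ring
  have hSiso : ∀ᶠ w in 𝓝[≠] w0, S (w, 0) ≠ 0 := by
    have hne : w0 ≠ 1 + 1 / s := by
      intro hcon
      rw [hw0] at hcon
      field_simp at hcon
      have : (2 : ℂ) = 0 := by linear_combination - hcon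
      norm_num at this
    have h1 : ∀ᶠ w in 𝓝[≠] w0, w ≠ 1 + 1 / s :=
      (continuous_id.continuousAt.eventually_ne hne).filter_mono nhdsWithin_le_nhds
    have h2 : ∀ᶠ w in 𝓝[≠] w0, w ≠ 1 :=
      (continuous_id.continuousAt.eventually_ne (sub_ne_zero.1 hw01)).filter_mono
        nhdsWithin_le_nhds
    filter_upwards [h1, h2, self_mem_nhdsWithin] with w hw1 hw2 hw3 h0
    rw [hSw] at h0
    have hw2' : w - 1 ≠ 0 := sub_ne_zero.2 hw2
    field_simp at h0
    have h4 : (s * (w - 1) - 1) * (s * (w - 1) + 1) = 0 := by linear_combination h0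
    rcases mul_eq_zero.1 h4 with h5 | h5
    · apply hw1
      field_simp
      linear_combination h5
    · apply hw3
      show w = w0
      rw [hw0]
      field_simp
      linear_combination h5
  -- conditions near (w0, 0)
  have ta : Tendsto (fun p : ℂ × ℂ => h + p.2 * al p) (𝓝 (w0, 0)) (𝓝 h) := by
    have h1 : ContinuousAt (fun p : ℂ × ℂ => h + p.2 * al p) (w0, 0) :=
      continuousAt_const.add (a2.continuousAt.mul aal.continuousAt)
    have h2 : h + ((w0, (0 : ℂ)) : ℂ × ℂ).2 * al (w0, 0) = h := by simp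
    have h3 : Tendsto (fun p : ℂ × ℂ => h + p.2 * al p) (𝓝 (w0, 0))
        (𝓝 (h + ((w0, (0 : ℂ)) : ℂ × ℂ).2 * al (w0, 0))) := h1
    rwa [h2] at h3
  have tb : Tendsto (fun p : ℂ × ℂ => h + p.2) (𝓝 (w0, 0)) (𝓝 h) := by
    have h1 : Continuous (fun p : ℂ × ℂ => h + p.2) := by fun_prop
    have h2 := h1.tendsto (w0, 0)
    simpa using h2
  have tc : Tendsto (fun p : ℂ × ℂ => h + p.2 * p.1) (𝓝 (w0, 0)) (𝓝 h) := by
    have h1 := ac.continuousAt.tendsto
    rwa [hz] at h1
  have c1 : ∀ᶠ p : ℂ × ℂ in 𝓝 (w0, 0), p.1 ≠ 0 := a1.continuousAt.eventually_ne hw00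
  have c2 : ∀ᶠ p : ℂ × ℂ in 𝓝 (w0, 0), p.1 - 1 ≠ 0 :=
    (a1.sub analyticAt_const).continuousAt.eventually_ne hw01
  have cB : ∀ᶠ z in 𝓝 h, B.eval z ≠ 0 := B.continuous.continuousAt.eventually_ne hBh
  have cA : ∀ᶠ z in 𝓝 h, A1.eval z ≠ 0 := A1.continuous.continuousAt.eventually_ne hA1h
  have c3 : ∀ᶠ p : ℂ × ℂ in 𝓝 (w0, 0), al p ≠ 0 :=
    aal.continuousAt.eventually_ne (by rw [hal0]; exact pow_ne_zero _ hw00)
  have c4 : ∀ᶠ p : ℂ × ℂ in 𝓝 (w0, 0),
      1 < ‖(1 - al p) * (A1.eval (h + p.2) / B.eval (h + p.2))‖ := by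
    have ab : AnalyticAt ℂ (fun p : ℂ × ℂ => h + p.2) (w0, 0) := analyticAt_const.add a2
    have h1 : AnalyticAt ℂ (fun p : ℂ × ℂ =>
        (1 - al p) * (A1.eval (h + p.2) / B.eval (h + p.2))) (w0, 0) := by
      refine (analyticAt_const.sub aal).mul ((an_poly A1 ab).div (an_poly B ab) ?_)
      simpa using hBh
    have h2 := h1.continuousAt.norm.tendsto
    refine h2.eventually (lt_mem_nhds ?_)
    have h3 : (1 - al (w0, 0)) * (A1.eval (h + ((w0, (0 : ℂ)) : ℂ × ℂ).2) /
        B.eval (h + ((w0, (0 : ℂ)) : ℂ × ℂ).2)) = 2 * s - 1 := by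
      rw [hal0]
      show (1 - w0 ^ 2) * (A1.eval (h + 0) / B.eval (h + 0)) = 2 * s - 1
      rw [add_zero, ← hs, hw0]
      field_simp
      ring
    rw [h3]
    exact hs1
  have c5 : ∀ᶠ p : ℂ × ℂ in 𝓝 (w0, 0), ∀ i,
      ‖(fxP A1 B h (h + p.2 * al p) (h + p.2)).coeff i -
        (((X - C h) * A1 + C h * B) * (X - C h)).coeff i‖ < ρ :=
    (ta.prodMk_nhds tb).eventually (fx_near hρ e hB.le hA1)
  have call := c1.and (c2.and (c3.and (c4.and (c5.and ((ta.eventually cB).and
    ((tb.eventually cB).and ((tc.eventually cB).and (tc.eventually cA))))))))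
  rw [nhds_prod_eq] at call
  obtain ⟨pw, hpw, pb, hpb, hG⟩ := eventually_prod_iff.1 call
  have hz1 := zero_persists aS hS0 hSiso (N := {w | pw w}) hpw
  obtain ⟨β, ⟨⟨w, hwN, hSz⟩, hβb⟩, hβ0⟩ :=
    (((hz1.and hpb).filter_mono nhdsWithin_le_nhds).and
      (self_mem_nhdsWithin (a := (0 : ℂ)) (s := {0}ᶜ))).exists
  have hβ : β ≠ 0 := hβ0
  obtain ⟨g1, g2, g3, g4, g5, gBa, gBb, gBc, gAc⟩ := hG hwN hβb
  dsimp only at g1 g2 g3 g4 g5 gBa gBb gBc gAc
  obtain ⟨a, ha⟩ : ∃ a : ℂ, a = al (w, β) := ⟨_, rfl⟩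
  rw [← ha] at g3 g4 g5 gBa
  obtain ⟨hWc, hPc⟩ := fx_alg (A1 := A1) (B := B) (h := h) (β := β) (w := w) (al := a) g2 gAc gBc
    ha hSz
  set P := fxP A1 B h (h + β * a) (h + β) with hP
  set Q := B * (X - C h) with hQ
  have hB0 : B ≠ 0 := by
    rintro rfl
    simp at hBh
  have hQdeg : Q.natDegree = e + 1 := by
    rw [hQ, natDegree_mul hB0 (X_sub_C_ne_zero h), natDegree_X_sub_C, hB]
  have hPdeg : P.natDegree ≤ e + 1 := by
    have := hB.le
    rw [hP]
    unfold fxP
    compute_degree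
    omega
  have hmax : max P.natDegree Q.natDegree = e + 1 := by
    rw [hQdeg]; exact max_eq_right hPdeg
  have hcopPQ : IsCoprime P Q := by
    apply isCoprime_of_roots
    intro z
    by_contra hcon
    push Not at hcon
    obtain ⟨hp, hq⟩ := hcon
    rw [hQ, eval_mul, eval_sub, eval_X, eval_C] at hq
    have hp' : (h + β) * (B.eval z * (z - h)) + (z - (h + β)) * (z - (h + β * a)) * A1.eval z = 0 := by
      rw [← hp, hP]
      simp only [fxP, eval_add, eval_mul, eval_sub, eval_X, eval_C]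
    rw [hq, mul_zero, zero_add] at hp'
    rcases mul_eq_zero.1 hq with hq | hq
    · rcases coprime_eval hcop z with h1 | h1
      · apply h1
        rcases mul_eq_zero.1 hp' with h2 | h2
        · rcases mul_eq_zero.1 h2 with h3 | h3
          · exact absurd (by rw [← sub_eq_zero.1 h3]; exact hq) gBb
          · exact absurd (by rw [← sub_eq_zero.1 h3]; exact hq) gBa
        · simp [h2, hq]
      · exact h1 hq
    · rw [sub_eq_zero.1 hq] at hp'
      have h1 : (h - (h + β)) * (h - (h + β * a)) * A1.eval h = β ^ 2 * a * A1.eval h := by ring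
      rw [h1] at hp'
      exact mul_ne_zero (mul_ne_zero (pow_ne_zero _ hβ) g3) hA1h hp'
  have hhyp : HypMap (rat P Q) := hrob P Q hcopPQ hmax (fun i => ⟨g5 i, by simpa using hρ⟩)
  have hd1 : 1 ≤ max P.natDegree Q.natDegree := by rw [hmax]; omega
  have hcrit := crit_of_wr hcopPQ hd1 hWc
  have hatt := hhyp _ hcrit
  -- orbit
  have hfb : rat P Q (OnePoint.some (h + β * w)) = OnePoint.some h := by
    have hQc : Q.eval (h + β * w) ≠ 0 := by
      rw [hQ, eval_mul, eval_sub, eval_X, eval_C, add_sub_cancel_left]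
      exact mul_ne_zero gBc (mul_ne_zero hβ g1)
    rw [rat_coe_of_ne hQc, hPc, mul_div_assoc, div_self hQc, mul_one]
  have hfh : rat P Q (OnePoint.some h) = ∞ := by
    rw [rat_coe]
    have : Q.eval h = 0 := by rw [hQ]; simp
    rw [this]
    unfold pt
    rw [if_pos rfl]
  have hfi : rat P Q ∞ = OnePoint.some (h + β) := by
    have hQc : Q.coeff (e + 1) = B.coeff e := by
      rw [hQ, mul_sub, coeff_sub, coeff_mul_X, coeff_mul_C, coeff_eq_zero_of_natDegree_lt
        (show B.natDegree < e + 1 by omega), zero_mul, sub_zero]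
    have hPc' : P.coeff (e + 1) = (h + β) * B.coeff e := by
      have h1 : ((X - C (h + β)) * (X - C (h + β * a)) * A1).natDegree < e + 1 := by
        have : ((X - C (h + β)) * (X - C (h + β * a)) * A1).natDegree ≤ 2 + A1.natDegree := by
          compute_degree
        omega
      rw [hP, fxP, coeff_add, coeff_C_mul, ← hQ, hQc, coeff_eq_zero_of_natDegree_lt h1, add_zero]
    have hBe : B.coeff e ≠ 0 := by
      rw [← hB]
      exact leadingCoeff_ne_zero.2 hB0
    have hdg : dg P Q = e + 1 := hmax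
    rw [rat_infty, hdg, hQc, hPc']
    unfold pt
    rw [if_neg hBe, mul_div_assoc, div_self hBe, mul_one]
  have horb : (rat P Q)^[3] (OnePoint.some (h + β * w)) = OnePoint.some (h + β) := by
    rw [Function.iterate_succ_apply, Function.iterate_succ_apply, Function.iterate_succ_apply,
      hfb, hfh, hfi]
    rfl
  rw [← att_iter (rat_continuous hcopPQ) _ 3, horb] at hatt
  have hQb : Q.eval (h + β) = B.eval (h + β) * β := by
    rw [hQ, eval_mul, eval_sub, eval_X, eval_C, add_sub_cancel_left]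
  have hPb : P.eval (h + β) = (h + β) * Q.eval (h + β) := by
    rw [hQb, hP]
    simp only [fxP, eval_add, eval_mul, eval_sub, eval_X, eval_C]
    ring
  refine repelling_not_att hcopPQ hd1 (b := h + β) hPb ?_ ?_ hatt
  · rw [hQb]
    exact mul_ne_zero gBb hβ
  · have hPd : (derivative P).eval (h + β) = (h + β) * (derivative Q).eval (h + β) +
        β * (1 - a) * A1.eval (h + β) + Q.eval (h + β) * 0 := by
      rw [hP, hQ]
      simp only [fxP, derivative_add, derivative_mul, derivative_sub, derivative_X, derivative_C,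
        eval_add, eval_mul, eval_sub, eval_X, eval_C, eval_one, eval_zero]
      ring
    have : (Wr P Q).eval (h + β) / (Q.eval (h + β)) ^ 2 =
        (1 - a) * (A1.eval (h + β) / B.eval (h + β)) := by
      rw [Wr, eval_sub, eval_mul (p := derivative P) (q := Q),
        eval_mul (p := P) (q := derivative Q), hPb, hPd, hQb]
      field_simp
      ring
    rw [this]
    exact g4

end Pool.Agent.H32.RB
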