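import Pool.Agent.H32.RB.Rep
import Pool.Agent.H32.RB.Hur

set_option autoImplicit false

open Filter Topology Polynomial OnePoint Metric Set

namespace Pool.Agent.H32.RB

open Pool.Agent.H44.Fatou Pool.Agent.H32.BT

/-
The hole h = x 0 is periodic of period p >= 2: then (A (X-h), B (X-h)) is not robust.
For (b, d) near (h, 0) put c = b + d, N(z) = A(z) - b B(z), N'(z) = A'(z) - b B'(z), W = Wr A B,
  s = - d W(c) / (N(c) + d N'(c)),  t = d s,  P = A (X - b) + t b,  Q = B (X - b) + t.
At (h, 0): N(h) = A(h) - h B(h) is not 0 since x 1 is not h (p >= 2). So s is analytic at (h,0), s = 0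
there.
(i) P - bQ = (A - bB)(X - b), P(b) = b Q(b), Q(b) = t. For t not 0 (and (b,d) near (h,0)): coprime,
natDegree Q = e + 1, near (A(X-h), B(X-h)), as in LandC.lean (open_inR for (A - hB, B(X-h))).
Multiplier at b: Wr P Q (b) / Q(b)^2 = N(b) / t, modulus > 1: b is not attracted.
(ii) c is critical: Q(c) = B(c) d + t = d (B(c) + s), not 0 for d not 0 near 0 (B(h) not 0), and
Wr P Q = Wr (P - bQ) Q at c equals (N' d + N) Q(c) - N d (B' d + B) (all at c)
= t (d N' + N) + d^2 (B N' - N B') and B N' - N B' = A'B - AB' = W: so it is 0 by the choice of t.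
(iii) its value: P(c)/Q(c) = b + N(c) d / Q(c) = b + N(c) / (B(c) + s) =: y 1, analytic at (h,0), value
x 1 there. y (j+1) = (A(y j)(y j - b) + t b) / (B(y j)(y j - b) + t) for 1 <= j < p, analytic at
(h,0) with value x j (denominator B(x j)(x j - h) not 0). F(b,d) = y p - b. F(h,0) = x p - h = 0.
For d = 0: t = 0, c = b, y j (b,0) = j-th iterate of b under A/B (for b near h), so F(b,0) is not 0 for
b near h, b not h, by hiso (the iterates are finite, rat_coe_of_ne). zero_persists: for all small d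
there is b as close to h as we want with F(b,d) = 0.
(iv) For d not 0 small this t is not 0: otherwise W(c) = 0; W is not the zero polynomial
(H91 Generic wr_ne_zero), so near h its only possible zero is h, so c = h, i.e. b = h - d; then s = 0,
y 1 = b + N(h)/B(h) = A(h)/B(h) = x 1, y j = x j for all j (t = 0, y j not b), y p = h, and
F = h - b = d is not 0: contradiction.
(v) So rat P Q has the critical point c with p-th iterate b not attracted: c is not attracted
(att_iter), contradiction with HypMap (rat P Q) from Robust.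
-/

theorem landp_bound (A : Polynomial ℂ) : ∃ M : ℝ, 0 ≤ M ∧ ∀ i, ‖A.coeff i‖ ≤ M := by
  refine ⟨∑ i ∈ Finset.range (A.natDegree + 1), ‖A.coeff i‖,
    Finset.sum_nonneg fun i _ => norm_nonneg _, fun i => ?_⟩
  by_cases hi : i < A.natDegree + 1
  · exact Finset.single_le_sum (f := fun i => ‖A.coeff i‖) (fun i _ => norm_nonneg _)
      (Finset.mem_range.2 hi)
  · rw [coeff_eq_zero_of_natDegree_lt (by omega), norm_zero]
    exact Finset.sum_nonneg fun i _ => norm_nonneg _

theorem landp_cop (P : Polynomial ℂ) {t : ℂ} (ht : t ≠ 0) : IsCoprime P (C t) :=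
  ⟨0, C t⁻¹, by rw [zero_mul, zero_add, ← C_mul, inv_mul_cancel₀ ht, C_1]⟩

theorem landp_final {A B : Polynomial ℂ} {e : ℕ} (hB : B.natDegree = e) (hA : A.natDegree ≤ e)
    (he : 2 ≤ e) {b t c : ℂ}
    (hcop' : IsCoprime (A - C b * B) (B * (X - C b) + C t)) (ht : t ≠ 0)
    (hrob : IsCoprime (A * (X - C b) + C (t * b)) (B * (X - C b) + C t) →
      max (A * (X - C b) + C (t * b)).natDegree (B * (X - C b) + C t).natDegree = e + 1 →
      HypMap (rat (A * (X - C b) + C (t * b)) (B * (X - C b) + C t)))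
    (hmul : ‖t‖ < ‖A.eval b - b * B.eval b‖)
    (hcrit : t * ((A.eval c - b * B.eval c) +
      (c - b) * ((derivative A).eval c - b * (derivative B).eval c)) +
      (c - b) ^ 2 * (Wr A B).eval c = 0)
    (Y : ℕ → ℂ) (m : ℕ) (hQc : B.eval c * (c - b) + t ≠ 0)
    (hY0 : (A.eval c * (c - b) + t * b) / (B.eval c * (c - b) + t) = Y 0)
    (hQY : ∀ j < m, B.eval (Y j) * (Y j - b) + t ≠ 0)
    (hY : ∀ j < m, (A.eval (Y j) * (Y j - b) + t * b) / (B.eval (Y j) * (Y j - b) + t) = Y (j + 1))
    (hYm : Y m = b) : False := by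
  set P : Polynomial ℂ := A * (X - C b) + C (t * b) with hP
  set Q : Polynomial ℂ := B * (X - C b) + C t with hQ
  have hevP : ∀ z : ℂ, P.eval z = A.eval z * (z - b) + t * b := by
    intro z; rw [hP]; simp
  have hevQ : ∀ z : ℂ, Q.eval z = B.eval z * (z - b) + t := by
    intro z; rw [hQ]; simp
  have hB0 : B ≠ 0 := by
    rintro rfl
    rw [natDegree_zero] at hB
    omega
  have hdQ : Q.natDegree = e + 1 := by
    rw [hQ, natDegree_add_C, natDegree_mul hB0 (X_sub_C_ne_zero b), natDegree_X_sub_C, hB]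
  have hdP : P.natDegree ≤ e + 1 := by
    rw [hP, natDegree_add_C]
    refine natDegree_mul_le.trans ?_
    rw [natDegree_X_sub_C]
    omega
  have hmax : max P.natDegree Q.natDegree = e + 1 := by
    rw [hdQ]; exact max_eq_right hdP
  have hcop : IsCoprime P Q := by
    have h1 : IsCoprime (X - C b) Q := by
      have h2 : Q = C t + B * (X - C b) := by rw [hQ]; ring
      have h3 : IsCoprime (X - C b) (C t) := landp_cop _ ht
      rw [h2]
      exact (IsCoprime.add_mul_right_right_iff).2 h3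
    have h4 : IsCoprime ((A - C b * B) * (X - C b)) Q := IsCoprime.mul_left hcop' h1
    have h5 : (A - C b * B) * (X - C b) = P + (-C b) * Q := by
      rw [hP, hQ, C_mul]; ring
    rw [h5] at h4
    exact (IsCoprime.add_mul_right_left_iff).1 h4
  have hyp := hrob hcop hmax
  have hd1 : 1 ≤ max P.natDegree Q.natDegree := by omega
  have hWr : ∀ z : ℂ, (Wr P Q).eval z = t * ((A.eval z - b * B.eval z) +
      (z - b) * ((derivative A).eval z - b * (derivative B).eval z)) +
      (z - b) ^ 2 * (Wr A B).eval z := by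
    intro z
    unfold Wr
    rw [hP, hQ]
    simp only [derivative_add, derivative_mul, derivative_sub, derivative_X, derivative_C,
      eval_add, eval_sub, eval_mul, eval_X, eval_C, sub_zero, add_zero, mul_one]
    ring
  have hcr : IsCrit (rat P Q) (c : OnePoint ℂ) := crit_of_wr hcop hd1 (by rw [hWr]; exact hcrit)
  have hattc : Att (rat P Q) (c : OnePoint ℂ) := hyp _ hcr
  have hQb : Q.eval b ≠ 0 := by rw [hevQ]; simpa using ht
  have hnb : ¬ Att (rat P Q) (b : OnePoint ℂ) := by
    refine repelling_not_att hcop hd1 ?_ hQb ?_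
    · rw [hevP, hevQ]; ring
    · rw [hWr, hevQ]
      have h1 : (t * ((A.eval b - b * B.eval b) +
          (b - b) * ((derivative A).eval b - b * (derivative B).eval b)) +
          (b - b) ^ 2 * (Wr A B).eval b) / (B.eval b * (b - b) + t) ^ 2 =
          (A.eval b - b * B.eval b) / t := by
        rw [sub_self, zero_mul, mul_zero, zero_add, add_zero, zero_pow two_ne_zero, zero_mul,
          add_zero, pow_two, mul_div_mul_left _ _ ht]
      rw [h1, norm_div, one_lt_div (norm_pos_iff.2 ht)]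
      exact hmul
  have hit : ∀ j ≤ m, (rat P Q)^[j + 1] (c : OnePoint ℂ) = (Y j : OnePoint ℂ) := by
    intro j
    induction j with
    | zero =>
      intro _
      rw [zero_add, Function.iterate_one, rat_coe_of_ne (by rw [hevQ]; exact hQc), hevP, hevQ, hY0]
    | succ j ih =>
      intro hj
      rw [Function.iterate_succ_apply', ih (by omega),
        rat_coe_of_ne (by rw [hevQ]; exact hQY j (by omega)), hevP, hevQ, hY j (by omega)]
  have hfin := hit m le_rfl
  rw [hYm] at hfin
  apply hnb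
  rw [← hfin, att_iter (rat_continuous hcop)]
  exact hattc

/-- the parameter `s` -/
noncomputable def landp_s (A B : Polynomial ℂ) (p : ℂ × ℂ) : ℂ :=
  -(p.2 * (Wr A B).eval (p.1 + p.2)) / ((A.eval (p.1 + p.2) - p.1 * B.eval (p.1 + p.2)) +
    p.2 * ((derivative A).eval (p.1 + p.2) - p.1 * (derivative B).eval (p.1 + p.2)))

/-- the orbit -/
noncomputable def landp_Y (A B : Polynomial ℂ) : ℕ → ℂ × ℂ → ℂ
  | 0, p => (A.eval (p.1 + p.2) + landp_s A B p * p.1) / (B.eval (p.1 + p.2) + landp_s A B p)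
  | j + 1, p => (A.eval (landp_Y A B j p) * (landp_Y A B j p - p.1) +
      p.2 * landp_s A B p * p.1) / (B.eval (landp_Y A B j p) * (landp_Y A B j p - p.1) +
      p.2 * landp_s A B p)

theorem landp_eval {A : Polynomial ℂ} {u : ℂ × ℂ → ℂ} {q : ℂ × ℂ} (hu : AnalyticAt ℂ u q) :
    AnalyticAt ℂ (fun p => A.eval (u p)) q := by
  have h1 := hu.aeval_polynomial A
  simpa [Polynomial.coe_aeval_eq_eval] using h1

theorem landp_s_an {A B : Polynomial ℂ} {h : ℂ} (hne : A.eval h - h * B.eval h ≠ 0) :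
    AnalyticAt ℂ (landp_s A B) (h, 0) ∧ landp_s A B (h, 0) = 0 := by
  have hfst : AnalyticAt ℂ (fun p : ℂ × ℂ => p.1) (h, (0 : ℂ)) := analyticAt_fst
  have hsnd : AnalyticAt ℂ (fun p : ℂ × ℂ => p.2) (h, (0 : ℂ)) := analyticAt_snd
  have hc : AnalyticAt ℂ (fun p : ℂ × ℂ => p.1 + p.2) (h, (0 : ℂ)) := hfst.add hsnd
  constructor
  · unfold landp_s
    refine AnalyticAt.div ?_ ?_ ?_
    · exact (hsnd.mul (landp_eval hc)).neg
    · exact ((landp_eval hc).sub (hfst.mul (landp_eval hc))).add
        (hsnd.mul ((landp_eval hc).sub (hfst.mul (landp_eval hc))))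
    · simpa using hne
  · unfold landp_s
    simp

theorem landp_Y_an {A B : Polynomial ℂ} {x : ℕ → ℂ} {m : ℕ}
    (hne0 : A.eval (x 0) - x 0 * B.eval (x 0) ≠ 0)
    (hne : ∀ j, 0 < j → j < m + 1 → x j ≠ x 0)
    (hden : ∀ j < m + 1, B.eval (x j) ≠ 0)
    (hstep : ∀ j < m + 1, A.eval (x j) / B.eval (x j) = x (j + 1)) :
    ∀ j ≤ m, AnalyticAt ℂ (landp_Y A B j) (x 0, 0) ∧ landp_Y A B j (x 0, 0) = x (j + 1) := by
  obtain ⟨hs1, hs2⟩ := landp_s_an hne0
  have hfst : AnalyticAt ℂ (fun p : ℂ × ℂ => p.1) (x 0, (0 : ℂ)) := analyticAt_fst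
  have hsnd : AnalyticAt ℂ (fun p : ℂ × ℂ => p.2) (x 0, (0 : ℂ)) := analyticAt_snd
  have hc : AnalyticAt ℂ (fun p : ℂ × ℂ => p.1 + p.2) (x 0, (0 : ℂ)) := hfst.add hsnd
  intro j
  induction j with
  | zero =>
    intro _
    constructor
    · have : landp_Y A B 0 = fun p => (A.eval (p.1 + p.2) + landp_s A B p * p.1) /
          (B.eval (p.1 + p.2) + landp_s A B p) := by funext p; rfl
      rw [this]
      refine AnalyticAt.div ((landp_eval hc).add (hs1.mul hfst)) ((landp_eval hc).add hs1) ?_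
      rw [hs2]
      simpa using hden 0 (by omega)
    · show (A.eval (x 0 + 0) + landp_s A B (x 0, 0) * x 0) /
          (B.eval (x 0 + 0) + landp_s A B (x 0, 0)) = x (0 + 1)
      rw [hs2, add_zero, zero_mul, add_zero, add_zero]
      exact hstep 0 (by omega)
  | succ j ih =>
    intro hj
    obtain ⟨ih1, ih2⟩ := ih (by omega)
    have hd : B.eval (x (j + 1)) * (x (j + 1) - x 0) ≠ 0 :=
      mul_ne_zero (hden _ (by omega)) (sub_ne_zero.2 (hne _ (by omega) (by omega)))
    constructor
    · have : landp_Y A B (j + 1) = fun p => (A.eval (landp_Y A B j p) *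
          (landp_Y A B j p - p.1) + p.2 * landp_s A B p * p.1) /
          (B.eval (landp_Y A B j p) * (landp_Y A B j p - p.1) + p.2 * landp_s A B p) := by
        funext p; rfl
      rw [this]
      refine AnalyticAt.div (((landp_eval ih1).mul (ih1.sub hfst)).add ((hsnd.mul hs1).mul hfst))
        (((landp_eval ih1).mul (ih1.sub hfst)).add (hsnd.mul hs1)) ?_
      rw [ih2, hs2]
      simpa using hd
    · show (A.eval (landp_Y A B j (x 0, 0)) * (landp_Y A B j (x 0, 0) - x 0) +
          0 * landp_s A B (x 0, 0) * x 0) / (B.eval (landp_Y A B j (x 0, 0)) *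
          (landp_Y A B j (x 0, 0) - x 0) + 0 * landp_s A B (x 0, 0)) = x (j + 1 + 1)
      rw [ih2, zero_mul, zero_mul, add_zero, add_zero,
        mul_div_mul_right _ _ (sub_ne_zero.2 (hne _ (by omega) (by omega)))]
      exact hstep (j + 1) (by omega)

theorem not_robust_per {A B : Polynomial ℂ} {e : ℕ} (hcop : IsCoprime A B)
    (hB : B.natDegree = e) (hA : A.natDegree ≤ e) (he : 2 ≤ e) (x : ℕ → ℂ) (p : ℕ) (hp : 2 ≤ p)
    (hper : x p = x 0) (hne : ∀ j, 0 < j → j < p → x j ≠ x 0)
    (hden : ∀ j < p, B.eval (x j) ≠ 0)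
    (hstep : ∀ j < p, A.eval (x j) / B.eval (x j) = x (j + 1))
    (hiso : ∀ᶠ b in 𝓝[≠] (x 0), (rat A B)^[p] (b : OnePoint ℂ) ≠ (b : OnePoint ℂ)) :
    ¬ Robust (e + 1) (A * (X - C (x 0))) (B * (X - C (x 0))) := by
  rintro ⟨ρ, hρ, hrob⟩
  obtain ⟨m, rfl⟩ : ∃ m, p = m + 1 := ⟨p - 1, by omega⟩
  have hm : 1 ≤ m := by omega
  set h : ℂ := x 0 with hh
  have hB0 : B ≠ 0 := by
    rintro rfl
    rw [natDegree_zero] at hB
    omega
  have hBh : B.eval h ≠ 0 := hden 0 (by omega)
  have hne0 : A.eval h - h * B.eval h ≠ 0 := by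
    intro h1
    have h2 : A.eval h / B.eval h = h := by
      rw [div_eq_iff hBh]
      linear_combination h1
    have h3 := hstep 0 (by omega)
    rw [← hh, h2] at h3
    exact hne 1 (by omega) (by omega) h3.symm
  obtain ⟨hs1, hs2⟩ := landp_s_an hne0
  have hY := landp_Y_an hne0 hne hden hstep
  have hfst : AnalyticAt ℂ (fun p : ℂ × ℂ => p.1) (h, (0 : ℂ)) := analyticAt_fst
  have hsnd : AnalyticAt ℂ (fun p : ℂ × ℂ => p.2) (h, (0 : ℂ)) := analyticAt_snd
  have hc : AnalyticAt ℂ (fun p : ℂ × ℂ => p.1 + p.2) (h, (0 : ℂ)) := hfst.add hsnd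
  -- the degenerate pair for `open_inR`
  have hpair : IsCoprime (A - C h * B) (B * (X - C h)) := by
    have h1 : IsCoprime (A - C h * B) B := by
      have h2 : A - C h * B = A + (-C h) * B := by ring
      rw [h2]
      exact IsCoprime.add_mul_right_left_iff.2 hcop
    have h3 : IsCoprime (A - C h * B) (X - C h) := by
      refine IsCoprime.symm ?_
      have h4 : A - C h * B = C ((A - C h * B).eval h) + (X - C h) * ((A - C h * B) /ₘ (X - C h)) := by
        have h5 := modByMonic_add_div (A - C h * B) (X - C h)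
        rw [modByMonic_X_sub_C_eq_C_eval] at h5
        exact h5.symm
      rw [h4]
      refine IsCoprime.add_mul_left_right_iff.2 ?_
      refine landp_cop _ ?_
      simpa using hne0
    exact h1.mul_right h3
  have hdeg0 : (B * (X - C h)).natDegree = e + 1 := by
    rw [natDegree_mul hB0 (X_sub_C_ne_zero h), natDegree_X_sub_C, hB]
  have hdegAB : ∀ b : ℂ, (A - C b * B).natDegree ≤ e := by
    intro b
    refine (natDegree_sub_le _ _).trans (max_le hA ?_)
    exact (natDegree_C_mul_le _ _).trans hB.le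
  obtain ⟨η, hη, hopen⟩ := open_inR hpair (e := e + 1) (by
    rw [hdeg0]
    exact max_eq_right ((hdegAB h).trans (by omega)))
  obtain ⟨MA, hMA0, hMA⟩ := landp_bound A
  obtain ⟨MB, hMB0, hMB⟩ := landp_bound B
  -- the function for `zero_persists`
  set F : ℂ × ℂ → ℂ := fun p => landp_Y A B m p - p.1 with hF
  have hFan : AnalyticAt ℂ F (h, 0) := (hY m le_rfl).1.sub hfst
  have hF0 : F (h, 0) = 0 := by
    show landp_Y A B m (h, 0) - h = 0
    rw [(hY m le_rfl).2, hper, sub_self]
  -- continuity of the denominators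
  have hG3 : ∀ᶠ p : ℂ × ℂ in 𝓝 (h, 0), ∀ j ∈ Finset.range m,
      B.eval (landp_Y A B j p) * (landp_Y A B j p - p.1) + p.2 * landp_s A B p ≠ 0 := by
    rw [Filter.eventually_all_finset]
    intro j hj
    have hj' := Finset.mem_range.1 hj
    obtain ⟨h1, h2⟩ := hY j (by omega)
    have h3 : AnalyticAt ℂ (fun p : ℂ × ℂ => B.eval (landp_Y A B j p) *
        (landp_Y A B j p - p.1) + p.2 * landp_s A B p) (h, 0) :=
      ((landp_eval h1).mul (h1.sub hfst)).add (hsnd.mul hs1)
    refine h3.continuousAt.eventually_ne ?_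
    rw [h2, hs2]
    have hd : B.eval (x (j + 1)) * (x (j + 1) - h) ≠ 0 :=
      mul_ne_zero (hden _ (by omega)) (sub_ne_zero.2 (hne _ (by omega) (by omega)))
    simpa using hd
  have hG4 : ∀ᶠ p : ℂ × ℂ in 𝓝 (h, 0), ∀ j ∈ Finset.range m,
      B.eval (landp_Y A B j p) * (landp_Y A B j p - p.1) ≠ 0 := by
    rw [Filter.eventually_all_finset]
    intro j hj
    have hj' := Finset.mem_range.1 hj
    obtain ⟨h1, h2⟩ := hY j (by omega)
    have h3 : AnalyticAt ℂ (fun p : ℂ × ℂ => B.eval (landp_Y A B j p) *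
        (landp_Y A B j p - p.1)) (h, 0) := (landp_eval h1).mul (h1.sub hfst)
    refine h3.continuousAt.eventually_ne ?_
    rw [h2]
    exact mul_ne_zero (hden _ (by omega)) (sub_ne_zero.2 (hne _ (by omega) (by omega)))
  have hG2 : ∀ᶠ p : ℂ × ℂ in 𝓝 (h, 0), B.eval (p.1 + p.2) + landp_s A B p ≠ 0 := by
    have h3 : AnalyticAt ℂ (fun p : ℂ × ℂ => B.eval (p.1 + p.2) + landp_s A B p) (h, 0) :=
      (landp_eval hc).add hs1
    refine h3.continuousAt.eventually_ne ?_
    rw [hs2]
    simpa using hBh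
  have hG1 : ∀ᶠ p : ℂ × ℂ in 𝓝 (h, 0),
      (A.eval (p.1 + p.2) - p.1 * B.eval (p.1 + p.2)) +
        p.2 * ((derivative A).eval (p.1 + p.2) - p.1 * (derivative B).eval (p.1 + p.2)) ≠ 0 := by
    have h3 : AnalyticAt ℂ (fun p : ℂ × ℂ => (A.eval (p.1 + p.2) - p.1 * B.eval (p.1 + p.2)) +
        p.2 * ((derivative A).eval (p.1 + p.2) - p.1 * (derivative B).eval (p.1 + p.2)))
        (h, 0) :=
      ((landp_eval hc).sub (hfst.mul (landp_eval hc))).add
        (hsnd.mul ((landp_eval hc).sub (hfst.mul (landp_eval hc))))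
    refine h3.continuousAt.eventually_ne ?_
    simpa using hne0
  have hG5 : ∀ᶠ p : ℂ × ℂ in 𝓝 (h, 0), ‖p.1 - h‖ * (MA + MB) + ‖p.2 * landp_s A B p * p.1‖ +
      ‖p.2 * landp_s A B p‖ < min ρ η := by
    have h3 : ContinuousAt (fun p : ℂ × ℂ => ‖p.1 - h‖ * (MA + MB) +
        ‖p.2 * landp_s A B p * p.1‖ + ‖p.2 * landp_s A B p‖) (h, 0) :=
      ((((hfst.continuousAt.sub continuousAt_const).norm).mul continuousAt_const).add
        ((hsnd.mul hs1).mul hfst).continuousAt.norm).add (hsnd.mul hs1).continuousAt.norm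
    refine h3.eventually (gt_mem_nhds ?_)
    simp [hρ, hη]
  have hG6 : ∀ᶠ p : ℂ × ℂ in 𝓝 (h, 0),
      ‖p.2 * landp_s A B p‖ - ‖A.eval p.1 - p.1 * B.eval p.1‖ < 0 := by
    have h3 : ContinuousAt (fun p : ℂ × ℂ =>
        ‖p.2 * landp_s A B p‖ - ‖A.eval p.1 - p.1 * B.eval p.1‖) (h, 0) :=
      (hsnd.mul hs1).continuousAt.norm.sub
        ((landp_eval hfst).sub (hfst.mul (landp_eval hfst))).continuousAt.norm
    refine h3.eventually (gt_mem_nhds ?_)
    simpa using hne0
  have hW0 : Wr A B ≠ 0 := by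
    refine Pool.Agent.H91.Fatou.wr_ne_zero hcop ?_
    unfold dg
    omega
  have hG7 : ∀ᶠ p : ℂ × ℂ in 𝓝 (h, 0), (Wr A B).eval (p.1 + p.2) = 0 → p.1 + p.2 = h := by
    have h1 : ∀ᶠ z in 𝓝 h, (Wr A B).eval z = 0 → z = h := by
      have h2 : ((Wr A B).rootSet ℂ \ {h})ᶜ ∈ 𝓝 h := by
        refine IsOpen.mem_nhds ?_ ?_
        · exact (((Wr A B).rootSet_finite ℂ).subset sdiff_subset).isClosed.isOpen_compl
        · simp
      filter_upwards [h2] with z hz hz0
      by_contra hzh
      apply hz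
      refine ⟨?_, hzh⟩
      rw [mem_rootSet]
      exact ⟨hW0, by simpa using hz0⟩
    have h3 : Tendsto (fun p : ℂ × ℂ => p.1 + p.2) (𝓝 (h, 0)) (𝓝 h) := by
      have := hc.continuousAt.tendsto
      simpa using this
    exact h3.eventually h1
  -- isolation
  have hFiso : ∀ᶠ z in 𝓝[≠] h, F (z, 0) ≠ 0 := by
    have h1 : Tendsto (fun z : ℂ => (z, (0 : ℂ))) (𝓝[≠] h) (𝓝 (h, 0)) := by
      have : ContinuousAt (fun z : ℂ => (z, (0 : ℂ))) h := by fun_prop
      exact this.tendsto.mono_left nhdsWithin_le_nhds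
    have hcoe : Tendsto (fun z : ℂ => (z : OnePoint ℂ)) (𝓝[≠] h) (𝓝[≠] (h : OnePoint ℂ)) := by
      rw [tendsto_nhdsWithin_iff]
      refine ⟨((continuous_coe (X := ℂ)).tendsto h).mono_left nhdsWithin_le_nhds, ?_⟩
      filter_upwards [self_mem_nhdsWithin] with z hz hzh
      exact hz (OnePoint.coe_injective hzh)
    have hiso' := hcoe.eventually hiso
    filter_upwards [hiso', h1.eventually hG4, h1.eventually hG2] with z hz hz4 hz2
    have hs0 : landp_s A B (z, 0) = 0 := by unfold landp_s; simp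
    have hBz : B.eval z ≠ 0 := by
      simpa [hs0] using hz2
    have hit : ∀ j ≤ m, (rat A B)^[j + 1] (z : OnePoint ℂ) = (landp_Y A B j (z, 0) : OnePoint ℂ) := by
      intro j
      induction j with
      | zero =>
        intro _
        rw [zero_add, Function.iterate_one, rat_coe_of_ne hBz]
        have h2 : landp_Y A B 0 (z, 0) = A.eval z / B.eval z := by
          show (A.eval (z + 0) + landp_s A B (z, 0) * z) / (B.eval (z + 0) + landp_s A B (z, 0)) = _
          rw [hs0, add_zero, zero_mul, add_zero, add_zero]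
        rw [h2]
      | succ j ih =>
        intro hj
        have h4 := hz4 j (Finset.mem_range.2 (by omega))
        have h5 : B.eval (landp_Y A B j (z, 0)) ≠ 0 := left_ne_zero_of_mul h4
        have h6 : landp_Y A B j (z, 0) - z ≠ 0 := right_ne_zero_of_mul h4
        rw [Function.iterate_succ_apply', ih (by omega), rat_coe_of_ne h5]
        have h2 : landp_Y A B (j + 1) (z, 0) =
            A.eval (landp_Y A B j (z, 0)) / B.eval (landp_Y A B j (z, 0)) := by
          show (A.eval (landp_Y A B j (z, 0)) * (landp_Y A B j (z, 0) - z) +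
            0 * landp_s A B (z, 0) * z) / (B.eval (landp_Y A B j (z, 0)) *
            (landp_Y A B j (z, 0) - z) + 0 * landp_s A B (z, 0)) = _
          rw [zero_mul, zero_mul, add_zero, add_zero, mul_div_mul_right _ _ h6]
        rw [h2]
    intro hF
    apply hz
    rw [hit m le_rfl]
    have h7 : landp_Y A B m (z, 0) = z := sub_eq_zero.1 hF
    rw [h7]
  -- choose the parameters
  have hall := hG1.and (hG2.and (hG3.and (hG4.and (hG5.and (hG6.and hG7)))))
  rw [nhds_prod_eq] at hall
  obtain ⟨pa, hpa, pb, hpb, hab⟩ := Filter.eventually_prod_iff.1 hall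
  have hz := zero_persists hFan hF0 hFiso (N := {b | pa b}) hpa
  have hex : ∀ᶠ d in 𝓝[≠] (0 : ℂ), (∃ b ∈ {b | pa b}, F (b, d) = 0) ∧ pb d ∧ d ≠ 0 := by
    filter_upwards [nhdsWithin_le_nhds hz, nhdsWithin_le_nhds hpb, self_mem_nhdsWithin]
      with d h1 h2 h3
    exact ⟨h1, h2, h3⟩
  obtain ⟨d, ⟨b, hbN, hFbd⟩, hpd, hd0⟩ := hex.exists
  obtain ⟨g1, g2, g3, g4, g5, g6, g7⟩ := hab hbN hpd
  simp only at g1 g2 g3 g4 g5 g6 g7
  set s : ℂ := landp_s A B (b, d) with hs
  have hYm : landp_Y A B m (b, d) = b := sub_eq_zero.1 hFbd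
  have hY0 : landp_Y A B 0 (b, d) = (A.eval (b + d) + s * b) / (B.eval (b + d) + s) := rfl
  have hYs : ∀ j, landp_Y A B (j + 1) (b, d) =
      (A.eval (landp_Y A B j (b, d)) * (landp_Y A B j (b, d) - b) + d * s * b) /
      (B.eval (landp_Y A B j (b, d)) * (landp_Y A B j (b, d) - b) + d * s) := fun j => rfl
  have hds : d * s ≠ 0 := by
    intro hds
    have hs0 : s = 0 := (mul_eq_zero.1 hds).resolve_left hd0
    have hsdef : s = -(d * (Wr A B).eval (b + d)) /
        ((A.eval (b + d) - b * B.eval (b + d)) +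
        d * ((derivative A).eval (b + d) - b * (derivative B).eval (b + d))) := rfl
    have hW : (Wr A B).eval (b + d) = 0 := by
      rw [hs0, eq_comm, div_eq_zero_iff] at hsdef
      rcases hsdef with h1 | h1
      · exact (mul_eq_zero.1 (neg_eq_zero.1 h1)).resolve_left hd0
      · exact absurd h1 g1
    have hbd := g7 hW
    have hYx : ∀ j ≤ m, landp_Y A B j (b, d) = x (j + 1) := by
      intro j
      induction j with
      | zero =>
        intro _
        rw [hY0, hs0, hbd, zero_mul, add_zero, add_zero]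
        exact hstep 0 (by omega)
      | succ j ih =>
        intro hj
        have h4 := g4 j (Finset.mem_range.2 (by omega))
        have h6 : landp_Y A B j (b, d) - b ≠ 0 := right_ne_zero_of_mul h4
        rw [hYs, hs0, mul_zero, zero_mul, add_zero, add_zero, mul_div_mul_right _ _ h6,
          ih (by omega)]
        exact hstep (j + 1) (by omega)
    have h8 := hYx m le_rfl
    rw [hYm, hper] at h8
    rw [h8] at hbd
    exact hd0 (by simpa using hbd)
  have hcb : b + d - b = d := by ring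
  have hQc : B.eval (b + d) * (b + d - b) + d * s = d * (B.eval (b + d) + s) := by
    rw [hcb]; ring
  have hPc : A.eval (b + d) * (b + d - b) + d * s * b = d * (A.eval (b + d) + s * b) := by
    rw [hcb]; ring
  have hcoefA : ∀ i, ‖(A * (X - C b) + C (d * s * b)).coeff i - (A * (X - C h)).coeff i‖ ≤
      ‖b - h‖ * MA + ‖d * s * b‖ := by
    intro i
    have h1 : (A * (X - C b) + C (d * s * b)).coeff i - (A * (X - C h)).coeff i =
        -((b - h) * A.coeff i) + (C (d * s * b)).coeff i := by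
      rw [← coeff_sub]
      have h2 : A * (X - C b) + C (d * s * b) - A * (X - C h) =
          -(C (b - h) * A) + C (d * s * b) := by
        rw [C_sub]; ring
      rw [h2, coeff_add, coeff_neg, coeff_C_mul]
    rw [h1]
    refine (norm_add_le _ _).trans (add_le_add ?_ ?_)
    · rw [norm_neg, norm_mul]
      exact mul_le_mul_of_nonneg_left (hMA i) (norm_nonneg _)
    · rw [coeff_C]
      split_ifs
      · exact le_rfl
      · rw [norm_zero]; exact norm_nonneg _
  have hcoefB : ∀ i, ‖(B * (X - C b) + C (d * s)).coeff i - (B * (X - C h)).coeff i‖ ≤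
      ‖b - h‖ * MB + ‖d * s‖ := by
    intro i
    have h1 : (B * (X - C b) + C (d * s)).coeff i - (B * (X - C h)).coeff i =
        -((b - h) * B.coeff i) + (C (d * s)).coeff i := by
      rw [← coeff_sub]
      have h2 : B * (X - C b) + C (d * s) - B * (X - C h) =
          -(C (b - h) * B) + C (d * s) := by
        rw [C_sub]; ring
      rw [h2, coeff_add, coeff_neg, coeff_C_mul]
    rw [h1]
    refine (norm_add_le _ _).trans (add_le_add ?_ ?_)
    · rw [norm_neg, norm_mul]
      exact mul_le_mul_of_nonneg_left (hMB i) (norm_nonneg _)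
    · rw [coeff_C]
      split_ifs
      · exact le_rfl
      · rw [norm_zero]; exact norm_nonneg _
  have hcoefN : ∀ i, ‖(A - C b * B).coeff i - (A - C h * B).coeff i‖ ≤ ‖b - h‖ * MB := by
    intro i
    have h1 : (A - C b * B).coeff i - (A - C h * B).coeff i = -((b - h) * B.coeff i) := by
      rw [← coeff_sub]
      have h2 : A - C b * B - (A - C h * B) = -(C (b - h) * B) := by
        rw [C_sub]; ring
      rw [h2, coeff_neg, coeff_C_mul]
    rw [h1, norm_neg, norm_mul]
    exact mul_le_mul_of_nonneg_left (hMB i) (norm_nonneg _)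
  have hbh : 0 ≤ ‖b - h‖ := norm_nonneg _
  have hn1 : 0 ≤ ‖d * s * b‖ := norm_nonneg _
  have hn2 : 0 ≤ ‖d * s‖ := norm_nonneg _
  have hbA : 0 ≤ ‖b - h‖ * MA := mul_nonneg hbh hMA0
  have hbB : 0 ≤ ‖b - h‖ * MB := mul_nonneg hbh hMB0
  have g5' : ‖b - h‖ * MA + ‖b - h‖ * MB + ‖d * s * b‖ + ‖d * s‖ < min ρ η := by
    rw [← mul_add]; exact g5
  have hcop' : IsCoprime (A - C b * B) (B * (X - C b) + C (d * s)) := by
    refine (hopen _ _ ((hdegAB b).trans (by omega)) ?_ ?_).1
    · rw [natDegree_add_C, natDegree_mul hB0 (X_sub_C_ne_zero b), natDegree_X_sub_C, hB]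
    · intro i
      have hm2 := min_le_right ρ η
      exact ⟨lt_of_le_of_lt (hcoefN i) (by linarith), lt_of_le_of_lt (hcoefB i) (by linarith)⟩
  refine landp_final hB hA he (b := b) (t := d * s) (c := b + d) hcop' hds ?_ ?_ ?_
    (fun j => landp_Y A B j (b, d)) m ?_ ?_ ?_ ?_ hYm
  · intro hc1 hc2
    refine hrob _ _ hc1 hc2 ?_
    intro i
    have hm1 := min_le_left ρ η
    exact ⟨lt_of_le_of_lt (hcoefA i) (by linarith), lt_of_le_of_lt (hcoefB i) (by linarith)⟩
  · linarith
  · have hsdef : s = -(d * (Wr A B).eval (b + d)) /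
        ((A.eval (b + d) - b * B.eval (b + d)) +
        d * ((derivative A).eval (b + d) - b * (derivative B).eval (b + d))) := rfl
    rw [hcb]
    have h1 : s * ((A.eval (b + d) - b * B.eval (b + d)) +
        d * ((derivative A).eval (b + d) - b * (derivative B).eval (b + d))) =
        -(d * (Wr A B).eval (b + d)) := by
      rw [hsdef, div_mul_cancel₀ _ g1]
    linear_combination d * h1
  · rw [hQc]
    exact mul_ne_zero hd0 g2
  · rw [hQc, hPc, mul_div_mul_left _ _ hd0]
    exact hY0.symm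
  · intro j hj
    exact g3 j (Finset.mem_range.2 hj)
  · intro j hj
    exact (hYs j).symm

end Pool.Agent.H32.RB
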