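import Pool.Agent.H32.RB.HG
import Pool.Agent.H32.BT.MultLt

set_option autoImplicit false

open Filter Topology Polynomial OnePoint Metric Set

namespace Pool.Agent.H32.RB

open Pool.Agent.H44.Fatou Pool.Agent.H32.BT

/-
Same as mult_lt in Pool/Agent/H32/BT/MultLt.lean for the general family (replace Pt A B w0 t by
P t, B by Q t, hh A B w0 by hg P Q v, w0 by v t, hspec by (hg_spec F).1). Differentiability of
M(t) = prod over i < p of (Wr (P t) (Q t)).eval (a i t) / ((Q t).eval (a i t))^2: by eval_hol and der_hol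
(Wr = derivative P * Q - P * derivative Q, natDegree of the derivative at most D).
-/

theorem mult_gen {D : ℕ} {P Q : ℂ → Polynomial ℂ} {v : ℂ → ℂ} {δ : ℝ} (F : GFam D P Q v δ)
    {p m : ℕ} (hp : 0 < p) (a : ℕ → ℂ → ℂ)
    (ha : ∀ i, DifferentiableOn ℂ (a i) (ball 0 δ))
    (hper : ∀ i, ∀ t ∈ ball (0 : ℂ) δ, a (i + p) t = a i t)
    (hlim : ∀ i, ∀ t ∈ ball (0 : ℂ) δ,
      Tendsto (fun k => hg P Q v (m + i + p * k) t) atTop (𝓝 (a i t))) :
    (∀ i, (Q 0).eval (a i 0) ≠ 0 ∧ (P 0).eval (a i 0) / (Q 0).eval (a i 0) = a (i + 1) 0) ∧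
    ‖∏ i ∈ Finset.range p, (Wr (P 0) (Q 0)).eval (a i 0) / ((Q 0).eval (a i 0)) ^ 2‖ < 1 := by
  have hδ := F.hδ
  have hspec := (hg_spec F).1
  have hcopt : ∀ t ∈ ball (0 : ℂ) δ, IsCoprime (P t) (Q t) := by
    intro t ht
    exact F.cop t (by simpa using ht)
  -- the limit cycle is invariant
  have hinv : ∀ t ∈ ball (0 : ℂ) δ, ∀ i,
      rat (P t) (Q t) (a i t : OnePoint ℂ) = (a (i + 1) t : OnePoint ℂ) := by
    intro t ht i
    have ht' : ‖t‖ < δ := by simpa using ht
    have hcont := rat_continuous (hcopt t ht)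
    have h1 : Tendsto (fun k => rat (P t) (Q t) (hg P Q v (m + i + p * k) t : OnePoint ℂ))
        atTop (𝓝 (rat (P t) (Q t) (a i t : OnePoint ℂ))) :=
      (hcont.tendsto _).comp ((continuous_coe.tendsto _).comp (hlim i t ht))
    have h2 : Tendsto (fun k => (hg P Q v (m + (i + 1) + p * k) t : OnePoint ℂ))
        atTop (𝓝 (a (i + 1) t : OnePoint ℂ)) :=
      (continuous_coe.tendsto _).comp (hlim (i + 1) t ht)
    have h3 : (fun k => rat (P t) (Q t) (hg P Q v (m + i + p * k) t : OnePoint ℂ)) =
        fun k => (hg P Q v (m + (i + 1) + p * k) t : OnePoint ℂ) := by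
      funext k
      have e1 := (hspec t ht' (m + i + p * k)).2
      have e2 := (hspec t ht' (m + i + p * k + 1)).2
      rw [Function.iterate_succ_apply', e1] at e2
      rw [e2]
      congr 2
      ring
    rw [h3] at h1
    exact tendsto_nhds_unique h1 h2
  have hB : ∀ t ∈ ball (0 : ℂ) δ, ∀ i, (Q t).eval (a i t) ≠ 0 := by
    intro t ht i h0
    have h1 := hinv t ht i
    rw [rat_coe] at h1
    unfold pt at h1
    rw [if_pos h0] at h1
    exact infty_ne_coe _ h1
  have hstep : ∀ t ∈ ball (0 : ℂ) δ, ∀ i,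
      (P t).eval (a i t) / (Q t).eval (a i t) = a (i + 1) t := by
    intro t ht i
    have h1 := hinv t ht i
    rw [rat_coe_of_ne (hB t ht i)] at h1
    exact coe_eq_coe.1 h1
  have h00 : (0 : ℂ) ∈ ball (0 : ℂ) δ := mem_ball_self hδ
  refine ⟨fun i => ⟨hB 0 h00 i, ?_⟩, ?_⟩
  · exact hstep 0 h00 i
  -- the multiplier as a function of the parameter
  set M : ℂ → ℂ := fun t => ∏ i ∈ Finset.range p,
    (Wr (P t) (Q t)).eval (a i t) / ((Q t).eval (a i t)) ^ 2 with hM
  have hMd : DifferentiableOn ℂ M (ball 0 δ) := by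
    rw [hM]
    refine DifferentiableOn.fun_finsetProd fun i _ => ?_
    have hP : DifferentiableOn ℂ (fun t => (P t).eval (a i t)) (ball 0 δ) :=
      eval_hol F.degP F.holP (ha i)
    have hQ : DifferentiableOn ℂ (fun t => (Q t).eval (a i t)) (ball 0 δ) :=
      eval_hol F.degQ F.holQ (ha i)
    have hP' : DifferentiableOn ℂ (fun t => (derivative (P t)).eval (a i t)) (ball 0 δ) :=
      eval_hol (fun t ht => ((natDegree_derivative_le _).trans (Nat.sub_le _ _)).trans
        (F.degP t ht)) (der_hol F.holP) (ha i)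
    have hQ' : DifferentiableOn ℂ (fun t => (derivative (Q t)).eval (a i t)) (ball 0 δ) :=
      eval_hol (fun t ht => ((natDegree_derivative_le _).trans (Nat.sub_le _ _)).trans
        (F.degQ t ht)) (der_hol F.holQ) (ha i)
    refine DifferentiableOn.div ?_ (hQ.pow 2) (fun t ht => pow_ne_zero 2 (hB t ht i))
    have hW : ∀ t, (Wr (P t) (Q t)).eval (a i t) =
        (derivative (P t)).eval (a i t) * (Q t).eval (a i t) -
          (P t).eval (a i t) * (derivative (Q t)).eval (a i t) := by
      intro t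
      unfold Wr
      rw [eval_sub, eval_mul, eval_mul]
    simp only [hW]
    exact (hP'.mul hQ).sub (hP.mul hQ')
  have hlt : ∀ t : ℂ, t ≠ 0 → ‖t‖ < δ → ‖M t‖ < 1 := by
    intro t ht0 ht
    have htb : t ∈ ball (0 : ℂ) δ := by simpa using ht
    have hc := F.cop t ht
    have hd := F.max_eq t ht0 ht
    have hinf := F.inf t ht0 ht
    have hD : 1 ≤ D := F.one_le.trans (max_le (F.degP 0 (by simpa using F.hδ))
      (F.degQ 0 (by simpa using F.hδ)))
    obtain ⟨z, n0, hsink, hz⟩ := F.att t ht0 ht
    have hn0 : 0 < n0 := hsink.1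
    have hz2 : Tendsto (fun k => (rat (P t) (Q t))^[n0 * (p * k)] (v t : OnePoint ℂ))
        atTop (𝓝 z) := by
      refine hz.comp ?_
      exact tendsto_id.const_mul_atTop' hp
    have hz3 : Tendsto (fun k => (rat (P t) (Q t))^[n0 * (p * k)] (v t : OnePoint ℂ))
        atTop (𝓝 (a (p * m - m) t : OnePoint ℂ)) := by
      have h1 : Tendsto (fun k : ℕ => n0 * k - m) atTop atTop := by
        refine tendsto_atTop.2 fun b => ?_
        filter_upwards [eventually_ge_atTop (b + m)] with k hk
        have : k ≤ n0 * k := Nat.le_mul_of_pos_left k hn0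
        omega
      have h2 := (continuous_coe.tendsto _).comp ((hlim (p * m - m) t htb).comp h1)
      refine h2.congr' ?_
      filter_upwards [eventually_ge_atTop m] with k hk
      simp only [Function.comp_apply]
      rw [← (hspec t ht _).2]
      congr 1
      have e1 : m ≤ p * m := Nat.le_mul_of_pos_left m hp
      have e2 : k ≤ n0 * k := Nat.le_mul_of_pos_left k hn0
      have e3 : m + (p * m - m) = p * m := by omega
      rw [e3, ← Nat.mul_add]
      have e4 : m + (n0 * k - m) = n0 * k := by omega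
      rw [e4]
      ring
    have hz4 : z = (a (p * m - m) t : OnePoint ℂ) := tendsto_nhds_unique hz2 hz3
    rw [hz4] at hsink
    have hs2 := isSink_mul hsink hp
    obtain ⟨x, hx0, hxit, -, -, -, hprod⟩ := sink_mult hc (by rw [hd]; omega) hinf hs2
    have hxa : ∀ j, x j = a (p * m - m + j) t := by
      intro j
      have h1 : ∀ j, (rat (P t) (Q t))^[j] (a (p * m - m) t : OnePoint ℂ) =
          (a (p * m - m + j) t : OnePoint ℂ) := by
        intro j
        induction j with
        | zero => rfl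
        | succ j ih =>
          rw [Function.iterate_succ_apply', ih, hinv t htb]
          rfl
      have h2 := hxit j
      rw [h1 j] at h2
      exact (coe_eq_coe.1 h2).symm
    have h5 : ∏ j ∈ Finset.range (n0 * p),
        (Wr (P t) (Q t)).eval (x j) / ((Q t).eval (x j)) ^ 2 = M t ^ n0 := by
      have := prod_mul_period hp
        (fun i => (Wr (P t) (Q t)).eval (a i t) / ((Q t).eval (a i t)) ^ 2)
        (fun i => by
          change (Wr (P t) (Q t)).eval (a (i + p) t) / ((Q t).eval (a (i + p) t)) ^ 2 = _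
          rw [hper i t htb]) n0 (p * m - m)
      rw [← this]
      refine Finset.prod_congr rfl fun j _ => ?_
      rw [hxa j]
    rw [h5, norm_pow] at hprod
    by_contra hge
    push Not at hge
    exact absurd hprod (not_lt.2 (one_le_pow₀ hge))
  -- maximum principle
  have hδ2 : δ / 2 ≠ 0 := by positivity
  have hsub : closedBall (0 : ℂ) (δ / 2) ⊆ ball 0 δ := closedBall_subset_ball (by linarith)
  have hdc : DiffContOnCl ℂ M (ball 0 (δ / 2)) := by
    refine DifferentiableOn.diffContOnCl (hMd.mono ?_)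
    rw [closure_ball _ hδ2]
    exact hsub
  have hne : (sphere (0 : ℂ) (δ / 2)).Nonempty := NormedSpace.sphere_nonempty.2 (by positivity)
  have hcont : ContinuousOn (fun t => ‖M t‖) (sphere (0 : ℂ) (δ / 2)) :=
    (hMd.continuousOn.mono (sphere_subset_closedBall.trans hsub)).norm
  obtain ⟨t1, ht1, hmax⟩ := (isCompact_sphere (0 : ℂ) (δ / 2)).exists_isMaxOn hne hcont
  have ht1' : ‖t1‖ = δ / 2 := by simpa using ht1
  have ht10 : t1 ≠ 0 := by
    rintro rfl
    rw [norm_zero] at ht1'
    linarith
  have h1 := hlt t1 ht10 (by rw [ht1']; linarith)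
  have h2 : ‖M 0‖ ≤ ‖M t1‖ := by
    refine Complex.norm_le_of_forall_mem_frontier_norm_le isBounded_ball hdc ?_
      (subset_closure (mem_ball_self (by positivity)))
    intro z hz
    rw [frontier_ball _ hδ2] at hz
    exact hmax hz
  exact h2.trans_lt h1

end Pool.Agent.H32.RB
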