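import Pool.Agent.H32.RB.ContrG
import Pool.Agent.H32.RB.MultG
import Pool.Agent.H32.BT.AttFam

set_option autoImplicit false

open Filter Topology Polynomial OnePoint Metric Set

namespace Pool.Agent.H32.RB

open Pool.Agent.H44.Fatou Pool.Agent.H32.BT

/-- **limit principle**: if `v t` is attracted for all `t ≠ 0` of a (degenerating) holomorphic
family, then `v 0` is attracted. -/
theorem att_lim {D : ℕ} {P Q : ℂ → Polynomial ℂ} {v : ℂ → ℂ} {δ : ℝ} (F : GFam D P Q v δ) :
    Att (rat (P 0) (Q 0)) (v 0 : OnePoint ℂ) := by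
  have hδ := F.hδ
  have h00 : ‖(0 : ℂ)‖ < δ := by simpa using hδ
  obtain ⟨hspec, hdiff⟩ := hg_spec F
  have hloc := contr_gen F
  obtain ⟨p, m, q, C, hp, hq0, hq1, hdisc⟩ := disc_of_circle hδ (hg P Q v) hdiff hloc
  have hδ2 : 0 < δ / 2 := by positivity
  have hsub : ball (0 : ℂ) (δ / 2) ⊆ ball 0 δ := ball_subset_ball (by linarith)
  obtain ⟨a, ha, hper, hlim⟩ := limit_cycle hδ2 (hg P Q v) hp hq0 hq1
    (fun n => (hdiff n).mono hsub) (fun t ht => hdisc t (ball_subset_closedBall ht))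
  have hcop : IsCoprime (P 0) (Q 0) := F.cop 0 h00
  have hdP := F.degP 0 h00
  have hdQ := F.degQ 0 h00
  obtain ⟨hst, hml⟩ := mult_gen (F.mono hδ2 (by linarith)) hp a ha hper hlim
  -- the trap
  have hx : a p 0 = a 0 0 := by
    have := hper 0 0 (mem_ball_self hδ2)
    rwa [zero_add] at this
  have h1 : ∀ j < p, ev (cf D (P 0), cf D (Q 0)).2 (a j 0) ≠ 0 := by
    intro j _
    show ev (cf D (Q 0)) (a j 0) ≠ 0
    rw [ev_cf hdQ]
    exact (hst j).1
  have h2 : ∀ j < p, ev (cf D (P 0), cf D (Q 0)).1 (a j 0) /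
      ev (cf D (P 0), cf D (Q 0)).2 (a j 0) = a (j + 1) 0 := by
    intro j _
    show ev (cf D (P 0)) (a j 0) / ev (cf D (Q 0)) (a j 0) = a (j + 1) 0
    rw [ev_cf hdP, ev_cf hdQ]
    exact (hst j).2
  have h3 : ‖∏ j ∈ Finset.range p, wv (cf D (P 0), cf D (Q 0)) (a j 0) /
      ev (cf D (P 0), cf D (Q 0)).2 (a j 0) ^ 2‖ < 1 := by
    have : ∀ j, wv (cf D (P 0), cf D (Q 0)) (a j 0) / ev (cf D (P 0), cf D (Q 0)).2 (a j 0) ^ 2 =
        (Wr (P 0) (Q 0)).eval (a j 0) / ((Q 0).eval (a j 0)) ^ 2 := by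
      intro j
      rw [wv_cf hdP hdQ]
      show _ / ev (cf D (Q 0)) (a j 0) ^ 2 = _
      rw [ev_cf hdQ]
    simp only [this]
    exact hml
  obtain ⟨r, hr, -, hev⟩ := sink_of_mult (cf D (P 0), cf D (Q 0)) (fun j => a j 0) p hp hx h1 h2 h3
    Set.univ univ_mem
  obtain ⟨z, hz, hsink, hatt⟩ := hev.self_of_nhds (P 0) (Q 0) hcop hdP hdQ rfl
  have hl0 := hlim 0 0 (mem_ball_self hδ2)
  have hin := hl0.eventually (closedBall_mem_nhds (a 0 0) hr)
  obtain ⟨k, hk⟩ := hin.exists
  have hsp := (hspec 0 h00 (m + 0 + p * k)).2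
  have hcont : Continuous (rat (P 0) (Q 0)) := rat_continuous hcop
  rw [← att_iter hcont _ (m + 0 + p * k), hsp]
  exact ⟨z, p, hsink, (hatt _ hk).1⟩

/-- phase space version: a point all of whose neighbours are attracted is attracted -/
theorem not_isolated {A B : Polynomial ℂ} (hcop : IsCoprime A B)
    (hd : 1 ≤ max A.natDegree B.natDegree) (hinf : ¬ Att (rat A B) ∞) {b : ℂ} {r : ℝ}
    (hr : 0 < r) (hb : ∀ z ∈ ball b r, z ≠ b → Att (rat A B) (z : OnePoint ℂ))
    (hfin : ∀ n : ℕ, ∃ y : ℂ, (rat A B)^[n] (b : OnePoint ℂ) = (y : OnePoint ℂ)) :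
    Att (rat A B) (b : OnePoint ℂ) := by
  have F : GFam (max A.natDegree B.natDegree) (fun _ => A) (fun _ => B) (fun t => b + t) r :=
    { hδ := hr
      cop := fun _ _ => hcop
      degP := fun _ _ => le_max_left _ _
      degQ := fun _ _ => le_max_right _ _
      holP := fun _ => differentiableOn_const _
      holQ := fun _ => differentiableOn_const _
      holv := (differentiableOn_const b).add differentiableOn_id
      max_eq := fun _ _ _ => rfl
      inf := fun _ _ _ => hinf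
      att := fun t h0 ht => hb _ (by
        rw [mem_ball, dist_eq_norm, add_sub_cancel_left]; exact ht) (by
        intro h
        exact h0 (by simpa using h))
      fin := fun n => by
        obtain ⟨y, hy⟩ := hfin n
        exact ⟨y, by simpa using hy⟩
      one_le := hd }
  have := att_lim F
  simpa using this

end Pool.Agent.H32.RB
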