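import Pool.Agent.H32.RB.Lim

set_option autoImplicit false

open Filter Topology Polynomial OnePoint Metric Set

namespace Pool.Agent.H32.RB

open Pool.Agent.H44.Fatou Pool.Agent.H32.BT

/-
A hole at infinity. Put A' = reflect e A, B' = reflect e B, W' = Wr A' B', and for small u
  gam u = - u^2 * W'(u) / B'(u)^2,   v u = A'(u) / B'(u) + u * W'(u) / B'(u)^2.
B'(0) = B.coeff e is not 0 (eval_reflect_zero), W'(0) is not 0 since infinity is not critical
(crit_infty_of_wr in BT/Crit.lean, dg A B = e). For u not 0, z = 1/u: B z = z^e B'(u),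
A z = z^e A'(u) (eval_reflect) and (Wr A B) z = - z^(2e-2) W'(u) (wv_rev_aux / wv_rev in
H44/Fatou/Mob2.lean, or differentiate z^e B'(1/z)); hence gam u = (A/B)'(1/u) and
v u = A z / B z - gam u * z.
Family: P u = A - C (gam u) * X * B, Q u = B, D = e + 1, marked point v u.
* P 0 = A. For u small not 0: gam u is not 0, so natDegree (P u) = e + 1 (coefficient e + 1 is
  - gam u * B.coeff e, A has degree <= e). IsCoprime (P u) B since P u = A modulo B.
* coefficients of P u are differentiable in u on a small ball (gam is a quotient, B' not 0 there).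
* Near: the coefficients of P u tend to those of A, so by hrob HypMap (rat (P u) B) for small u.
* z = 1/u is critical: Wr (P u) B = Wr A B - C (gam u) * B^2 vanishes at 1/u; crit_of_wr. So it is
  attracted, and its value is P u (z) / B z = v u, B z not 0; att_map gives Att at v u.
* infinity is a fixed point of rat (P u) B (coefficient e+1 of B is 0), repelling with multiplier
  1 / (- gam u ...) in the coordinate 1/z: not attracted; see the proof of fam_basic in BT/Fam.lean
  (same statement for another family), or repelling_not_att after a chart.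
* fin: v 0 = A.coeff e / B.coeff e is the value of rat A B at infinity (rat_infty), so the orbit of v 0 is
  (rat A B)^[n+1] infinity, finite by hper.
Then att_lim gives Att (rat A B) (v 0) = Att at the image of infinity, and att_map concludes.
-/

/-- the Wronskian in the coordinate at infinity -/
theorem wr_reflect_div {A B : Polynomial ℂ} {e : ℕ} (hB : B.natDegree ≤ e)
    (hA : A.natDegree ≤ e) {z : ℂ} (hz : z ≠ 0) (hBz : B.eval z ≠ 0) :
    (Wr A B).eval z / (B.eval z) ^ 2 =
      - (z⁻¹) ^ 2 * (Wr (reflect e A) (reflect e B)).eval z⁻¹ / ((reflect e B).eval z⁻¹) ^ 2 := by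
  have hB' : (reflect e B).eval z⁻¹ ≠ 0 := by
    intro h
    rw [eval_reflect hB hz, h, zero_mul] at hBz
    exact hBz rfl
  have h1 : HasDerivAt (fun w => A.eval w / B.eval w) ((Wr A B).eval z / (B.eval z) ^ 2) z := by
    have := (A.hasDerivAt z).div (B.hasDerivAt z) hBz
    have h2 : (Wr A B).eval z = (derivative A).eval z * B.eval z - A.eval z * (derivative B).eval z := by
      unfold Wr
      rw [eval_sub, eval_mul, eval_mul]
    rw [h2]
    exact this
  have h2 : HasDerivAt (fun w => (reflect e A).eval w / (reflect e B).eval w)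
      ((Wr (reflect e A) (reflect e B)).eval z⁻¹ / ((reflect e B).eval z⁻¹) ^ 2) z⁻¹ := by
    have := ((reflect e A).hasDerivAt z⁻¹).div ((reflect e B).hasDerivAt z⁻¹) hB'
    have h2 : (Wr (reflect e A) (reflect e B)).eval z⁻¹ =
        (derivative (reflect e A)).eval z⁻¹ * (reflect e B).eval z⁻¹ -
        (reflect e A).eval z⁻¹ * (derivative (reflect e B)).eval z⁻¹ := by
      unfold Wr
      rw [eval_sub, eval_mul, eval_mul]
    rw [h2]
    exact this
  have h3 := h2.comp z (hasDerivAt_inv hz)
  have h4 : (fun w => A.eval w / B.eval w) =ᶠ[𝓝 z]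
      ((fun w => (reflect e A).eval w / (reflect e B).eval w) ∘ fun w : ℂ => w⁻¹) := by
    filter_upwards [isOpen_ne.mem_nhds hz] with w hw
    have hw' : w ≠ 0 := hw
    simp only [Function.comp]
    rw [eval_reflect hA hw', eval_reflect hB hw', mul_div_mul_right _ _ (pow_ne_zero _ hw')]
  have h5 := (h3.congr_of_eventuallyEq h4).unique h1
  rw [← h5]
  ring

theorem exists_gfam {A B : Polynomial ℂ} {e : ℕ} (hcop : IsCoprime A B)
    (hB : B.natDegree = e) (hA : A.natDegree ≤ e) (he : 1 ≤ e)
    (hcrit : ¬ IsCrit (rat A B) ∞) (hper : ∀ n : ℕ, (rat A B)^[n + 1] ∞ ≠ ∞)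
    (hrob : Robust (e + 1) A B) : ∃ (P : ℂ → Polynomial ℂ) (v : ℂ → ℂ) (δ : ℝ),
      GFam (e + 1) P (fun _ => B) v δ ∧ P 0 = A ∧ ((v 0 : ℂ) : OnePoint ℂ) = rat A B ∞ := by
  have hdg : dg A B = e := by unfold dg; rw [hB]; exact max_eq_right hA
  have hB0 : B ≠ 0 := by
    rintro rfl
    simp at hB; omega
  have hBe : B.coeff e ≠ 0 := by rw [← hB]; exact leadingCoeff_ne_zero.2 hB0
  have hBe1 : B.coeff (e + 1) = 0 := coeff_eq_zero_of_natDegree_lt (by omega)
  have hAe1 : A.coeff (e + 1) = 0 := coeff_eq_zero_of_natDegree_lt (by omega)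
  set A' : Polynomial ℂ := reflect e A with hA'
  set B' : Polynomial ℂ := reflect e B with hB'
  set W' : Polynomial ℂ := Wr A' B' with hW'
  have hB'0 : B'.eval 0 ≠ 0 := by rw [hB', eval_reflect_zero]; exact hBe
  have hW'0 : W'.eval 0 ≠ 0 := by
    intro h
    apply hcrit
    apply crit_infty_of_wr hcop (by rw [hB]; exact he.trans (le_max_right _ _))
    rw [hdg]
    exact h
  set gam : ℂ → ℂ := fun u => - u ^ 2 * W'.eval u / (B'.eval u) ^ 2 with hgam
  set v : ℂ → ℂ := fun u => A'.eval u / B'.eval u + u * W'.eval u / (B'.eval u) ^ 2 with hv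
  set P : ℂ → Polynomial ℂ := fun u => A + C (- gam u) * (X * B) with hP
  obtain ⟨ρ, hρ, hhyp⟩ := hrob
  obtain ⟨K, R, hK, hR, hbd⟩ := bdd_inf hcop hB hA he 0
  obtain ⟨S, hS, hSb⟩ := coeff_bdd (X * B)
  have hgc : ContinuousAt gam 0 := by
    apply ContinuousAt.div
    · exact ((continuous_id.pow 2).neg.mul W'.continuous).continuousAt
    · exact (B'.continuous.pow 2).continuousAt
    · exact pow_ne_zero 2 hB'0
  have hg0 : gam 0 = 0 := by simp [hgam]
  have hgt : Tendsto gam (𝓝 0) (𝓝 0) := by
    have := hgc.tendsto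
    rwa [hg0] at this
  have hev : ∀ᶠ u in 𝓝 (0 : ℂ), B'.eval u ≠ 0 ∧ W'.eval u ≠ 0 ∧ ‖gam u‖ < ρ / (S + 1) ∧
      ‖gam u‖ < 1 / 2 := by
    have e1 := (B'.continuous.tendsto 0).eventually_ne hB'0
    have e2 := (W'.continuous.tendsto 0).eventually_ne hW'0
    have hn : Tendsto (fun u => ‖gam u‖) (𝓝 0) (𝓝 0) := by
      have := hgt.norm
      rwa [norm_zero] at this
    have e3 : ∀ᶠ u in 𝓝 (0 : ℂ), ‖gam u‖ < ρ / (S + 1) := hn.eventually_lt_const (by positivity)
    have e4 : ∀ᶠ u in 𝓝 (0 : ℂ), ‖gam u‖ < 1 / 2 := hn.eventually_lt_const (by positivity)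
    filter_upwards [e1, e2, e3, e4] with u h1 h2 h3 h4
    exact ⟨h1, h2, h3, h4⟩
  obtain ⟨δ, hδ, hball⟩ := Metric.eventually_nhds_iff_ball.1 hev
  have hb : ∀ t : ℂ, ‖t‖ < δ → B'.eval t ≠ 0 ∧ W'.eval t ≠ 0 ∧ ‖gam t‖ < ρ / (S + 1) ∧
      ‖gam t‖ < 1 / 2 := fun t ht => hball t (by rwa [mem_ball_zero_iff])
  -- differentiability
  have hdg1 : DifferentiableOn ℂ gam (ball 0 δ) := by
    apply DifferentiableOn.div
    · exact ((differentiable_id.pow 2).neg.mul W'.differentiable).differentiableOn
    · exact (B'.differentiable.pow 2).differentiableOn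
    · intro t ht
      exact pow_ne_zero 2 (hball t ht).1
  have hdv : DifferentiableOn ℂ v (ball 0 δ) := by
    apply DifferentiableOn.add
    · apply DifferentiableOn.div
      · exact A'.differentiable.differentiableOn
      · exact B'.differentiable.differentiableOn
      · intro t ht
        exact (hball t ht).1
    · apply DifferentiableOn.div
      · exact (differentiable_id.mul W'.differentiable).differentiableOn
      · exact (B'.differentiable.pow 2).differentiableOn
      · intro t ht
        exact pow_ne_zero 2 (hball t ht).1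
  have hPc : ∀ u i, (P u).coeff i = A.coeff i + (- gam u) * (X * B).coeff i := by
    intro u i
    simp only [hP, coeff_add, coeff_C_mul]
  have hPe : ∀ u z, (P u).eval z = A.eval z - gam u * z * B.eval z := by
    intro u z
    simp only [hP, eval_add, eval_mul, eval_C, eval_X]
    ring
  have hcopP : ∀ u, IsCoprime (P u) B := by
    intro u
    have h : P u = A + B * (C (- gam u) * X) := by simp only [hP]; ring
    rw [h]
    exact hcop.add_mul_left_left _
  have hdegP : ∀ u, (P u).natDegree ≤ e + 1 := by
    intro u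
    simp only [hP]
    refine (natDegree_add_le _ _).trans (max_le (by omega) ?_)
    refine (natDegree_C_mul_le _ _).trans ?_
    refine (natDegree_mul_le).trans ?_
    have := natDegree_X_le (R := ℂ)
    omega
  have hgne : ∀ u : ℂ, u ≠ 0 → ‖u‖ < δ → gam u ≠ 0 := by
    intro u h0 hu
    obtain ⟨h1, h2, -, -⟩ := hb u hu
    simp only [hgam]
    exact div_ne_zero (mul_ne_zero (neg_ne_zero.2 (pow_ne_zero 2 h0)) h2) (pow_ne_zero 2 h1)
  have hdegP' : ∀ u : ℂ, u ≠ 0 → ‖u‖ < δ → (P u).natDegree = e + 1 := by
    intro u h0 hu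
    apply le_antisymm (hdegP u)
    apply le_natDegree_of_ne_zero
    rw [hPc, hAe1, coeff_X_mul, zero_add]
    exact mul_ne_zero (neg_ne_zero.2 (hgne u h0 hu)) hBe
  have hmaxP : ∀ u : ℂ, u ≠ 0 → ‖u‖ < δ → max (P u).natDegree B.natDegree = e + 1 := by
    intro u h0 hu
    rw [hdegP' u h0 hu, hB]; omega
  have hH : ∀ u : ℂ, u ≠ 0 → ‖u‖ < δ → HypMap (rat (P u) B) := by
    intro u h0 hu
    apply hhyp _ _ (hcopP u) (hmaxP u h0 hu)
    intro i
    refine ⟨?_, by simpa using hρ⟩
    obtain ⟨-, -, h3, -⟩ := hb u hu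
    rw [hPc, add_sub_cancel_left, norm_mul, norm_neg]
    calc ‖gam u‖ * ‖(X * B).coeff i‖ ≤ ‖gam u‖ * (S + 1) := by
          gcongr
          linarith [hSb i]
      _ < ρ / (S + 1) * (S + 1) := by gcongr
      _ = ρ := by field_simp
  have hP0 : P 0 = A := by
    simp only [hP, hg0]
    simp
  have hv0 : ((v 0 : ℂ) : OnePoint ℂ) = rat A B ∞ := by
    rw [rat_infty, hdg]
    unfold pt
    rw [if_neg hBe]
    simp only [hv, zero_mul, zero_div, add_zero, hA', hB', eval_reflect_zero]
  have F : GFam (e + 1) P (fun _ => B) v δ :=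
    { hδ := hδ
      cop := fun t _ => hcopP t
      degP := fun t _ => hdegP t
      degQ := fun _ _ => by omega
      holP := fun i => by
        simp only [hPc]
        exact (differentiableOn_const _).add (hdg1.neg.mul (differentiableOn_const _))
      holQ := fun _ => differentiableOn_const _
      holv := hdv
      max_eq := hmaxP
      inf := by
        intro t h0 ht
        obtain ⟨-, -, -, h4⟩ := hb t ht
        apply not_att_inf (hcopP t) (by rw [hmaxP t h0 ht]; omega) ?_ (max R (2 * K))
        · intro z hz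
          have hz1 : R < ‖z‖ := (le_max_left _ _).trans_lt hz
          have hz2 : 2 * K < ‖z‖ := (le_max_right _ _).trans_lt hz
          obtain ⟨hBz, hbz⟩ := hbd z hz1
          refine ⟨_, rat_coe_of_ne hBz, ?_⟩
          rw [sub_zero] at hbz
          have hval : (P t).eval z / B.eval z = A.eval z / B.eval z - gam t * z := by
            rw [hPe]
            field_simp
          rw [hval]
          calc ‖A.eval z / B.eval z - gam t * z‖ ≤ ‖A.eval z / B.eval z‖ + ‖gam t * z‖ :=
                norm_sub_le _ _
            _ ≤ K + 1 / 2 * ‖z‖ := by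
                rw [norm_mul]
                gcongr
            _ ≤ ‖z‖ := by linarith
        · rw [rat_infty]
          have : dg (P t) B = e + 1 := hmaxP t h0 ht
          rw [this, hBe1]
          unfold pt
          rw [if_pos rfl]
      att := by
        intro t h0 ht
        obtain ⟨h1, h2, -, -⟩ := hb t ht
        have hd1 : 1 ≤ max (P t).natDegree B.natDegree := by rw [hmaxP t h0 ht]; omega
        have hti : t⁻¹ ≠ 0 := inv_ne_zero h0
        have hBt : B.eval t⁻¹ = B'.eval t * (t⁻¹) ^ e := by
          have := eval_reflect (P := B) (N := e) hB.le hti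
          rwa [inv_inv] at this
        have hAt : A.eval t⁻¹ = A'.eval t * (t⁻¹) ^ e := by
          have := eval_reflect (P := A) (N := e) hA hti
          rwa [inv_inv] at this
        have hBne : B.eval t⁻¹ ≠ 0 := by
          rw [hBt]
          exact mul_ne_zero h1 (pow_ne_zero _ hti)
        have hg : (Wr A B).eval t⁻¹ / (B.eval t⁻¹) ^ 2 = gam t := by
          have := wr_reflect_div hB.le hA hti hBne
          rw [inv_inv] at this
          exact this
        have hcr : IsCrit (rat (P t) B) ((t⁻¹ : ℂ) : OnePoint ℂ) := by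
          apply crit_of_wr (hcopP t) hd1
          have hw : Wr (P t) B = Wr A B - C (gam t) * B ^ 2 := by
            simp only [hP]
            unfold Wr
            simp only [derivative_add, derivative_mul, derivative_C, derivative_X, map_neg]
            ring
          rw [hw, eval_sub, eval_mul, eval_C, eval_pow, ← hg,
            div_mul_cancel₀ _ (pow_ne_zero 2 hBne), sub_self]
        have hval : rat (P t) B ((t⁻¹ : ℂ) : OnePoint ℂ) = ((v t : ℂ) : OnePoint ℂ) := by
          have h6 := rat_coe_of_ne (P := P t) hBne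
          rw [h6]
          congr 1
          rw [hPe, sub_div, mul_div_assoc, div_self hBne, mul_one, hAt, hBt,
            mul_div_mul_right _ _ (pow_ne_zero _ hti)]
          simp only [hgam, hv]
          field_simp
          ring
        rw [← hval]
        exact (att_map (rat_continuous (hcopP t)) _).2 (hH t h0 ht _ hcr)
      fin := by
        intro n
        rw [hP0, hv0, ← Function.iterate_succ_apply]
        obtain ⟨y, hy⟩ := OnePoint.ne_infty_iff_exists.1 (hper n)
        exact ⟨y, hy.symm⟩
      one_le := by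
        show 1 ≤ max (P 0).natDegree B.natDegree
        rw [hB]; exact he.trans (le_max_right _ _) }
  exact ⟨P, v, δ, F, hP0, hv0⟩

theorem att_infty_of_robust {A B : Polynomial ℂ} {e : ℕ} (hcop : IsCoprime A B)
    (hB : B.natDegree = e) (hA : A.natDegree ≤ e) (he : 1 ≤ e)
    (hcrit : ¬ IsCrit (rat A B) ∞) (hper : ∀ n : ℕ, (rat A B)^[n + 1] ∞ ≠ ∞)
    (hrob : Robust (e + 1) A B) : Att (rat A B) ∞ := by
  obtain ⟨P, v, δ, F, hP0, hv0⟩ := exists_gfam hcop hB hA he hcrit hper hrob
  have h := att_lim F
  simp only [hP0, hv0] at h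
  exact (att_map (rat_continuous hcop) _).1 h

end Pool.Agent.H32.RB
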