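import Pool.Agent.H32.RB.Rep
import Pool.Agent.H32.RB.Hur

set_option autoImplicit false

open Filter Topology Polynomial OnePoint Metric Set

namespace Pool.Agent.H32.RB

open Pool.Agent.H44.Fatou Pool.Agent.H32.BT

/-
Opening the hole h = x n and pulling back. For t not 0 small put P = A (X - h) + t h, Q = B (X - h) + t.
P - hQ = (A - hB)(X - h), P h = h Q h, Q h = t. Coprime, max degree e + 1, near: as in LandC.lean (open_inR
for (A - hB, B (X - h)), natDegree (B (X-h)) = e+1). Multiplier at h: (A - hB)(h) / t, modulus > 1: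
h is not attracted (repelling_not_att). n = 0: take b1 = h. n >= 1: y 0 = z, y (j+1) (z,t) =
(A(y j)(y j - h) + t h) / (B(y j)(y j - h) + t), analytic at (x 0, 0) with value x (j+1), j < n
(denominator B(x j)(x j - h) not 0). F(z,t) = y n - h; F(x 0, 0) = 0; for t = 0, z near x 0, y n (z,0)
is the n-th iterate of A/B (finite near x 0), equal to h only on a countable (finite) set
(rat_fiber_finite, induction) so F(., 0) is not identically 0 near x 0 and x 0 is an isolated zero
(AnalyticAt.eventually_eq_zero_or_eventually_ne_zero). zero_persists gives z near x 0 with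
F(z,t) = 0, i.e. rat P Q maps z to h in n steps, so z is not attracted (att_iter).
-/

/-- the orbit of `p.1` under the opened map with parameter `p.2` -/
private noncomputable def yy (A B : Polynomial ℂ) (h : ℂ) : ℕ → ℂ × ℂ → ℂ
  | 0, p => p.1
  | j + 1, p => (A.eval (yy A B h j p) * (yy A B h j p - h) + p.2 * h) /
      (B.eval (yy A B h j p) * (yy A B h j p - h) + p.2)

private theorem yy_zero (A B : Polynomial ℂ) (h : ℂ) (p : ℂ × ℂ) : yy A B h 0 p = p.1 := rfl

private theorem yy_succ (A B : Polynomial ℂ) (h : ℂ) (j : ℕ) (p : ℂ × ℂ) :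
    yy A B h (j + 1) p = (A.eval (yy A B h j p) * (yy A B h j p - h) + p.2 * h) /
      (B.eval (yy A B h j p) * (yy A B h j p - h) + p.2) := rfl

private theorem yy_den {A B : Polynomial ℂ} {h x0 : ℂ} {j : ℕ}
    (ha : AnalyticAt ℂ (yy A B h j) (x0, 0)) :
    AnalyticAt ℂ (fun p : ℂ × ℂ => B.eval (yy A B h j p) * (yy A B h j p - h) + p.2) (x0, 0) := by
  have h1 : AnalyticAt ℂ (fun u : ℂ => B.eval u) (yy A B h j (x0, 0)) :=
    B.differentiable.analyticAt _
  have h2 : AnalyticAt ℂ (fun p : ℂ × ℂ => B.eval (yy A B h j p)) (x0, 0) :=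
    AnalyticAt.comp (g := fun u : ℂ => B.eval u) h1 ha
  exact (h2.mul (ha.sub analyticAt_const)).add analyticAt_snd

private theorem yy_an {A B : Polynomial ℂ} (x : ℕ → ℂ) (n : ℕ) (hne : ∀ j < n, x j ≠ x n)
    (hden : ∀ j < n, B.eval (x j) ≠ 0)
    (hstep : ∀ j < n, A.eval (x j) / B.eval (x j) = x (j + 1)) :
    ∀ j ≤ n, AnalyticAt ℂ (yy A B (x n) j) (x 0, 0) ∧ yy A B (x n) j (x 0, 0) = x j := by
  intro j
  induction j with
  | zero =>
    intro _
    exact ⟨analyticAt_fst, rfl⟩
  | succ j ih =>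
    intro hj
    obtain ⟨ha, hv⟩ := ih (by omega)
    have hjn : j < n := by omega
    have h0 : x j - x n ≠ 0 := sub_ne_zero.2 (hne j hjn)
    have hd : B.eval (yy A B (x n) j (x 0, 0)) * (yy A B (x n) j (x 0, 0) - x n) + (0 : ℂ) ≠ 0 := by
      rw [hv, add_zero]
      exact mul_ne_zero (hden j hjn) h0
    constructor
    · have h1 : AnalyticAt ℂ (fun u : ℂ => A.eval u) (yy A B (x n) j (x 0, 0)) :=
        A.differentiable.analyticAt _
      have h2 : AnalyticAt ℂ (fun p : ℂ × ℂ => A.eval (yy A B (x n) j p)) (x 0, 0) :=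
        AnalyticAt.comp (g := fun u : ℂ => A.eval u) h1 ha
      have h3 : AnalyticAt ℂ (fun p : ℂ × ℂ => A.eval (yy A B (x n) j p) *
          (yy A B (x n) j p - x n) + p.2 * x n) (x 0, 0) :=
        (h2.mul (ha.sub analyticAt_const)).add (analyticAt_snd.mul analyticAt_const)
      exact h3.div (yy_den ha) hd
    · rw [yy_succ, hv, zero_mul, add_zero, add_zero, mul_div_mul_right _ _ h0]
      exact hstep j hjn

private theorem fib_fin {P Q : Polynomial ℂ} (h : IsCoprime P Q)
    (hd : 1 ≤ max P.natDegree Q.natDegree) (n : ℕ) (y : OnePoint ℂ) :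
    {x | (rat P Q)^[n] x = y}.Finite := by
  induction n generalizing y with
  | zero =>
    have : {x : OnePoint ℂ | (rat P Q)^[0] x = y} = {y} := by
      ext x
      simp
    rw [this]
    exact finite_singleton y
  | succ n ih =>
    have : {x : OnePoint ℂ | (rat P Q)^[n + 1] x = y} ⊆
        ⋃ w ∈ rat P Q ⁻¹' {y}, {x | (rat P Q)^[n] x = w} := by
      intro x hx
      rw [mem_ofPred_eq, Function.iterate_succ_apply'] at hx
      exact mem_biUnion (x := (rat P Q)^[n] x) hx rfl
    exact ((rat_fiber_finite h hd y).biUnion fun w _ => ih w).subset this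

private theorem iso_zero {A B : Polynomial ℂ} (hcop : IsCoprime A B)
    (hd : 1 ≤ max A.natDegree B.natDegree) (x : ℕ → ℂ) (n : ℕ)
    (hne : ∀ j < n, x j ≠ x n) (hden : ∀ j < n, B.eval (x j) ≠ 0)
    (hstep : ∀ j < n, A.eval (x j) / B.eval (x j) = x (j + 1)) :
    ∀ᶠ z in 𝓝[≠] (x 0), yy A B (x n) n (z, 0) - x n ≠ 0 := by
  have hyan := yy_an (A := A) (B := B) x n hne hden hstep
  have hslice : ContinuousAt (fun z : ℂ => (z, (0 : ℂ))) (x 0) := by fun_prop
  have hcont : ∀ j ≤ n, ContinuousAt (fun z : ℂ => yy A B (x n) j (z, 0)) (x 0) := by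
    intro j hj
    have h1 : ContinuousAt (yy A B (x n) j) (x 0, 0) := (hyan j hj).1.continuousAt
    exact ContinuousAt.comp (f := fun z : ℂ => (z, (0 : ℂ))) (x := x 0) h1 hslice
  have hit : ∀ j ≤ n, ∀ᶠ z : ℂ in 𝓝 (x 0), (rat A B)^[j] (z : OnePoint ℂ) =
      ((yy A B (x n) j (z, 0) : ℂ) : OnePoint ℂ) := by
    intro j
    induction j with
    | zero =>
      intro _
      exact Eventually.of_forall fun z => rfl
    | succ j ih =>
      intro hj
      have hjn : j < n := by omega
      have hc := hcont j hjn.le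
      have e1 : ∀ᶠ z in 𝓝 (x 0), B.eval (yy A B (x n) j (z, 0)) ≠ 0 := by
        have h1 : ContinuousAt (fun z : ℂ => B.eval (yy A B (x n) j (z, 0))) (x 0) :=
          ContinuousAt.comp (g := fun u : ℂ => B.eval u) B.continuous.continuousAt hc
        refine h1.eventually_ne ?_
        rw [(hyan j hjn.le).2]
        exact hden j hjn
      have e2 : ∀ᶠ z in 𝓝 (x 0), yy A B (x n) j (z, 0) ≠ x n := by
        refine hc.eventually_ne ?_
        rw [(hyan j hjn.le).2]
        exact hne j hjn
      filter_upwards [ih hjn.le, e1, e2] with z h1 h2 h3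
      rw [Function.iterate_succ_apply', h1, yy_succ]
      have h4 : yy A B (x n) j (z, 0) - x n ≠ 0 := sub_ne_zero.2 h3
      have h5 := rat_coe_of_ne (P := A) (Q := B) h2
      have h6 : (A.eval (yy A B (x n) j (z, 0)) * (yy A B (x n) j (z, 0) - x n) +
          ((z, (0 : ℂ)) : ℂ × ℂ).2 * x n) /
          (B.eval (yy A B (x n) j (z, 0)) * (yy A B (x n) j (z, 0) - x n) +
          ((z, (0 : ℂ)) : ℂ × ℂ).2) =
          A.eval (yy A B (x n) j (z, 0)) / B.eval (yy A B (x n) j (z, 0)) := by
        simp only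
        rw [zero_mul, add_zero, add_zero, mul_div_mul_right _ _ h4]
      rw [h6]
      exact h5
  have han : AnalyticAt ℂ (fun z : ℂ => yy A B (x n) n (z, 0) - x n) (x 0) := by
    have h1 : AnalyticAt ℂ (fun z : ℂ => (z, (0 : ℂ))) (x 0) :=
      analyticAt_id.prod analyticAt_const
    have h2 : AnalyticAt ℂ (fun z : ℂ => yy A B (x n) n (z, 0)) (x 0) :=
      AnalyticAt.comp (f := fun z : ℂ => (z, (0 : ℂ))) (x := x 0) (hyan n le_rfl).1 h1
    exact h2.sub analyticAt_const
  rcases han.eventually_eq_zero_or_eventually_ne_zero with h0 | h0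
  · exfalso
    have h1 : ∀ᶠ z : ℂ in 𝓝 (x 0), (z : OnePoint ℂ) ∈
        {w | (rat A B)^[n] w = ((x n : ℂ) : OnePoint ℂ)} := by
      filter_upwards [h0, hit n le_rfl] with z h1 h2
      rw [h2, sub_eq_zero.1 h1]
    have hfin : {z : ℂ | (z : OnePoint ℂ) ∈
        {w | (rat A B)^[n] w = ((x n : ℂ) : OnePoint ℂ)}}.Finite :=
      (fib_fin hcop hd n _).preimage (OnePoint.coe_injective.injOn)
    exact infinite_of_mem_nhds (x 0) h1 hfin
  · exact h0

private theorem open_alg {A B : Polynomial ℂ} {e : ℕ} (hcop : IsCoprime A B)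
    (hB : B.natDegree = e) (hA : A.natDegree ≤ e) (he : 1 ≤ e) (h : ℂ)
    (hgh : A.eval h ≠ h * B.eval h) {ε : ℝ} (hε : 0 < ε) :
    ∃ δ : ℝ, 0 < δ ∧ ∀ t : ℂ, t ≠ 0 → ‖t‖ < δ →
      IsCoprime (A * (X - C h) + C (t * h)) (B * (X - C h) + C t) ∧
      max (A * (X - C h) + C (t * h)).natDegree (B * (X - C h) + C t).natDegree = e + 1 ∧
      Near ε (A * (X - C h) + C (t * h)) (B * (X - C h) + C t) (A * (X - C h)) (B * (X - C h)) ∧
      ¬ Att (rat (A * (X - C h) + C (t * h)) (B * (X - C h) + C t)) (h : OnePoint ℂ) := by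
  have hg0 : (A - C h * B).eval h ≠ 0 := by
    rw [eval_sub, eval_mul, eval_C, sub_ne_zero]
    exact hgh
  have hB0 : B ≠ 0 := by
    rintro rfl
    rw [natDegree_zero] at hB
    omega
  have hXh : (X - C h : Polynomial ℂ) ≠ 0 := X_sub_C_ne_zero h
  have hQd : (B * (X - C h)).natDegree = e + 1 := by
    rw [natDegree_mul hB0 hXh, hB, natDegree_X_sub_C]
  have hAhB : (A - C h * B).natDegree ≤ e := mob_deg2 h hA hB.le
  have hcX : ∀ R : Polynomial ℂ, R.eval h ≠ 0 → IsCoprime R (X - C h) := by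
    intro R hR
    exact ((prime_X_sub_C h).irreducible.coprime_iff_not_dvd.2
      (fun hdvd => hR (dvd_iff_isRoot.1 hdvd))).symm
  have hc1 : IsCoprime (A - C h * B) B := by
    have := hcop.add_mul_right_left (-C h)
    rw [neg_mul, ← sub_eq_add_neg] at this
    exact this
  have hc2 : IsCoprime (A - C h * B) (B * (X - C h)) := hc1.mul_right (hcX _ hg0)
  obtain ⟨η, hη, hopen⟩ := open_inR hc2 (e := e + 1) (by rw [hQd]; omega)
  set g := (A - C h * B).eval h with hg
  have hg1 : 0 < ‖g‖ := norm_pos_iff.2 hg0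
  have hh : 0 < 1 + ‖h‖ := by positivity
  refine ⟨min η (min (ε / (1 + ‖h‖)) ‖g‖), by positivity, fun t ht0 ht => ?_⟩
  have ht1 : ‖t‖ < η := ht.trans_le (min_le_left _ _)
  have ht2 : ‖t‖ < ε / (1 + ‖h‖) := ht.trans_le ((min_le_right _ _).trans (min_le_left _ _))
  have ht3 : ‖t‖ < ‖g‖ := ht.trans_le ((min_le_right _ _).trans (min_le_right _ _))
  have ht4 : ‖t‖ * (1 + ‖h‖) < ε := (lt_div_iff₀ hh).1 ht2
  have htp : 0 < ‖t‖ := norm_pos_iff.2 ht0
  set P := A * (X - C h) + C (t * h) with hP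
  set Q := B * (X - C h) + C t with hQ
  have hQdeg : Q.natDegree = e + 1 := by
    rw [hQ, natDegree_add_C, hQd]
  have hPdeg : P.natDegree ≤ e + 1 := by
    rw [hP, natDegree_add_C]
    refine natDegree_mul_le.trans ?_
    rw [natDegree_X_sub_C]
    omega
  have hPQ : P - C h * Q = (A - C h * B) * (X - C h) := by
    rw [hP, hQ, C_mul]
    ring
  have hQh : Q.eval h = t := by
    rw [hQ]
    simp
  have hPh : P.eval h = h * Q.eval h := by
    rw [hQh, hP]
    simp [mul_comm]
  have hcQ : IsCoprime (A - C h * B) Q := by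
    refine (hopen (A - C h * B) Q (by omega) hQdeg.le ?_).1
    intro i
    constructor
    · rw [sub_self, norm_zero]
      exact hη
    · rw [hQ, coeff_add, add_sub_cancel_left, coeff_C]
      split_ifs with hi
      · exact ht1
      · rw [norm_zero]
        exact hη
  have hcXQ : IsCoprime (X - C h) Q := (hcX Q (by rw [hQh]; exact ht0)).symm
  have hcPQ : IsCoprime P Q := by
    have h1 : IsCoprime ((A - C h * B) * (X - C h)) Q := hcQ.mul_left hcXQ
    rw [← hPQ] at h1
    have h2 := h1.add_mul_right_left (C h)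
    rw [sub_add_cancel] at h2
    exact h2
  have hmax : max P.natDegree Q.natDegree = e + 1 := by
    rw [hQdeg]
    exact max_eq_right hPdeg
  refine ⟨hcPQ, hmax, ?_, ?_⟩
  · intro i
    have hn := norm_nonneg h
    constructor
    · rw [hP, coeff_add, add_sub_cancel_left, coeff_C]
      split_ifs with hi
      · rw [norm_mul]
        nlinarith
      · rw [norm_zero]
        exact hε
    · rw [hQ, coeff_add, add_sub_cancel_left, coeff_C]
      split_ifs with hi
      · nlinarith
      · rw [norm_zero]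
        exact hε
  · refine repelling_not_att hcPQ (by omega) hPh (by rw [hQh]; exact ht0) ?_
    have hWr : (Wr P Q).eval h = g * t := by
      have h1 : P = C h * Q + (A - C h * B) * (X - C h) := by
        rw [← hPQ]
        ring
      have h2 : (derivative P).eval h = h * (derivative Q).eval h + g := by
        rw [h1]
        simp only [derivative_add, derivative_mul, derivative_C, derivative_sub, derivative_X,
          eval_add, eval_mul, eval_C, eval_sub, eval_X, sub_self, mul_zero, zero_mul, zero_add,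
          sub_zero, mul_one]
        rw [hg, eval_sub, eval_mul, eval_C]
      unfold Wr
      rw [eval_sub, eval_mul, eval_mul, h2, hPh, hQh]
      ring
    rw [hWr, hQh, pow_two, mul_div_mul_right _ _ ht0, norm_div, one_lt_div htp]
    exact ht3

theorem open_hole {A B : Polynomial ℂ} {e : ℕ} (hcop : IsCoprime A B)
    (hB : B.natDegree = e) (hA : A.natDegree ≤ e) (he : 1 ≤ e) (x : ℕ → ℂ) (n : ℕ)
    (hgh : A.eval (x n) ≠ x n * B.eval (x n)) (hne : ∀ j < n, x j ≠ x n)
    (hden : ∀ j < n, B.eval (x j) ≠ 0)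
    (hstep : ∀ j < n, A.eval (x j) / B.eval (x j) = x (j + 1)) {ε : ℝ} (hε : 0 < ε) :
    ∃ (P Q : Polynomial ℂ) (b : ℂ), IsCoprime P Q ∧ max P.natDegree Q.natDegree = e + 1 ∧
      Near ε P Q (A * (X - C (x n))) (B * (X - C (x n))) ∧ ‖b - x 0‖ < ε ∧
      ¬ Att (rat P Q) (b : OnePoint ℂ) := by
  have hyan := yy_an (A := A) (B := B) x n hne hden hstep
  obtain ⟨δ, hδ, halg⟩ := open_alg hcop hB hA he (x n) hgh hε
  -- denominators
  have hev : ∀ᶠ p in 𝓝 ((x 0, 0) : ℂ × ℂ), ∀ j < n,
      B.eval (yy A B (x n) j p) * (yy A B (x n) j p - x n) + p.2 ≠ 0 := by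
    have h1 : ∀ j ∈ Finset.range n, ∀ᶠ p in 𝓝 ((x 0, 0) : ℂ × ℂ),
        B.eval (yy A B (x n) j p) * (yy A B (x n) j p - x n) + p.2 ≠ 0 := by
      intro j hj
      have hjn := Finset.mem_range.1 hj
      refine (yy_den (hyan j hjn.le).1).continuousAt.eventually_ne ?_
      simp only
      rw [(hyan j hjn.le).2, add_zero]
      exact mul_ne_zero (hden j hjn) (sub_ne_zero.2 (hne j hjn))
    have h2 := (Finset.eventually_all (Finset.range n)).2 h1
    filter_upwards [h2] with p hp j hj
    exact hp j (Finset.mem_range.2 hj)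
  obtain ⟨r, hr, hball⟩ := Metric.eventually_nhds_iff_ball.1 hev
  have hiso := iso_zero hcop (by omega) x n hne hden hstep
  have hF : AnalyticAt ℂ (fun p : ℂ × ℂ => yy A B (x n) n p - x n) (x 0, 0) :=
    (hyan n le_rfl).1.sub analyticAt_const
  have hF0 : (fun p : ℂ × ℂ => yy A B (x n) n p - x n) (x 0, 0) = 0 := by
    simp only
    rw [(hyan n le_rfl).2, sub_self]
  have hz := zero_persists hF hF0 hiso (N := ball (x 0) (min r ε))
    (ball_mem_nhds _ (lt_min hr hε))
  have hz2 : ∀ᶠ t in 𝓝 (0 : ℂ), ‖t‖ < min δ r := by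
    have : Tendsto (fun t : ℂ => ‖t‖) (𝓝 0) (𝓝 0) := by
      simpa using (continuous_norm.tendsto (0 : ℂ))
    exact this.eventually (gt_mem_nhds (lt_min hδ hr))
  have hz3 : ∀ᶠ t in 𝓝[≠] (0 : ℂ), (∃ z ∈ ball (x 0) (min r ε),
      yy A B (x n) n (z, t) - x n = 0) ∧ ‖t‖ < min δ r ∧ t ≠ 0 := by
    filter_upwards [nhdsWithin_le_nhds hz, nhdsWithin_le_nhds hz2, self_mem_nhdsWithin] with t a b c
    exact ⟨a, b, c⟩
  obtain ⟨t, ⟨z, hzN, hzF⟩, htd, ht0⟩ := hz3.exists
  have htδ : ‖t‖ < δ := htd.trans_le (min_le_left _ _)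
  have htr : ‖t‖ < r := htd.trans_le (min_le_right _ _)
  obtain ⟨hc, hm, hnear, hnatt⟩ := halg t ht0 htδ
  have hzN' : dist z (x 0) < min r ε := mem_ball.1 hzN
  refine ⟨_, _, z, hc, hm, hnear, ?_, ?_⟩
  · rw [← dist_eq_norm]
    exact hzN'.trans_le (min_le_right _ _)
  · have hpt : (z, t) ∈ ball ((x 0, 0) : ℂ × ℂ) r := by
      rw [mem_ball, Prod.dist_eq]
      refine max_lt (hzN'.trans_le (min_le_left _ _)) ?_
      rw [dist_zero_right]
      exact htr
    have hdn := hball (z, t) hpt
    have hit : ∀ j ≤ n, (rat (A * (X - C (x n)) + C (t * x n)) (B * (X - C (x n)) + C t))^[j]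
        (z : OnePoint ℂ) = ((yy A B (x n) j (z, t) : ℂ) : OnePoint ℂ) := by
      intro j
      induction j with
      | zero =>
        intro _
        rfl
      | succ j ih =>
        intro hj
        have hjn : j < n := by omega
        have hdj := hdn j hjn
        rw [Function.iterate_succ_apply', ih hjn.le, yy_succ]
        have e1 : (A * (X - C (x n)) + C (t * x n)).eval (yy A B (x n) j (z, t)) =
            A.eval (yy A B (x n) j (z, t)) * (yy A B (x n) j (z, t) - x n) + t * x n := by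
          simp
        have e2 : (B * (X - C (x n)) + C t).eval (yy A B (x n) j (z, t)) =
            B.eval (yy A B (x n) j (z, t)) * (yy A B (x n) j (z, t) - x n) + t := by
          simp
        have h5 := rat_coe_of_ne (P := A * (X - C (x n)) + C (t * x n))
          (Q := B * (X - C (x n)) + C t) (z := yy A B (x n) j (z, t)) (by rw [e2]; exact hdj)
        rw [e1, e2] at h5
        exact h5
    have h1 := hit n le_rfl
    rw [sub_eq_zero.1 hzF] at h1
    rw [← att_iter (rat_continuous hc) (z : OnePoint ℂ) n, h1]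
    exact hnatt

end Pool.Agent.H32.RB
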