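import Pool.Agent.H32.RB.Defs

set_option autoImplicit false

open Filter Topology Polynomial OnePoint Metric Set

namespace Pool.Agent.H32.RB

open Pool.Agent.H44.Fatou Pool.Agent.H32.BT

/-
A non critical point x shares its value with another point (degree at least 2). Suppose not. Use a
chart: choose s in the plane, s not x and s not rat A B x, and rat A B s not rat A B x (possible: finite
fibre, rat_fiber_finite); exists_mob s (BT/Mob.lean) gives phi with phi s = infinity and a pair
A', B' = cj1, cj2, coprime, max degree e = max degree of A, B, conjugate by phi; then phi x =: x0 and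
y0 := phi (rat A B x) are finite, x0 is the only preimage of y0 and infinity is not a preimage.
So R := A' - C y0 * B' has natDegree e (coefficient e is not 0 because the value at infinity is not y0:
rat_infty; careful with the case where the value at infinity is infinity) and x0 is its only root
(if R z = 0 then B' z is not 0 by coprimality, so rat A' B' z = y0). Hence R = C c * (X - C x0)^e
(splits, all roots equal), and as e >= 2 both R and its derivative vanish at x0, so
Wr A' B' = Wr R B' (Wr is bilinear and alternating) vanishes at x0, so x0 is critical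
(crit_of_wr), so x is critical (isCrit_conj): contradiction.
-/

theorem other_fin {P Q : Polynomial ℂ} (hcop : IsCoprime P Q)
    (hd : 2 ≤ max P.natDegree Q.natDegree) {x0 y0 : ℂ}
    (hxy : rat P Q (x0 : OnePoint ℂ) = (y0 : OnePoint ℂ)) (hinf : rat P Q ∞ ≠ (y0 : OnePoint ℂ))
    (hx : ¬ IsCrit (rat P Q) (x0 : OnePoint ℂ)) :
    ∃ z : ℂ, z ≠ x0 ∧ rat P Q (z : OnePoint ℂ) = (y0 : OnePoint ℂ) := by
  have hQx : Q.eval x0 ≠ 0 := by
    intro h0
    rw [rat_coe] at hxy
    unfold pt at hxy
    rw [if_pos h0] at hxy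
    exact infty_ne_coe _ hxy
  have hPx : P.eval x0 = y0 * Q.eval x0 := by
    rw [rat_coe] at hxy
    unfold pt at hxy
    rw [if_neg hQx, coe_eq_coe, div_eq_iff hQx] at hxy
    exact hxy
  set R : Polynomial ℂ := P - C y0 * Q with hR
  have hRe : R.coeff (max P.natDegree Q.natDegree) ≠ 0 := by
    intro h0
    apply hinf
    rw [hR, coeff_sub, coeff_C_mul, sub_eq_zero] at h0
    rw [rat_infty]
    show pt (P.coeff (max P.natDegree Q.natDegree)) (Q.coeff (max P.natDegree Q.natDegree)) = _
    have hne := coeff_dg hcop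
    change P.coeff (max P.natDegree Q.natDegree) ≠ 0 ∨
      Q.coeff (max P.natDegree Q.natDegree) ≠ 0 at hne
    have hq : Q.coeff (max P.natDegree Q.natDegree) ≠ 0 := by
      rcases hne with h1 | h1
      · intro h2
        rw [h2, mul_zero] at h0
        exact h1 h0
      · exact h1
    unfold pt
    rw [if_neg hq, h0, mul_div_cancel_right₀ _ hq]
  have hRd : 2 ≤ R.natDegree := hd.trans (le_natDegree_of_ne_zero hRe)
  have hR0 : R.eval x0 = 0 := by
    rw [hR, eval_sub, eval_mul, eval_C, hPx, sub_self]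
  obtain ⟨S, hS⟩ : ∃ S, R = (X - C x0) * S := by
    have := (dvd_iff_isRoot.2 hR0 : X - C x0 ∣ R)
    obtain ⟨S, hS⟩ := this
    exact ⟨S, hS⟩
  have hRne : R ≠ 0 := by
    intro h0
    rw [h0, natDegree_zero] at hRd
    omega
  have hSne : S ≠ 0 := by
    rintro rfl
    exact hRne (by rw [hS, mul_zero])
  have hSd : 1 ≤ S.natDegree := by
    have h1 : R.natDegree = 1 + S.natDegree := by
      rw [hS, natDegree_mul (X_sub_C_ne_zero x0) hSne, natDegree_X_sub_C]
    omega
  have hSx : S.eval x0 ≠ 0 := by
    intro h0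
    apply hx
    refine crit_of_wr hcop (by omega) ?_
    have hP : P = (X - C x0) * S + C y0 * Q := by rw [← hS, hR]; ring
    have hdP : derivative P = S + (X - C x0) * derivative S + C y0 * derivative Q := by
      rw [hP]
      simp only [derivative_add, derivative_mul, derivative_sub, derivative_X, derivative_C,
        sub_zero, one_mul, zero_mul, zero_add]
    unfold Wr
    rw [eval_sub, eval_mul, eval_mul, hdP, hPx]
    simp only [eval_add, eval_mul, eval_sub, eval_X, eval_C, h0, sub_self, zero_mul, zero_add]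
    ring
  obtain ⟨z, hz⟩ := IsAlgClosed.exists_root S (by
    intro h0
    have := natDegree_eq_zero_iff_degree_le_zero.2 h0.le
    omega)
  have hzr : S.eval z = 0 := hz
  refine ⟨z, ?_, ?_⟩
  · rintro rfl
    exact hSx hzr
  · have hRz : R.eval z = 0 := by rw [hS, eval_mul, hzr, mul_zero]
    rw [hR, eval_sub, eval_mul, eval_C, sub_eq_zero] at hRz
    have hQz : Q.eval z ≠ 0 := by
      intro h0
      rw [h0, mul_zero] at hRz
      rcases coprime_eval hcop z with h1 | h1
      · exact h1 hRz
      · exact h1 h0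
    rw [rat_coe]
    unfold pt
    rw [if_neg hQz, hRz, mul_div_cancel_right₀ _ hQz]

theorem other_preimage {A B : Polynomial ℂ} (hcop : IsCoprime A B)
    (hd : 2 ≤ max A.natDegree B.natDegree) {x : OnePoint ℂ} (hx : ¬ IsCrit (rat A B) x) :
    ∃ x', x' ≠ x ∧ rat A B x' = rat A B x := by
  obtain ⟨s, hs1, hs2, hs3⟩ : ∃ s : ℂ, (s : OnePoint ℂ) ≠ x ∧ (s : OnePoint ℂ) ≠ rat A B x ∧
      rat A B (s : OnePoint ℂ) ≠ rat A B x := by
    have hf : (({x} : Set (OnePoint ℂ)) ∪ {rat A B x} ∪ rat A B ⁻¹' {rat A B x}).Finite :=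
      ((finite_singleton _).union (finite_singleton _)).union
        (rat_fiber_finite hcop (by omega) _)
    have hf2 := hf.preimage (f := ((↑) : ℂ → OnePoint ℂ)) (coe_injective.injOn)
    obtain ⟨s, hs⟩ := hf2.infinite_compl.nonempty
    rw [mem_compl_iff, mem_preimage, mem_union, mem_union, not_or, not_or] at hs
    exact ⟨s, hs.1.1, hs.1.2, hs.2⟩
  obtain ⟨φ, hφ1, hφ2, hφ3, hφ4⟩ := exists_mob s
  obtain ⟨hc, hm, hconj⟩ := hφ4 _ A B hcop rfl (by omega)
  have hfin : ∀ y : OnePoint ℂ, (s : OnePoint ℂ) ≠ y → ∃ y0 : ℂ, φ y = (y0 : OnePoint ℂ) := by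
    intro y hy
    have h1 : φ y ≠ ∞ := by
      intro h2
      apply hy
      apply φ.injective
      rw [hφ2, h2]
    obtain ⟨y0, hy0⟩ := ne_infty_iff_exists.1 h1
    exact ⟨y0, hy0.symm⟩
  obtain ⟨x0, hx0⟩ := hfin x hs1
  obtain ⟨y0, hy0⟩ := hfin (rat A B x) hs2
  obtain ⟨z, hz1, hz2⟩ := other_fin hc (hm.symm ▸ hd) (x0 := x0) (y0 := y0)
    (by rw [← hx0, hconj, hy0])
    (by
      rw [← hφ2, hconj, ← hy0]
      intro h1
      exact hs3 (φ.injective h1))
    (by
      rw [← hx0, isCrit_conj φ hconj]
      exact hx)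
  refine ⟨φ.symm z, ?_, ?_⟩
  · intro h1
    apply hz1
    have h2 := congrArg φ h1
    rw [φ.apply_symm_apply, hx0, coe_eq_coe] at h2
    exact h2
  · apply φ.injective
    rw [← hconj, φ.apply_symm_apply, hz2, hy0]

end Pool.Agent.H32.RB
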