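import Pool.Agent.H32.BT.Bridge
import Pool.Agent.H32.RB.Defs

set_option autoImplicit false

open Filter Topology Polynomial OnePoint Metric Set

namespace Pool.Agent.H32.RB

open Pool.Agent.H44.Fatou Pool.Agent.H32.BT

/-
The non attracted periodic points are countable. Fix n >= 1 and put f = rat A B,
S = {b in the plane : not Att f b, f^[n] b = b}. It is enough that S is countable. Every point b0 of S
is isolated in S: if b0 is an accumulation point of S then near b0 the map f^[n] is a holomorphic map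
F of a small ball into the plane (f^[n] b0 = b0 is finite and f^[n] is continuous; f is a quotient of
polynomials near each finite point with finite image, and if some intermediate point f^[i] b0 is
infinity use a chart, or write f^[n] as a quotient of two polynomials / use gn_spec in
H91/Fatou/Limit.lean; exists_mob lets you move infinity off the finite orbit of b0, all the notions
are invariant under conjugation), so F z = z for all z in a neighbourhood V of b0 (identity theorem,
AnalyticAt.frequently_eq_iff_eventually_eq or similar). By density of attracted points (BT/Bridge.lean, dense_att) some z in V is attracted: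
f^[n] z = z and z attracted imply that z is a sink: Tendsto (f^[m k] z) to the sink point y; as
f^[m k n] z = z, z = y and z is a sink, IsSink f z (m * n): all w near z satisfy
f^[m n k] w -> z, but for w in V, f^[n] w = w, so w = z for all w near z: contradiction.
A subset of the plane all of whose points are isolated in it is countable (second countable:
the subspace is discrete; e.g. Set.countable_of_isolated... / TopologicalSpace lemmas).
-/

private theorem per_ch (t : ℂ) : Pool.Agent.H91.Fatou.ch 1 0 0 1 t = (t : OnePoint ℂ) := by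
  unfold Pool.Agent.H91.Fatou.ch pt
  simp

private theorem per_iter {f : OnePoint ℂ → OnePoint ℂ} {z : OnePoint ℂ} {n : ℕ} (h : f^[n] z = z)
    (k : ℕ) : f^[n * k] z = z := by
  rw [Function.iterate_mul]
  exact Function.iterate_fixed h k

private theorem per_not_ev {A B : Polynomial ℂ} (hcop : IsCoprime A B)
    (hd : 2 ≤ max A.natDegree B.natDegree) (hyp : HypMap (rat A B)) (n : ℕ) (b : ℂ)
    (h : ∀ᶠ z : ℂ in 𝓝 b, (rat A B)^[n + 1] (z : OnePoint ℂ) = (z : OnePoint ℂ)) : False := by
  obtain ⟨V, hV, hVo, hbV⟩ := _root_.eventually_nhds_iff.1 h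
  have hopen : IsOpen ((fun z : ℂ => (z : OnePoint ℂ)) '' V) :=
    OnePoint.isOpenEmbedding_coe.isOpenMap _ hVo
  obtain ⟨_, ⟨z, hz, rfl⟩, hatt⟩ := (dense_att hcop hd hyp).inter_open_nonempty _ hopen ⟨_, b, hbV, rfl⟩
  obtain ⟨y, m, hs, ht⟩ := hatt
  have hzy : y = (z : OnePoint ℂ) := by
    have h1 : Tendsto (fun j : ℕ => (rat A B)^[m * ((n + 1) * j)] (z : OnePoint ℂ)) atTop (𝓝 y) :=
      ht.comp (tendsto_id.const_mul_atTop' (Nat.succ_pos n))
    have h2 : ∀ j : ℕ, (rat A B)^[m * ((n + 1) * j)] (z : OnePoint ℂ) = (z : OnePoint ℂ) := by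
      intro j
      have : m * ((n + 1) * j) = (n + 1) * (m * j) := by ring
      rw [this]
      exact per_iter (hV z hz) _
    simp only [h2] at h1
    exact (tendsto_nhds_unique h1 tendsto_const_nhds)
  subst hzy
  obtain ⟨-, -, U, hU, hUw⟩ := hs
  have hU' : (fun w : ℂ => (w : OnePoint ℂ)) ⁻¹' U ∈ 𝓝 z :=
    OnePoint.continuous_coe.continuousAt.preimage_mem_nhds hU
  have hVz : V ∈ 𝓝 z := hVo.mem_nhds hz
  have hsub : (fun w : ℂ => (w : OnePoint ℂ)) ⁻¹' U ∩ V ⊆ {z} := by
    rintro w ⟨hw1, hw2⟩
    have h1 := hUw _ hw1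
    have h1' : Tendsto (fun j : ℕ => (rat A B)^[m * ((n + 1) * j)] (w : OnePoint ℂ)) atTop
        (𝓝 (z : OnePoint ℂ)) :=
      h1.comp (tendsto_id.const_mul_atTop' (Nat.succ_pos n))
    have h2 : ∀ j : ℕ, (rat A B)^[m * ((n + 1) * j)] (w : OnePoint ℂ) = (w : OnePoint ℂ) := by
      intro j
      have : m * ((n + 1) * j) = (n + 1) * (m * j) := by ring
      rw [this]
      exact per_iter (hV w hw2) _
    simp only [h2] at h1'
    exact OnePoint.coe_injective (tendsto_nhds_unique tendsto_const_nhds h1')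
  have h3 : {z} ∈ 𝓝 z := mem_of_superset (inter_mem hU' hVz) hsub
  have h4 : (𝓝[≠] z).NeBot := inferInstance
  have h5 : ({z}ᶜ : Set ℂ) ∩ {z} ∈ 𝓝[≠] z := inter_mem self_mem_nhdsWithin (mem_nhdsWithin_of_mem_nhds h3)
  rw [compl_inter_self] at h5
  exact h4.ne (empty_mem_iff_bot.1 h5)

theorem per_countable {A B : Polynomial ℂ} (hcop : IsCoprime A B)
    (hd : 2 ≤ max A.natDegree B.natDegree) (hyp : HypMap (rat A B)) :
    {b : ℂ | ¬ Att (rat A B) (b : OnePoint ℂ) ∧
      ∃ n : ℕ, (rat A B)^[n + 1] (b : OnePoint ℂ) = (b : OnePoint ℂ)}.Countable := by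
  have hsub : {b : ℂ | ¬ Att (rat A B) (b : OnePoint ℂ) ∧
      ∃ n : ℕ, (rat A B)^[n + 1] (b : OnePoint ℂ) = (b : OnePoint ℂ)} ⊆
      ⋃ n : ℕ, {b : ℂ | (rat A B)^[n + 1] (b : OnePoint ℂ) = (b : OnePoint ℂ)} := by
    rintro b ⟨-, n, hn⟩
    exact mem_iUnion.2 ⟨n, hn⟩
  refine Countable.mono hsub (countable_iUnion fun n => ?_)
  set S : Set ℂ := {b : ℂ | (rat A B)^[n + 1] (b : OnePoint ℂ) = (b : OnePoint ℂ)} with hS
  have hdisc : DiscreteTopology S := by
    rw [discreteTopology_subtype_iff]
    intro b hb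
    by_contra hne
    have hfr : ∃ᶠ z in 𝓝[≠] b, z ∈ S := by
      rw [Filter.frequently_iff]
      intro W hW
      by_contra hcon
      push Not at hcon
      apply hne
      rw [← Filter.empty_mem_iff_bot]
      have h1 : W ∩ S ∈ 𝓝[≠] b ⊓ 𝓟 S := inter_mem_inf hW (mem_principal_self S)
      refine mem_of_superset h1 ?_
      rintro x ⟨hx1, hx2⟩
      exact absurd hx2 (hcon x hx1)
    have hdet : (1 : ℂ) * 1 - 0 * 0 ≠ 0 := by norm_num
    have hch : ∀ z ∈ S, (rat A B)^[n + 1] (Pool.Agent.H91.Fatou.ch 1 0 0 1 z) =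
        Pool.Agent.H91.Fatou.ch 1 0 0 1 z := by
      intro z hz
      rw [per_ch]
      exact hz
    obtain ⟨g1, g2, g3⟩ := Pool.Agent.H91.Fatou.gn_spec hcop hdet (n + 1) (hch b hb)
    set g := Pool.Agent.H91.Fatou.gn A B 1 0 0 1 (n + 1) with hg
    have hev : ∀ᶠ t in 𝓝 b, DifferentiableAt ℂ g t := by
      filter_upwards [g3] with t ht
      exact (Pool.Agent.H91.Fatou.gn_spec hcop hdet (n + 1) ht).2.1
    have hga : AnalyticAt ℂ g b := by
      rw [Complex.analyticAt_iff_eventually_differentiableAt]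
      exact hev
    have hfr2 : ∃ᶠ z in 𝓝[≠] b, g z = id z := by
      refine hfr.mono fun z hz => ?_
      exact (Pool.Agent.H91.Fatou.gn_spec hcop hdet (n + 1) (hch z hz)).1
    have hev2 := (hga.frequently_eq_iff_eventually_eq analyticAt_id).1 hfr2
    refine per_not_ev hcop hd hyp n b ?_
    filter_upwards [g3, hev2] with z hz1 hz2
    rw [hz2, per_ch, id, per_ch] at hz1
    exact hz1
  have : Countable S := countable_of_Lindelof_of_discrete
  exact Set.countable_coe_iff.1 this

end Pool.Agent.H32.RB
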