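import Pool.Agent.H32.RB.Lim
import Pool.Agent.H32.RB.Other
import Pool.Agent.H32.RB.Per
import Pool.Agent.H32.BT.NotAtt
import Pool.Agent.H35.NA.Alg

set_option autoImplicit false

open Filter Topology Polynomial OnePoint Metric Set

namespace Pool.Agent.H32.RB

open Pool.Agent.H44.Fatou Pool.Agent.H32.BT

/-
f = rat A B, K = set of non attracted points: closed (att_open), f^-1 K = K = preimages
(att_map). No point of K is critical (hyp).
(1) no_isolated: for b in K (finite) and r > 0 there is z in ball b r, z not b, z in K. Suppose not.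
 (1a) there is y in K which is not of the form f^[n] b, n >= 0. Otherwise K is contained in the
 forward orbit of b. f is onto (other_preimage is not needed here: a nonconstant rational map is onto;
 or use: image is open (rat_open) and compact, the sphere is connected). A preimage of b is in K, so
 it is f^[j] b, so f^[j+1] b = b and K is the finite cycle of b, f restricted to K is injective. b is
 not critical, so by other_preimage there is x' not b with f x' = f b, x' in K: contradiction with
 injectivity on the cycle.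
 (1b) move y to infinity: if y is not infinity take exists_mob y (phi y = infinity) and the conjugate
 pair A', B'; b' = phi b is finite (b is not y). All points near b' other than b' are attracted, no
 f'^[n] b' is infinity. not_isolated (Lim.lean) gives Att at b': contradiction. If y is infinity, no
 chart is needed.
(2) K' = K intersected with the plane is closed and every point of it is an accumulation point of
 it: Perfect (Preperfect). For N in nhds b choose an open ball U at b with closure in N;
 Perfect.closure_nhds_inter: closure (U ∩ K') is perfect and nonempty, hence not countable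
 (Perfect.exists_nat_bool_injection), and it is contained in K' ∩ N. By per_countable it contains a
 point which is not periodic.
-/

/-- a non attracted point outside the forward orbit of `b` -/
theorem exists_off_orbit {A B : Polynomial ℂ} (hcop : IsCoprime A B)
    (hd : 2 ≤ max A.natDegree B.natDegree) (hyp : HypMap (rat A B)) {b : OnePoint ℂ}
    (hb : ¬ Att (rat A B) b) :
    ∃ y, ¬ Att (rat A B) y ∧ ∀ n : ℕ, (rat A B)^[n] b ≠ y := by
  by_contra hcon
  push Not at hcon
  have hcont : Continuous (rat A B) := rat_continuous hcop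
  obtain ⟨w, hw⟩ := Pool.Agent.H35.NA.rat_surjective hcop (by unfold dg; omega) b
  have hwatt : ¬ Att (rat A B) w := by
    rw [← att_map hcont, hw]
    exact hb
  obtain ⟨j, hj⟩ := hcon w hwatt
  obtain ⟨x', hx'w, hx'⟩ := other_preimage hcop hd (x := w) (fun h => hwatt (hyp w h))
  have hx'att : ¬ Att (rat A B) x' := by
    rw [← att_map hcont, hx', hw]
    exact hb
  obtain ⟨i, hi⟩ := hcon x' hx'att
  have hper : (rat A B)^[j + 1] b = b := by
    rw [Function.iterate_succ_apply', hj, hw]
  have h1 : (rat A B)^[j + 1] x' = x' := by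
    rw [← hi, ← Function.iterate_add_apply, add_comm, Function.iterate_add_apply, hper]
  have h2 : (rat A B)^[j + 1] w = w := by
    rw [← hj, ← Function.iterate_add_apply, add_comm, Function.iterate_add_apply, hper]
  apply hx'w
  rw [← h1, ← h2, Function.iterate_succ_apply, hx', ← Function.iterate_succ_apply]

theorem no_isolated {A B : Polynomial ℂ} (hcop : IsCoprime A B)
    (hd : 2 ≤ max A.natDegree B.natDegree) (hyp : HypMap (rat A B)) {b : ℂ}
    (hb : ¬ Att (rat A B) (b : OnePoint ℂ)) {r : ℝ} (hr : 0 < r) :
    ∃ z ∈ ball b r, z ≠ b ∧ ¬ Att (rat A B) (z : OnePoint ℂ) := by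
  by_contra hcon
  push Not at hcon
  obtain ⟨y, hy, hyo⟩ := exists_off_orbit hcop hd hyp hb
  induction y using OnePoint.rec with
  | infty =>
    refine hb (not_isolated hcop (by omega) hy hr hcon ?_)
    intro n
    obtain ⟨y, hy'⟩ := OnePoint.ne_infty_iff_exists.1 (hyo n)
    exact ⟨y, hy'.symm⟩
  | coe s =>
    obtain ⟨φ, hφz, hφs, hφi, hφ⟩ := exists_mob s
    obtain ⟨hcop', hdeg', hconj⟩ := hφ _ A B hcop rfl (by omega)
    have hbs : b ≠ s := by
      intro h
      apply hyo 0
      rw [Function.iterate_zero, id, h]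
    have hU : IsOpen ((fun z : ℂ => φ.symm (z : OnePoint ℂ)) ⁻¹'
        (((↑) : ℂ → OnePoint ℂ) '' ball b r)) := by
      refine IsOpen.preimage (φ.symm.continuous.comp OnePoint.continuous_coe) ?_
      exact OnePoint.isOpenEmbedding_coe.isOpenMap _ isOpen_ball
    have hmem : (b - s)⁻¹ ∈ ((fun z : ℂ => φ.symm (z : OnePoint ℂ)) ⁻¹'
        (((↑) : ℂ → OnePoint ℂ) '' ball b r)) := by
      refine ⟨b, mem_ball_self hr, ?_⟩
      show (b : OnePoint ℂ) = φ.symm (((b - s)⁻¹ : ℂ) : OnePoint ℂ)
      rw [← hφz b hbs, φ.symm_apply_apply]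
    obtain ⟨r', hr', hball⟩ := Metric.isOpen_iff.1 hU _ hmem
    have hatt : Att (rat (cj1 s (max A.natDegree B.natDegree) A B)
        (cj2 s (max A.natDegree B.natDegree) A B)) (((b - s)⁻¹ : ℂ) : OnePoint ℂ) := by
      refine not_isolated hcop' (by omega) ?_ hr' ?_ ?_
      · rw [← hφs, att_conj φ hconj]
        exact hy
      · intro z hz hzb
        obtain ⟨w, hw, hwz⟩ := hball hz
        have hz' : (z : OnePoint ℂ) = φ (w : OnePoint ℂ) := by
          have hwz' : (w : OnePoint ℂ) = φ.symm (z : OnePoint ℂ) := hwz
          rw [hwz', φ.apply_symm_apply]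
        rw [hz', att_conj φ hconj]
        refine hcon w hw ?_
        rintro rfl
        apply hzb
        rw [hφz w hbs] at hz'
        exact OnePoint.coe_injective hz'
      · intro n
        have h1 : (rat (cj1 s (max A.natDegree B.natDegree) A B)
            (cj2 s (max A.natDegree B.natDegree) A B))^[n] (((b - s)⁻¹ : ℂ) : OnePoint ℂ) ≠ ∞ := by
          rw [← hφz b hbs, iter_conj φ hconj, ← hφs]
          intro h
          exact hyo n (φ.injective h)
        obtain ⟨y, hy'⟩ := OnePoint.ne_infty_iff_exists.1 h1
        exact ⟨y, hy'.symm⟩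
    rw [← hφz b hbs, att_conj φ hconj] at hatt
    exact hb hatt

theorem exists_nonperiodic {A B : Polynomial ℂ} (hcop : IsCoprime A B)
    (hd : 2 ≤ max A.natDegree B.natDegree) (hyp : HypMap (rat A B)) {b : ℂ}
    (hb : ¬ Att (rat A B) (b : OnePoint ℂ)) {N : Set ℂ} (hN : N ∈ 𝓝 b) :
    ∃ b' ∈ N, ¬ Att (rat A B) (b' : OnePoint ℂ) ∧
      ∀ n : ℕ, (rat A B)^[n + 1] (b' : OnePoint ℂ) ≠ (b' : OnePoint ℂ) := by
  have hcont : Continuous (rat A B) := rat_continuous hcop
  set K : Set ℂ := {z : ℂ | ¬ Att (rat A B) (z : OnePoint ℂ)} with hK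
  have hKc : IsClosed K := by
    rw [← isOpen_compl_iff]
    have : Kᶜ = ((↑) : ℂ → OnePoint ℂ) ⁻¹' {x | Att (rat A B) x} := by
      ext z
      simp [hK]
    rw [this]
    exact (att_open hcont).preimage OnePoint.continuous_coe
  have hKp : Perfect K := by
    refine ⟨hKc, ?_⟩
    intro x hx
    rw [accPt_iff_nhds]
    intro U hU
    obtain ⟨r, hr, hrU⟩ := Metric.mem_nhds_iff.1 hU
    obtain ⟨z, hz, hzx, hzK⟩ := no_isolated hcop hd hyp (b := x) hx hr
    exact ⟨z, ⟨hrU hz, hzK⟩, hzx⟩
  obtain ⟨r, hr, hrN⟩ := Metric.nhds_basis_closedBall.mem_iff.1 hN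
  obtain ⟨hP, hne⟩ := hKp.closure_nhds_inter b hb (mem_ball_self hr) isOpen_ball
  obtain ⟨g, hg, -, hginj⟩ := hP.exists_nat_bool_injection hne
  by_contra hcon
  push Not at hcon
  have hsub : closure (ball b r ∩ K) ⊆ {b : ℂ | ¬ Att (rat A B) (b : OnePoint ℂ) ∧
      ∃ n : ℕ, (rat A B)^[n + 1] (b : OnePoint ℂ) = (b : OnePoint ℂ)} := by
    intro z hz
    have hzN : z ∈ N := hrN (closure_ball_subset_closedBall
      (closure_mono inter_subset_left hz))
    have hzK : z ∈ K := by
      have := closure_mono (s := ball b r ∩ K) inter_subset_right hz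
      rwa [hKc.closure_eq] at this
    exact ⟨hzK, hcon z hzN hzK⟩
  have hcount : (range g).Countable := (per_countable hcop hd hyp).mono (hg.trans hsub)
  have : Countable (ℕ → Bool) := by
    rw [← Set.countable_univ_iff]
    rw [← Set.image_univ] at hcount
    exact Set.countable_of_injective_of_countable_image (hginj.injOn) hcount
  have h3 : Cardinal.mk (ℕ → Bool) ≤ Cardinal.aleph0 := Cardinal.mk_le_aleph0_iff.2 this
  have h4 : Cardinal.mk (ℕ → Bool) = Cardinal.continuum := by
    rw [← Cardinal.power_def, Cardinal.mk_bool, Cardinal.mk_nat, Cardinal.two_power_aleph0]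
  rw [h4] at h3
  exact absurd h3 (not_le.2 Cardinal.aleph0_lt_continuum)

end Pool.Agent.H32.RB
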