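import Pool.Agent.H32.RB.Chart
import Pool.Agent.H32.RB.N1F
import Pool.Agent.H32.RB.Perf
import Pool.Agent.H32.RB.LandC
import Pool.Agent.H32.RB.LandP
import Pool.Agent.H32.RB.LandF
import Pool.Agent.H32.RB.Open2

set_option autoImplicit false

open Filter Topology Polynomial OnePoint Metric Set

namespace Pool.Agent.H32.RB

open Pool.Agent.H44.Fatou Pool.Agent.H32.BT

theorem near_hole {A B : Polynomial ℂ} {e : ℕ} (hA : A.natDegree ≤ e) (hB : B.natDegree ≤ e)
    (b : ℂ) {ρ : ℝ} (hρ : 0 < ρ) :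
    ∀ᶠ b' in 𝓝 b, Near ρ (A * (X - C b')) (B * (X - C b')) (A * (X - C b)) (B * (X - C b)) := by
  have hlin : ContC (fun t : ℂ => X - C t) := (ContC.const X).sub (ContC.C continuous_id)
  have hcA : ContC (fun t : ℂ => A * (X - C t)) := (ContC.const A).mul hlin
  have hcB : ContC (fun t : ℂ => B * (X - C t)) := (ContC.const B).mul hlin
  have hdA : ∀ t : ℂ, (A * (X - C t)).natDegree ≤ e + 1 := by
    intro t
    refine natDegree_mul_le.trans ?_
    rw [natDegree_X_sub_C]
    omega
  have hdB : ∀ t : ℂ, (B * (X - C t)).natDegree ≤ e + 1 := by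
    intro t
    refine natDegree_mul_le.trans ?_
    rw [natDegree_X_sub_C]
    omega
  filter_upwards [(hcA.near hdA b hρ).and (hcB.near hdB b hρ)] with b' hb' i
  exact ⟨hb'.1 i, hb'.2 i⟩

/-- W1: the hole of a robust pair is attracted -/
theorem att_of_robust {A B : Polynomial ℂ} {e : ℕ} (hcop : IsCoprime A B)
    (he : max A.natDegree B.natDegree = e) (he2 : 2 ≤ e) {b : ℂ}
    (hrob : Robust (e + 1) (A * (X - C b)) (B * (X - C b))) : Att (rat A B) (b : OnePoint ℂ) := by
  have hyp := hyp_of_robust_one hcop he he2 b hrob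
  obtain ⟨hA, hB⟩ := natDegree_le_of_max he
  by_contra hb
  obtain ⟨ρ, hρ, hnear⟩ := hrob.near
  obtain ⟨s, hsN, hsK, hsper⟩ := exists_nonperiodic hcop (by omega) hyp hb (near_hole hA hB b hρ)
  have hrob' := hnear _ _ hsN
  obtain ⟨φ, hφs, hφ1, hφi, hcop', hdeg', hconj, hBdeg⟩ := chart_at hcop he (by omega) s
  have hB' := hBdeg (hsper 0)
  have hA' := (natDegree_le_of_max hdeg').1
  have htr := (robust_transport hA hB (by omega) s 1 (X - C s) (natDegree_X_sub_C s).le).2 hrob'
  have h3 : reflect 1 ((X - C s).comp (X + C s)) = 1 := by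
    simp
  rw [h3, mul_one, mul_one] at htr
  have hatt := att_infty_of_robust hcop' hB' hA' (by omega) (by
    rw [← hφs, isCrit_conj φ hconj]
    intro hc
    exact hsK (hyp _ hc)) (by
    intro n h
    rw [← hφs, iter_conj φ hconj] at h
    exact hsper n (φ.injective h)) htr
  rw [← hφs, att_conj φ hconj] at hatt
  exact hsK hatt

theorem sink_of_fixed_att {f : OnePoint ℂ → OnePoint ℂ} {b : OnePoint ℂ} {p : ℕ} (hp : 0 < p)
    (hper : f^[p] b = b) (hatt : Att f b) : ∃ n, IsSink f b n := by
  obtain ⟨z, n, hs, ht⟩ := hatt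
  have h1 : Tendsto (fun k : ℕ => f^[n * (p * k)] b) atTop (𝓝 z) :=
    ht.comp (tendsto_id.const_mul_atTop' hp)
  have h2 : ∀ k : ℕ, f^[n * (p * k)] b = b := by
    intro k
    have : n * (p * k) = p * (n * k) := by ring
    rw [this, Function.iterate_mul]
    exact Function.iterate_fixed hper _
  have h3 : z = b := by
    have h4 : Tendsto (fun k : ℕ => f^[n * (p * k)] b) atTop (𝓝 b) := by
      simp only [h2]
      exact tendsto_const_nhds
    exact tendsto_nhds_unique h1 h4
  exact ⟨n, h3 ▸ hs⟩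

theorem iso_of_sink {f : OnePoint ℂ → OnePoint ℂ} {b : OnePoint ℂ} {p : ℕ} (hp : 0 < p)
    (hper : f^[p] b = b) (hatt : Att f b) :
    ∀ᶠ z in 𝓝[≠] b, f^[p] z ≠ z := by
  obtain ⟨n, hn, -, U, hU, hUt⟩ := sink_of_fixed_att hp hper hatt
  rw [eventually_nhdsWithin_iff]
  filter_upwards [hU] with z hz hne hfix
  apply hne
  have h1 : Tendsto (fun k : ℕ => f^[n * (p * k)] z) atTop (𝓝 b) :=
    (hUt _ hz).comp (tendsto_id.const_mul_atTop' hp)
  have h2 : ∀ k : ℕ, f^[n * (p * k)] z = z := by
    intro k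
    have : n * (p * k) = p * (n * k) := by ring
    rw [this, Function.iterate_mul]
    exact Function.iterate_fixed hfix _
  simp only [h2] at h1
  exact tendsto_nhds_unique tendsto_const_nhds h1

/-- the multiplier of an attracted fixed point has modulus less than one -/
theorem fixed_mult {A B : Polynomial ℂ} {e : ℕ} (hcop : IsCoprime A B)
    (he : max A.natDegree B.natDegree = e) (he2 : 2 ≤ e) {b : ℂ}
    (hfix : rat A B b = b) (hatt : Att (rat A B) (b : OnePoint ℂ)) :
    B.eval b ≠ 0 ∧ A.eval b = b * B.eval b ∧ ‖(Wr A B).eval b / (B.eval b) ^ 2‖ < 1 := by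
  have hBb : B.eval b ≠ 0 := by
    intro h0
    rw [rat_coe] at hfix
    unfold pt at hfix
    rw [if_pos h0] at hfix
    exact infty_ne_coe _ hfix
  have hAb : A.eval b = b * B.eval b := by
    rw [rat_coe_of_ne hBb] at hfix
    rw [div_eq_iff hBb |>.1 (OnePoint.coe_injective hfix)]
  refine ⟨hBb, hAb, ?_⟩
  -- chart free case
  have key : ∀ (A B : Polynomial ℂ) (b : ℂ), IsCoprime A B → max A.natDegree B.natDegree = e →
      ¬ Att (rat A B) ∞ → Att (rat A B) (b : OnePoint ℂ) → B.eval b ≠ 0 →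
      A.eval b = b * B.eval b → ‖(Wr A B).eval b / (B.eval b) ^ 2‖ < 1 := by
    intro A B b hcop he hinf hatt hBb hAb
    have hf1 : rat A B (b : OnePoint ℂ) = b := by
      rw [rat_coe_of_ne hBb, hAb, mul_div_cancel_right₀ _ hBb]
    obtain ⟨n, hs⟩ := sink_of_fixed_att (p := 1) one_pos (by simpa using hf1) hatt
    obtain ⟨x, hx0, -, -, hx, -, hprod⟩ := sink_mult hcop (by omega) hinf hs
    have hxb : ∀ j, x j = b := by
      intro j
      induction j with
      | zero => exact hx0
      | succ j ih => rw [← hx j, ih, hAb, mul_div_cancel_right₀ _ hBb]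
    simp only [hxb, Finset.prod_const, Finset.card_range, norm_pow] at hprod
    by_contra hge
    push Not at hge
    exact absurd hprod (not_lt.2 (one_le_pow₀ hge))
  obtain ⟨y, hy⟩ := exists_not_att hcop (by omega)
  induction y using OnePoint.rec with
  | infty => exact key A B b hcop he hy hatt hBb hAb
  | coe s =>
    have hbs : b ≠ s := by
      rintro rfl
      exact hy hatt
    obtain ⟨φ, hφs, hφ1, hφi, hcop', hdeg', hconj, -⟩ := chart_at hcop he (by omega) s
    obtain ⟨hA, hB⟩ := natDegree_le_of_max he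
    obtain ⟨m1, m2, m3⟩ := mult_cj hA hB hbs hAb hBb
    have := key _ _ (b - s)⁻¹ hcop' hdeg' (by rw [← hφs, att_conj φ hconj]; exact hy)
      (by rw [← hφ1 b hbs, att_conj φ hconj]; exact hatt) m1 m2
    rwa [m3] at this

/-- the fixed hole, when infinity is another preimage -/
theorem fix_infty {A B : Polynomial ℂ} {e : ℕ} (hcop : IsCoprime A B) (hB : B.natDegree = e)
    (hA : A.natDegree ≤ e) (he2 : 2 ≤ e) {b : ℂ} (hBb : B.eval b ≠ 0)
    (hAb : A.eval b = b * B.eval b) (hinf : A.coeff e = b * B.coeff e)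
    (h0 : (Wr A B).eval b ≠ 0) (hlt : ‖(Wr A B).eval b / (B.eval b) ^ 2‖ < 1) :
    ¬ Robust (e + 1) (A * (X - C b)) (B * (X - C b)) := by
  have hroot : (A - C b * B).eval b = 0 := by
    rw [eval_sub, eval_mul, eval_C, hAb, sub_self]
  obtain ⟨A1, hA1⟩ := dvd_iff_isRoot.2 hroot
  have hAeq : A = (X - C b) * A1 + C b * B := by rw [← hA1]; ring
  have hWr : (Wr A B).eval b = A1.eval b * B.eval b := by
    have hd : derivative A = A1 + (X - C b) * derivative A1 + C b * derivative B := by
      conv_lhs => rw [hAeq]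
      simp [derivative_mul]
    unfold Wr
    rw [eval_sub, eval_mul, eval_mul, hd, hAb]
    simp
    ring
  have hA1b : A1.eval b ≠ 0 := by
    intro h
    rw [hWr, h, zero_mul] at h0
    exact h0 rfl
  have hA10 : A1 ≠ 0 := by
    rintro rfl
    simp at hA1b
  have hdeg : A1.natDegree + 2 ≤ e := by
    have h1 : (A - C b * B).natDegree ≤ e := by
      refine (natDegree_sub_le _ _).trans (max_le hA ?_)
      exact (natDegree_C_mul_le _ _).trans hB.le
    have h2 : (A - C b * B).coeff e = 0 := by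
      rw [coeff_sub, coeff_C_mul, hinf, sub_self]
    have h3 : (A - C b * B).natDegree < e := by
      rcases h1.lt_or_eq with h | h
      · exact h
      · exfalso
        rw [← h] at h2
        have h4 := leadingCoeff_eq_zero.1 h2
        rw [hA1] at h4
        exact (mul_ne_zero (X_sub_C_ne_zero b) hA10) h4
    rw [hA1, natDegree_mul (X_sub_C_ne_zero b) hA10, natDegree_X_sub_C] at h3
    omega
  have hml : A1.eval b / B.eval b = (Wr A B).eval b / (B.eval b) ^ 2 := by
    rw [hWr]
    field_simp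
  have := not_robust_fix (A1 := A1) (B := B) (e := e) (h := b) (by rw [← hAeq]; exact hcop) hB
    hdeg hBb hA1b (by rw [hml]; exact hlt)
  rwa [← hAeq] at this

/-- FIX: the hole of a robust pair is not a fixed point -/
theorem fixed_of_robust {A B : Polynomial ℂ} {e : ℕ} (hcop : IsCoprime A B)
    (he : max A.natDegree B.natDegree = e) (he2 : 2 ≤ e) {b : ℂ}
    (hrob : Robust (e + 1) (A * (X - C b)) (B * (X - C b))) : rat A B b ≠ b := by
  intro hfix
  obtain ⟨hA, hB⟩ := natDegree_le_of_max he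
  obtain ⟨hBb, hAb, hlt⟩ := fixed_mult hcop he he2 hfix (att_of_robust hcop he he2 hrob)
  -- nonzero multiplier
  obtain ⟨A2, hcop2, he2', hA2b, h0, hlt2, hrob2⟩ : ∃ A2 : Polynomial ℂ, IsCoprime A2 B ∧
      max A2.natDegree B.natDegree = e ∧ A2.eval b = b * B.eval b ∧ (Wr A2 B).eval b ≠ 0 ∧
      ‖(Wr A2 B).eval b / (B.eval b) ^ 2‖ < 1 ∧
      Robust (e + 1) (A2 * (X - C b)) (B * (X - C b)) := by
    by_cases h0 : (Wr A B).eval b = 0
    · obtain ⟨ρ, hρ, hnear⟩ := hrob.near
      obtain ⟨r, hr, hmul⟩ := mul_near2 (X - C b) hρ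
      obtain ⟨η, hη, hopen⟩ := open_inR hcop he
      set K : ℝ := ‖b‖ + 2 with hK
      have hK0 : 0 < K := by positivity
      set ε : ℝ := min (min (r / K) (η / K)) (‖B.eval b‖) / 2 with hε
      have hBn : 0 < ‖B.eval b‖ := norm_pos_iff.2 hBb
      have hε0 : 0 < ε := by positivity
      have hε1 : ε < r / K := by
        have : ε ≤ r / K / 2 := by
          rw [hε]; gcongr; exact (min_le_left _ _).trans (min_le_left _ _)
        have : 0 < r / K := by positivity
        linarith
      have hε2 : ε < η / K := by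
        have : ε ≤ η / K / 2 := by
          rw [hε]; gcongr; exact (min_le_left _ _).trans (min_le_right _ _)
        have : 0 < η / K := by positivity
        linarith
      have hε3 : ε < ‖B.eval b‖ := by
        have : ε ≤ ‖B.eval b‖ / 2 := by
          rw [hε]; gcongr; exact min_le_right _ _
        linarith
      set A2 : Polynomial ℂ := A + C (ε : ℂ) * (X - C b) with hA2
      have hcoef : ∀ i, ‖A2.coeff i - A.coeff i‖ ≤ ε * K := by
        intro i
        rw [hA2, coeff_add, add_sub_cancel_left, coeff_C_mul, norm_mul, Complex.norm_real,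
          Real.norm_of_nonneg hε0.le]
        gcongr
        rcases i with _ | _ | i
        · simp [hK]
        · simp [hK, coeff_X]
          linarith [norm_nonneg b]
        · simp [coeff_X, hK0.le]
      have hn : ∀ σ : ℝ, ε < σ / K → Near σ A2 B A B := by
        intro σ hσ i
        have hσ0 : 0 < σ := by
          have := hε0.trans hσ
          exact (div_pos_iff_of_pos_right hK0).1 this
        refine ⟨(hcoef i).trans_lt ?_, by simpa using hσ0⟩
        exact (lt_div_iff₀ hK0).1 hσ
      have hA2d : A2.natDegree ≤ e := by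
        rw [hA2]
        refine (natDegree_add_le _ _).trans (max_le hA ?_)
        refine (natDegree_C_mul_le _ _).trans ?_
        rw [natDegree_X_sub_C]
        omega
      obtain ⟨hc2, hm2⟩ := hopen A2 B hA2d hB (hn η hε2)
      have hWr2 : (Wr A2 B).eval b = ε * B.eval b := by
        have : (Wr A2 B).eval b = (Wr A B).eval b + ε * B.eval b := by
          unfold Wr
          rw [hA2]
          simp [derivative_mul]
          ring
        rw [this, h0, zero_add]
      refine ⟨A2, hc2, hm2, ?_, ?_, ?_, ?_⟩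
      · rw [hA2]
        simp [hAb]
      · rw [hWr2]
        exact mul_ne_zero (by exact_mod_cast hε0.ne') hBb
      · rw [hWr2]
        have : (ε : ℂ) * B.eval b / (B.eval b) ^ 2 = ε / B.eval b := by field_simp
        rw [this, norm_div, Complex.norm_real, Real.norm_of_nonneg hε0.le, div_lt_one hBn]
        exact hε3
      · exact hnear _ _ (hmul _ _ _ _ (hn r hε1))
    · exact ⟨A, hcop, he, hAb, h0, hlt, hrob⟩
  obtain ⟨hA', -⟩ := natDegree_le_of_max he2'
  have hncrit : ¬ IsCrit (rat A2 B) (b : OnePoint ℂ) := fun hc => h0 (crit_coe hc)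
  have hval : rat A2 B (b : OnePoint ℂ) = b := by
    rw [rat_coe_of_ne hBb, hA2b, mul_div_cancel_right₀ _ hBb]
  obtain ⟨x', hx'ne, hx'⟩ := other_preimage hcop2 (by omega) hncrit
  rw [hval] at hx'
  -- the statement at infinity
  have hend : ∀ (A B : Polynomial ℂ) (b : ℂ), IsCoprime A B → max A.natDegree B.natDegree = e →
      B.eval b ≠ 0 → A.eval b = b * B.eval b → (Wr A B).eval b ≠ 0 →
      ‖(Wr A B).eval b / (B.eval b) ^ 2‖ < 1 → rat A B ∞ = b →
      ¬ Robust (e + 1) (A * (X - C b)) (B * (X - C b)) := by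
    intro A B b hcop he hBb hAb h0 hlt hinf
    have hdg : dg A B = e := he
    rw [rat_infty, hdg] at hinf
    have hBe : B.coeff e ≠ 0 := by
      intro h
      rw [pt, if_pos h] at hinf
      exact infty_ne_coe _ hinf
    have hBdeg : B.natDegree = e :=
      le_antisymm (natDegree_le_of_max he).2 (le_natDegree_of_ne_zero hBe)
    have hAe : A.coeff e = b * B.coeff e := by
      rw [pt, if_neg hBe] at hinf
      exact (div_eq_iff hBe).1 (OnePoint.coe_injective hinf)
    exact fix_infty hcop hBdeg (natDegree_le_of_max he).1 he2 hBb hAb hAe h0 hlt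
  induction x' using OnePoint.rec with
  | infty => exact hend A2 B b hcop2 he2' hBb hA2b h0 hlt2 hx' hrob2
  | coe s =>
    have hbs : b ≠ s := by
      rintro rfl
      exact hx'ne rfl
    obtain ⟨φ, hφs, hφ1, hφi, hcop', hdeg', hconj, -⟩ := chart_at hcop2 he2' (by omega) s
    obtain ⟨m1, m2, m3⟩ := mult_cj hA' hB hbs hA2b hBb
    have hBb' := m1
    refine hend _ _ (b - s)⁻¹ hcop' hdeg' m1 m2 ?_ (by rw [m3]; exact hlt2) ?_
      ((transport_one hA' hB (by omega) hbs).2 hrob2)
    · intro h
      rw [h, zero_div] at m3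
      have h5 : (Wr A2 B).eval b / (B.eval b) ^ 2 ≠ 0 := div_ne_zero h0 (pow_ne_zero 2 hBb)
      exact h5 m3.symm
    · rw [← hφs, hconj, hx', hφ1 b hbs]

theorem rat_eq_self {A B : Polynomial ℂ} (hcop : IsCoprime A B) {y : ℂ}
    (h : A.eval y = y * B.eval y) : rat A B y = y := by
  have hB : B.eval y ≠ 0 := by
    intro h0
    rcases coprime_eval hcop y with h1 | h1
    · rw [h0, mul_zero] at h
      exact h1 h
    · exact h1 h0
  rw [rat_coe_of_ne hB, h, mul_div_cancel_right₀ _ hB]

/-- W2: the hole of a robust pair is not periodic -/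
theorem per_of_robust {A B : Polynomial ℂ} {e : ℕ} (hcop : IsCoprime A B)
    (he : max A.natDegree B.natDegree = e) (he2 : 2 ≤ e) {b : ℂ}
    (hrob : Robust (e + 1) (A * (X - C b)) (B * (X - C b))) (n : ℕ) :
    (rat A B)^[n + 1] (b : OnePoint ℂ) ≠ b := by
  classical
  intro hn
  obtain ⟨hA, hB⟩ := natDegree_le_of_max he
  have hex : ∃ n, (rat A B)^[n + 1] (b : OnePoint ℂ) = b := ⟨n, hn⟩
  set p0 := Nat.find hex with hp0
  have hp : (rat A B)^[p0 + 1] (b : OnePoint ℂ) = b := Nat.find_spec hex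
  have hmin : ∀ m < p0, (rat A B)^[m + 1] (b : OnePoint ℂ) ≠ b := fun m hm => Nat.find_min hex hm
  rcases Nat.eq_zero_or_pos p0 with h0 | hpos
  · rw [h0] at hp
    exact fixed_of_robust hcop he he2 hrob (by simpa using hp)
  · set f := rat A B with hf
    obtain ⟨s, hsS, hsfix⟩ := exists_generic_s hcop (by omega)
      (S := Set.range (fun j : ℕ => f^[j] (b : OnePoint ℂ))) (Set.countable_range _)
    obtain ⟨φ, hφs, hφ1, hφi, hcop', hdeg', hconj, hBdeg⟩ := chart_at hcop he (by omega) s
    have hbs : b ≠ s := by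
      rintro rfl
      exact hsS ⟨0, rfl⟩
    -- the orbit in the chart
    have hfin : ∀ j : ℕ, ∃ y : ℂ, φ (f^[j] (b : OnePoint ℂ)) = (y : OnePoint ℂ) := by
      intro j
      have : φ (f^[j] (b : OnePoint ℂ)) ≠ ∞ := by
        rw [← hφs]
        intro h
        exact hsS ⟨j, φ.injective h⟩
      obtain ⟨y, hy⟩ := OnePoint.ne_infty_iff_exists.1 this
      exact ⟨y, hy.symm⟩
    choose x hx using hfin
    have hx0 : x 0 = (b - s)⁻¹ := by
      have := hx 0
      rw [Function.iterate_zero, id, hφ1 b hbs] at this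
      exact (OnePoint.coe_injective this).symm
    have hxit : ∀ j, (rat (cj1 s e A B) (cj2 s e A B))^[j] (x 0 : OnePoint ℂ) =
        (x j : OnePoint ℂ) := by
      intro j
      rw [hx0, ← hφ1 b hbs, iter_conj φ hconj, hx j]
    have hsteps := orbit_steps x hxit
    have hattb := att_of_robust hcop he he2 hrob
    refine not_robust_per hcop' (hBdeg hsfix) (natDegree_le_of_max hdeg').1 he2 x (p0 + 1)
      (by omega) ?_ ?_ (fun j _ => (hsteps j).1) (fun j _ => (hsteps j).2) ?_ ?_
    · have h1 := hx (p0 + 1)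
      rw [hp, hφ1 b hbs, ← hx0] at h1
      exact (OnePoint.coe_injective h1).symm
    · intro j hj1 hj2 heq
      obtain ⟨m, rfl⟩ : ∃ m, j = m + 1 := ⟨j - 1, by omega⟩
      have h1 := hx (m + 1)
      rw [heq, hx0, ← hφ1 b hbs] at h1
      exact hmin m (by omega) (φ.injective h1)
    · apply iso_of_sink (Nat.succ_pos _)
      · rw [hxit]
        have h1 := hx (p0 + 1)
        rw [hp, hφ1 b hbs, ← hx0] at h1
        exact h1.symm
      · rw [hx0, ← hφ1 b hbs, att_conj φ hconj]
        exact hattb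
    · rw [hx0]
      exact (transport_one hA hB (by omega) hbs).2 hrob

/-- W3: the hole of a robust pair is not in a strict forward critical orbit -/
theorem crit_of_robust {A B : Polynomial ℂ} {e : ℕ} (hcop : IsCoprime A B)
    (he : max A.natDegree B.natDegree = e) (he2 : 2 ≤ e) {b : ℂ}
    (hrob : Robust (e + 1) (A * (X - C b)) (B * (X - C b))) {c : OnePoint ℂ}
    (hc : IsCrit (rat A B) c) (n : ℕ) : (rat A B)^[n + 1] c ≠ b := by
  classical
  intro hn
  obtain ⟨hA, hB⟩ := natDegree_le_of_max he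
  set f := rat A B with hf
  have hper := per_of_robust hcop he he2 hrob
  have hex : ∃ n, f^[n + 1] c = b := ⟨n, hn⟩
  set p0 := Nat.find hex with hp0
  have hp : f^[p0 + 1] c = b := Nat.find_spec hex
  have hmin : ∀ m < p0, f^[m + 1] c ≠ b := fun m hm => Nat.find_min hex hm
  have hcb : c ≠ b := by
    intro h
    rw [h] at hp
    exact hper p0 hp
  obtain ⟨s, hsS, hsfix⟩ := exists_generic_s hcop (by omega)
    (S := Set.range (fun j : ℕ => f^[j] c)) (Set.countable_range _)
  obtain ⟨φ, hφs, hφ1, hφi, hcop', hdeg', hconj, hBdeg⟩ := chart_at hcop he (by omega) s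
  have hbs : b ≠ s := by
    rintro rfl
    exact hsS ⟨p0 + 1, hp⟩
  have hfin : ∀ j : ℕ, ∃ y : ℂ, φ (f^[j] c) = (y : OnePoint ℂ) := by
    intro j
    have : φ (f^[j] c) ≠ ∞ := by
      rw [← hφs]
      intro h
      exact hsS ⟨j, φ.injective h⟩
    obtain ⟨y, hy⟩ := OnePoint.ne_infty_iff_exists.1 this
    exact ⟨y, hy.symm⟩
  choose x hx using hfin
  have hx0 : φ c = (x 0 : OnePoint ℂ) := by simpa using hx 0
  have hxit : ∀ j, (rat (cj1 s e A B) (cj2 s e A B))^[j] (x 0 : OnePoint ℂ) =
      (x j : OnePoint ℂ) := by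
    intro j
    rw [← hx0, iter_conj φ hconj, hx j]
  have hsteps := orbit_steps x hxit
  have hxn : x (p0 + 1) = (b - s)⁻¹ := by
    have h1 := hx (p0 + 1)
    rw [hp, hφ1 b hbs] at h1
    exact (OnePoint.coe_injective h1).symm
  refine not_robust_crit hcop' (hBdeg hsfix) (natDegree_le_of_max hdeg').1 he2 x (p0 + 1)
    (by omega) ?_ ?_ (fun j _ => (hsteps j).1) (fun j _ => (hsteps j).2) ?_ ?_
  · intro h
    have h1 := rat_eq_self hcop' h
    rw [hxn, ← hφ1 b hbs, hconj] at h1
    exact hper 0 (φ.injective h1)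
  · intro j hj heq
    have h1 := hx j
    rw [heq, hxn, ← hφ1 b hbs] at h1
    have h2 := φ.injective h1
    rcases j with _ | m
    · exact hcb (by simpa using h2)
    · exact hmin m (by omega) h2
  · apply crit_coe
    have : IsCrit (rat (cj1 s e A B) (cj2 s e A B)) (φ c) := (isCrit_conj φ hconj c).2 hc
    rw [hx0] at this
    exact this
  · rw [hxn]
    exact (transport_one hA hB (by omega) hbs).2 hrob

/-- W4: two holes of a robust pair have no orbit relation, and are different -/
theorem two_of_robust {A B : Polynomial ℂ} {e : ℕ} (hcop : IsCoprime A B)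
    (he : max A.natDegree B.natDegree = e) (he2 : 2 ≤ e) {b b' : ℂ}
    (hrob : Robust (e + 2) (A * ((X - C b) * (X - C b'))) (B * ((X - C b) * (X - C b')))) (n : ℕ) :
    (rat A B)^[n] (b : OnePoint ℂ) ≠ b' := by
  classical
  intro hn
  obtain ⟨hA, hB⟩ := natDegree_le_of_max he
  set f := rat A B with hf
  have hrob1 : Robust (e + 1) (A * (X - C b')) (B * (X - C b')) := by
    apply robust_reduce (i := 1) (by omega) (X_sub_C_ne_zero b) (natDegree_X_sub_C b).le
    have e1 : A * (X - C b') * (X - C b) = A * ((X - C b) * (X - C b')) := by ring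
    have e2 : B * (X - C b') * (X - C b) = B * ((X - C b) * (X - C b')) := by ring
    rw [e1, e2]
    exact hrob
  have hper := per_of_robust hcop he he2 hrob1
  have hex : ∃ n, f^[n] (b : OnePoint ℂ) = b' := ⟨n, hn⟩
  set p0 := Nat.find hex with hp0
  have hp : f^[p0] (b : OnePoint ℂ) = b' := Nat.find_spec hex
  have hmin : ∀ m < p0, f^[m] (b : OnePoint ℂ) ≠ b' := fun m hm => Nat.find_min hex hm
  obtain ⟨s, hsS, hsfix⟩ := exists_generic_s hcop (by omega)
    (S := Set.range (fun j : ℕ => f^[j] (b : OnePoint ℂ))) (Set.countable_range _)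
  obtain ⟨φ, hφs, hφ1, hφi, hcop', hdeg', hconj, hBdeg⟩ := chart_at hcop he (by omega) s
  have hbs : b ≠ s := by
    rintro rfl
    exact hsS ⟨0, rfl⟩
  have hb's : b' ≠ s := by
    rintro rfl
    exact hsS ⟨p0, hp⟩
  have hfin : ∀ j : ℕ, ∃ y : ℂ, φ (f^[j] (b : OnePoint ℂ)) = (y : OnePoint ℂ) := by
    intro j
    have : φ (f^[j] (b : OnePoint ℂ)) ≠ ∞ := by
      rw [← hφs]
      intro h
      exact hsS ⟨j, φ.injective h⟩
    obtain ⟨y, hy⟩ := OnePoint.ne_infty_iff_exists.1 this
    exact ⟨y, hy.symm⟩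
  choose x hx using hfin
  have hx0 : x 0 = (b - s)⁻¹ := by
    have := hx 0
    rw [Function.iterate_zero, id, hφ1 b hbs] at this
    exact (OnePoint.coe_injective this).symm
  have hxit : ∀ j, (rat (cj1 s e A B) (cj2 s e A B))^[j] (x 0 : OnePoint ℂ) =
      (x j : OnePoint ℂ) := by
    intro j
    rw [hx0, ← hφ1 b hbs, iter_conj φ hconj, hx j]
  have hsteps := orbit_steps x hxit
  have hxn : x p0 = (b' - s)⁻¹ := by
    have h1 := hx p0
    rw [hp, hφ1 b' hb's] at h1
    exact (OnePoint.coe_injective h1).symm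
  have htr := (transport_two hA hB (by omega) hbs hb's).2 hrob
  rw [← hx0, ← hxn] at htr
  obtain ⟨ρ, hρ, hnear⟩ := htr.near
  obtain ⟨ε, hε, hlin⟩ := lin_near (cj1 s e A B * (X - C (x p0))) (cj2 s e A B * (X - C (x p0)))
    (x 0) hρ
  obtain ⟨P, Q, b1, hPQ, hdeg1, hPn, hb1, hKb1⟩ := open_hole hcop' (hBdeg hsfix)
    (natDegree_le_of_max hdeg').1 (by omega) x p0 (by
      intro h
      have h1 := rat_eq_self hcop' h
      rw [hxn, ← hφ1 b' hb's, hconj] at h1
      exact hper 0 (φ.injective h1)) (by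
      intro j hj heq
      have h1 := hx j
      rw [heq, hxn, ← hφ1 b' hb's] at h1
      exact hmin j hj (φ.injective h1)) (fun j _ => (hsteps j).1) (fun j _ => (hsteps j).2) hε
  apply hKb1
  apply att_of_robust hPQ hdeg1 (by omega)
  have h5 := hlin P Q b1 hPn hb1
  have e1 : cj1 s e A B * (X - C (x p0)) * (X - C (x 0)) =
      cj1 s e A B * ((X - C (x 0)) * (X - C (x p0))) := by ring
  have e2 : cj2 s e A B * (X - C (x p0)) * (X - C (x 0)) =
      cj2 s e A B * ((X - C (x 0)) * (X - C (x p0))) := by ring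
  rw [e1, e2] at h5
  exact hnear _ _ h5

end Pool.Agent.H32.RB
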